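import Pool.Agent.TD47.Glob

/-! Star subdivisions of smooth complete fans are smooth complete fans (MP_80b5de_an). -/

namespace Pool.Agent.TD47

/-- The coefficient of the ray `r` in `∑ s_j σ_j`. -/
noncomputable def cf (σ : Cone3) (s : Fin 3 → ℝ) (r : Fin 3 → ℤ) : ℝ :=
  ∑ j, if σ j = r then s j else 0

lemma cf_self {σ : Cone3} (hi : Function.Injective σ) (s : Fin 3 → ℝ) (j : Fin 3) :
    cf σ s (σ j) = s j := by
  unfold cf
  rw [Finset.sum_eq_single j]
  · rw [if_pos rfl]
  · intro k _ hk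
    rw [if_neg]
    intro h
    exact hk (hi h)
  · intro h
    exact absurd (Finset.mem_univ j) h

lemma cf_zero {σ : Cone3} (s : Fin 3 → ℝ) {r : Fin 3 → ℤ} (h : ∀ j, σ j ≠ r) : cf σ s r = 0 := by
  unfold cf
  apply Finset.sum_eq_zero
  intro j _
  rw [if_neg (h j)]

lemma inj_of_det {σ : Cone3} (h : (Matrix.of σ).det ≠ 0) : Function.Injective σ := by
  intro i j hij
  by_contra hne
  exact h (Matrix.det_zero_of_row_eq hne hij)

lemma det_ne {F : Finset Cone3} (hF : IsFan F) {σ : Cone3} (hσ : σ ∈ F) :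
    (Matrix.of σ).det ≠ 0 := by
  rcases hF.unimod σ hσ with h | h <;> rw [h] <;> decide

lemma face_cf {F : Finset Cone3} (hF : IsFan F) {σ τ : Cone3} (hσ : σ ∈ F) (hτ : τ ∈ F)
    {s t : Fin 3 → ℝ} (hs : ∀ j, 0 ≤ s j) (ht : ∀ j, 0 ≤ t j) (h : comb σ s = comb τ t)
    (r : Fin 3 → ℤ) : cf σ s r = cf τ t r := by
  have i1 := inj_of_det (det_ne hF hσ)
  have i2 := inj_of_det (det_ne hF hτ)
  by_cases h1 : ∃ j, σ j = r ∧ s j ≠ 0
  · obtain ⟨j, rfl, hj⟩ := h1
    obtain ⟨k, hk1, hk2⟩ := hF.face σ hσ τ hτ s t hs ht h j hj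
    rw [cf_self i1, hk1, cf_self i2, hk2]
  · push Not at h1
    have e1 : cf σ s r = 0 := by
      unfold cf
      apply Finset.sum_eq_zero
      intro j _
      split
      · rename_i hh
        exact h1 j hh
      · rfl
    rw [e1]
    by_contra hne
    have h2 : ∃ k, τ k = r ∧ t k ≠ 0 := by
      by_contra hcon
      push Not at hcon
      apply hne
      unfold cf
      symm
      apply Finset.sum_eq_zero
      intro j _
      split
      · rename_i hh
        exact hcon j hh
      · rfl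
    obtain ⟨k, hk, hk'⟩ := h2
    obtain ⟨j, hj1, hj2⟩ := hF.face τ hτ σ hσ t s ht hs h.symm k hk'
    exact hk' (by rw [hj2]; exact h1 j (hj1.symm.trans hk))

lemma face_of_cf {σ τ : Cone3} (i1 : Function.Injective σ) (i2 : Function.Injective τ)
    {s t : Fin 3 → ℝ} (h : ∀ r, cf σ s r = cf τ t r) (j : Fin 3) (hj : s j ≠ 0) :
    ∃ k, σ j = τ k ∧ s j = t k := by
  have h1 := h (σ j)
  rw [cf_self i1] at h1
  by_cases h2 : ∃ k, τ k = σ j
  · obtain ⟨k, hk⟩ := h2
    refine ⟨k, hk.symm, ?_⟩
    rw [h1, ← hk, cf_self i2]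
  · push Not at h2
    rw [cf_zero t h2] at h1
    exact absurd h1 hj

lemma comb_child (σ : Cone3) (s : Fin 3 → ℝ) (i j : Fin 3) (hij : i ≠ j) :
    comb (Function.update σ i (σ i + σ j)) s = comb σ (Function.update s j (s i + s j)) := by
  funext m
  unfold comb
  rw [Fin.sum_univ_three, Fin.sum_univ_three]
  fin_cases i <;> fin_cases j <;> simp at hij ⊢ <;> ring

lemma det_child (σ : Cone3) (i j : Fin 3) (hij : i ≠ j) :
    (Matrix.of (Function.update σ i (σ i + σ j))).det = (Matrix.of σ).det := by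
  have h := Matrix.det_updateRow_add_self (Matrix.of σ) hij
  rw [← h]
  rfl

/-- The coefficients of a child. -/
lemma cf_child {σ : Cone3} (hd : (Matrix.of σ).det ≠ 0) (s : Fin 3 → ℝ)
    {i j : Fin 3} (hij : i ≠ j) (hr : ∀ k, σ k ≠ σ i + σ j) :
    cf (Function.update σ i (σ i + σ j)) s (σ i + σ j) = s i ∧
    cf (Function.update σ i (σ i + σ j)) s (σ i) = 0 ∧
    cf (Function.update σ i (σ i + σ j)) s (σ j) = s j ∧
    cf σ (Function.update s j (s i + s j)) (σ i) = s i ∧
    cf σ (Function.update s j (s i + s j)) (σ j) = s i + s j ∧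
    ∀ r, r ≠ σ i → r ≠ σ j → r ≠ σ i + σ j →
      cf (Function.update σ i (σ i + σ j)) s r = cf σ (Function.update s j (s i + s j)) r := by
  have i1 := inj_of_det hd
  have i2 : Function.Injective (Function.update σ i (σ i + σ j)) :=
    inj_of_det (by rw [det_child σ i j hij]; exact hd)
  have e1 : Function.update σ i (σ i + σ j) i = σ i + σ j := Function.update_self _ _ _
  have e2 : Function.update σ i (σ i + σ j) j = σ j := Function.update_of_ne hij.symm _ _
  refine ⟨?_, ?_, ?_, ?_, ?_, ?_⟩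
  · have := cf_self i2 s i
    rwa [e1] at this
  · apply cf_zero
    intro k
    by_cases hk : k = i
    · rw [hk, e1]
      exact (hr i).symm
    · rw [Function.update_of_ne hk]
      exact fun h => hk (i1 h)
  · have := cf_self i2 s j
    rwa [e2] at this
  · rw [cf_self i1, Function.update_of_ne hij]
  · rw [cf_self i1, Function.update_self]
  · intro r h1 h2 h3
    unfold cf
    apply Finset.sum_congr rfl
    intro k _
    by_cases hki : k = i
    · rw [hki, e1, if_neg h3.symm, if_neg h1.symm]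
    · rw [Function.update_of_ne hki]
      by_cases hkj : k = j
      · rw [hkj, if_neg h2.symm, if_neg h2.symm]
      · rw [Function.update_of_ne hkj]

lemma not_ray {F : Finset Cone3} (hF : IsFan F) {u v : Fin 3 → ℤ} (huv : u ≠ v)
    (hex : ∃ σ ∈ F, (∃ i, σ i = u) ∧ (∃ j, σ j = v)) {τ : Cone3} (hτ : τ ∈ F) (k : Fin 3) :
    τ k ≠ u + v := by
  obtain ⟨σ, hσ, ⟨i, hi⟩, ⟨j, hj⟩⟩ := hex
  intro hk
  have i1 := inj_of_det (det_ne hF hσ)
  have hij : i ≠ j := by
    rintro rfl
    exact huv (hi.symm.trans hj)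
  have h0 : comb τ (Pi.single k 1) = comb σ (Pi.single i 1 + Pi.single j 1) := by
    funext m
    unfold comb
    have e1 : (∑ l, (Pi.single k (1 : ℝ) : Fin 3 → ℝ) l * (τ l m : ℝ)) = (τ k m : ℝ) := by
      rw [Finset.sum_eq_single k]
      · simp
      · intro l _ hl
        rw [Pi.single_eq_of_ne hl, zero_mul]
      · intro h
        exact absurd (Finset.mem_univ k) h
    have e2 : ∀ i : Fin 3, (∑ l, (Pi.single i (1 : ℝ) : Fin 3 → ℝ) l * (σ l m : ℝ)) =
        (σ i m : ℝ) := by
      intro i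
      rw [Finset.sum_eq_single i]
      · simp
      · intro l _ hl
        rw [Pi.single_eq_of_ne hl, zero_mul]
      · intro h
        exact absurd (Finset.mem_univ i) h
    rw [e1]
    simp only [Pi.add_apply, add_mul]
    rw [Finset.sum_add_distrib, e2 i, e2 j, hk, hi, hj, Pi.add_apply]
    push_cast
    ring
  have hs1 : ∀ l, 0 ≤ (Pi.single k (1 : ℝ) : Fin 3 → ℝ) l := by
    intro l
    by_cases h : l = k
    · rw [h, Pi.single_eq_same]; norm_num
    · rw [Pi.single_eq_of_ne h]
  have hs2 : ∀ l, 0 ≤ (Pi.single i (1 : ℝ) + Pi.single j (1 : ℝ) : Fin 3 → ℝ) l := by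
    intro l
    rw [Pi.add_apply]
    apply add_nonneg
    · by_cases h : l = i
      · rw [h, Pi.single_eq_same]; norm_num
      · rw [Pi.single_eq_of_ne h]
    · by_cases h : l = j
      · rw [h, Pi.single_eq_same]; norm_num
      · rw [Pi.single_eq_of_ne h]
  have hi' : (Pi.single i (1 : ℝ) + Pi.single j (1 : ℝ) : Fin 3 → ℝ) i ≠ 0 := by
    rw [Pi.add_apply, Pi.single_eq_same, Pi.single_eq_of_ne hij]; norm_num
  have hj' : (Pi.single i (1 : ℝ) + Pi.single j (1 : ℝ) : Fin 3 → ℝ) j ≠ 0 := by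
    rw [Pi.add_apply, Pi.single_eq_same, Pi.single_eq_of_ne hij.symm]; norm_num
  obtain ⟨a, ha1, ha2⟩ := hF.face σ hσ τ hτ _ _ hs2 hs1 h0.symm i hi'
  obtain ⟨b, hb1, hb2⟩ := hF.face σ hσ τ hτ _ _ hs2 hs1 h0.symm j hj'
  have ha3 : a = k := by
    by_contra hne
    rw [Pi.single_eq_of_ne hne] at ha2
    exact hi' ha2
  have hb3 : b = k := by
    by_contra hne
    rw [Pi.single_eq_of_ne hne] at hb2
    exact hj' hb2
  rw [ha3] at ha1
  rw [hb3] at hb1
  exact hij (i1 (ha1.trans hb1.symm))

/-- Parent coordinates. -/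
lemma parent {F : Finset Cone3} (hF : IsFan F) {u v : Fin 3 → ℤ} (huv : u ≠ v)
    (hex : ∃ σ ∈ F, (∃ i, σ i = u) ∧ (∃ j, σ j = v)) {τ : Cone3} (hτ : τ ∈ starSub F u v)
    {s : Fin 3 → ℝ} (hs : ∀ j, 0 ≤ s j) :
    ((Matrix.of τ).det = 1 ∨ (Matrix.of τ).det = -1) ∧
    ∃ σ ∈ F, ∃ s' : Fin 3 → ℝ, (∀ j, 0 ≤ s' j) ∧ comb σ s' = comb τ s ∧
      cf τ s (u + v) = min (cf σ s' u) (cf σ s' v) ∧
      cf τ s u = cf σ s' u - min (cf σ s' u) (cf σ s' v) ∧
      cf τ s v = cf σ s' v - min (cf σ s' u) (cf σ s' v) ∧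
      ∀ r, r ≠ u → r ≠ v → r ≠ u + v → cf τ s r = cf σ s' r := by
  rw [mem_starSub] at hτ
  rcases hτ with ⟨h1, h2⟩ | ⟨σ, hσ, ⟨a, ha⟩, ⟨b, hb⟩, i, hi, rfl⟩
  · refine ⟨hF.unimod τ h1, τ, h1, s, hs, rfl, ?_⟩
    have e0 : cf τ s (u + v) = 0 := cf_zero s (fun k => not_ray hF huv hex h1 k)
    have hn : ∀ r, 0 ≤ cf τ s r := by
      intro r
      unfold cf
      apply Finset.sum_nonneg
      intro j _
      split
      · exact hs j
      · exact le_refl _
    have e1 : min (cf τ s u) (cf τ s v) = 0 := by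
      by_cases h3 : ∃ i, τ i = u
      · have h4 : ∀ j, τ j ≠ v := by
          intro j hj
          exact h2 ⟨h3, j, hj⟩
        rw [cf_zero s h4]
        exact min_eq_right (hn u)
      · push Not at h3
        rw [cf_zero s h3]
        exact min_eq_left (hn v)
    rw [e0, e1]
    exact ⟨rfl, by ring, by ring, fun _ _ _ _ => rfl⟩
  · have hd := det_ne hF hσ
    have hab : a ≠ b := by
      rintro rfl
      exact huv (ha.symm.trans hb)
    have i1 := inj_of_det hd
    have hray := fun k => not_ray hF huv hex hσ k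
    rcases hi with hi | hi
    · have hia : i = a := i1 (hi.trans ha.symm)
      subst hia
      have hib : u + v = σ i + σ b := by rw [hi, hb]
      rw [hib]
      rw [hib] at hray
      refine ⟨by rw [det_child σ i b hab]; exact hF.unimod σ hσ, σ, hσ,
        Function.update s b (s i + s b), ?_, (comb_child σ s i b hab).symm, ?_⟩
      · intro j
        by_cases hj : j = b
        · rw [hj, Function.update_self]
          exact add_nonneg (hs _) (hs _)
        · rw [Function.update_of_ne hj]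
          exact hs j
      · obtain ⟨c1, c2, c3, c4, c5, c6⟩ := cf_child hd s hab hray
        rw [← ha, ← hb, c1, c2, c3, c4, c5]
        have := hs b
        rw [min_eq_left (by linarith)]
        exact ⟨rfl, by ring, by ring, c6⟩
    · have hib : i = b := i1 (hi.trans hb.symm)
      subst hib
      have hib : u + v = σ i + σ a := by rw [hi, ha, add_comm]
      rw [hib]
      rw [hib] at hray
      refine ⟨by rw [det_child σ i a hab.symm]; exact hF.unimod σ hσ, σ, hσ,
        Function.update s a (s i + s a), ?_, (comb_child σ s i a hab.symm).symm, ?_⟩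
      · intro j
        by_cases hj : j = a
        · rw [hj, Function.update_self]
          exact add_nonneg (hs _) (hs _)
        · rw [Function.update_of_ne hj]
          exact hs j
      · obtain ⟨c1, c2, c3, c4, c5, c6⟩ := cf_child hd s hab.symm hray
        rw [← ha, ← hb, c1, c2, c3, c4, c5]
        have := hs a
        rw [min_eq_right (by linarith)]
        exact ⟨rfl, by ring, by ring, fun r h1 h2 h3 => c6 r h2 h1 h3⟩

theorem IsFan.starSub {F : Finset Cone3} (hF : IsFan F) {u v : Fin 3 → ℤ} (huv : u ≠ v)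
    (hex : ∃ σ ∈ F, (∃ i, σ i = u) ∧ (∃ j, σ j = v)) : IsFan (starSub F u v) := by
  refine ⟨?_, ?_, ?_⟩
  · intro τ hτ
    exact (parent hF huv hex hτ (s := fun _ => 0) (fun _ => le_refl _)).1
  · intro x
    obtain ⟨σ, hσ, t, ht, hx⟩ := hF.complete x
    by_cases h : (∃ i, σ i = u) ∧ (∃ j, σ j = v)
    · obtain ⟨⟨a, ha⟩, ⟨b, hb⟩⟩ := h
      have hab : a ≠ b := by
        rintro rfl
        exact huv (ha.symm.trans hb)
      have key : ∀ i j : Fin 3, i ≠ j → σ i + σ j = u + v → (σ i = u ∨ σ i = v) → t i ≤ t j →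
          ∃ σ' ∈ Pool.Agent.TD47.starSub F u v, ∃ t' : Fin 3 → ℝ, (∀ j, 0 ≤ t' j) ∧
            comb σ' t' = x := by
        intro i j hij hs hi hle
        refine ⟨Function.update σ i (u + v), ?_, Function.update t j (t j - t i), ?_, ?_⟩
        · rw [mem_starSub]
          exact Or.inr ⟨σ, hσ, ⟨a, ha⟩, ⟨b, hb⟩, i, hi, rfl⟩
        · intro k
          by_cases hk : k = j
          · rw [hk, Function.update_self]; linarith
          · rw [Function.update_of_ne hk]; exact ht k
        · rw [← hs, comb_child σ _ i j hij, ← hx]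
          congr 1
          rw [Function.update_of_ne hij, Function.update_self, Function.update_idem]
          have : t i + (t j - t i) = t j := by ring
          rw [this, Function.update_eq_self]
      rcases le_total (t a) (t b) with hle | hle
      · exact key a b hab (by rw [ha, hb]) (Or.inl ha) hle
      · exact key b a hab.symm (by rw [ha, hb, add_comm]) (Or.inr hb) hle
    · exact ⟨σ, mem_starSub.2 (Or.inl ⟨hσ, h⟩), t, ht, hx⟩
  · intro τ1 h1 τ2 h2 s t hs ht hcomb
    obtain ⟨hd1, σ1, hσ1, s', hs', c1, a1, a2, a3, a4⟩ := parent hF huv hex h1 hs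
    obtain ⟨hd2, σ2, hσ2, t', ht', c2, b1, b2, b3, b4⟩ := parent hF huv hex h2 ht
    have hcf := face_cf hF hσ1 hσ2 hs' ht' (by rw [c1, c2]; exact hcomb)
    have i1 : Function.Injective τ1 := inj_of_det (by rcases hd1 with h | h <;> rw [h] <;> decide)
    have i2 : Function.Injective τ2 := inj_of_det (by rcases hd2 with h | h <;> rw [h] <;> decide)
    intro j hj
    apply face_of_cf i1 i2 _ j hj
    intro r
    by_cases r1 : r = u + v
    · rw [r1, a1, b1, hcf, hcf]
    · by_cases r2 : r = u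
      · rw [r2, a2, b2, hcf, hcf]
      · by_cases r3 : r = v
        · rw [r3, a3, b3, hcf, hcf]
        · rw [a4 r r2 r3 r1, b4 r r2 r3 r1, hcf]

theorem IsFan.reach {F F' : Finset Cone3} (hF : IsFan F) (h : Reach F F') : IsFan F' := by
  induction h with
  | base => exact hF
  | step F' u v _ huv hex ih => exact ih.starSub huv hex

end Pool.Agent.TD47
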