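import Mathlib

/-!
# Desingularization of torus-invariant quasi-psh functions on toric threefolds: definitions
-/

open scoped Topology

namespace Pool.Agent.TD47

/-- `u` is plurisubharmonic on `ℂ³` (the function `-∞` is allowed): upper semicontinuous,
never `+∞`, and along every analytic disc (holomorphic on a neighbourhood of the closed unit disc)
it is dominated inside the disc by the real part of a holomorphic function that dominates it on
the boundary circle. -/
def IsPsh (u : (Fin 3 → ℂ) → EReal) : Prop :=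
  UpperSemicontinuous u ∧ (∀ z, u z ≠ ⊤) ∧
    ∀ (g : ℂ → Fin 3 → ℂ) (p : ℂ → ℂ),
      AnalyticOnNhd ℂ g (Metric.closedBall 0 1) → AnalyticOnNhd ℂ p (Metric.closedBall 0 1) →
      (∀ t : ℂ, ‖t‖ = 1 → u (g t) ≤ (((p t).re : ℝ) : EReal)) →
      ∀ t : ℂ, ‖t‖ ≤ 1 → u (g t) ≤ (((p t).re : ℝ) : EReal)

/-- The Lelong number of `u` at `x`: the supremum of all `γ ≥ 0` such that
`u z ≤ γ log |z - x| + O(1)` near `x`. -/
noncomputable def lelong (u : (Fin 3 → ℂ) → EReal) (x : Fin 3 → ℂ) : EReal :=
  ⨆ (γ : ℝ) (_ : 0 ≤ γ ∧ ∃ A : ℝ, ∀ᶠ z in 𝓝[≠] x,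
    u z ≤ ((γ * Real.log ‖z - x‖ + A : ℝ) : EReal)), (γ : EReal)

/-- A three-dimensional simplicial cone in `ℝ³` with integral rays `σ 0, σ 1, σ 2`. -/
abbrev Cone3 := Fin 3 → Fin 3 → ℤ

/-- The point `∑ t_j σ_j` of `ℝ³`. -/
def comb (σ : Cone3) (t : Fin 3 → ℝ) : Fin 3 → ℝ := fun i => ∑ j, t j * (σ j i : ℝ)

/-- `F` is the set of maximal cones of a smooth complete fan in `ℤ³`: the rays of each cone are a
basis of `ℤ³`, the cones cover `ℝ³`, and any two cones meet in a common face. Such fans describe
the compact toric threefolds `X` (compact toric manifolds of dimension three). -/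
structure IsFan (F : Finset Cone3) : Prop where
  unimod : ∀ σ ∈ F, Matrix.det (Matrix.of σ) = 1 ∨ Matrix.det (Matrix.of σ) = -1
  complete : ∀ x : Fin 3 → ℝ, ∃ σ ∈ F, ∃ t : Fin 3 → ℝ, (∀ j, 0 ≤ t j) ∧ comb σ t = x
  face : ∀ σ ∈ F, ∀ τ ∈ F, ∀ s t : Fin 3 → ℝ, (∀ j, 0 ≤ s j) → (∀ j, 0 ≤ t j) →
    comb σ s = comb τ t → ∀ j, s j ≠ 0 → ∃ k, σ j = τ k ∧ s j = t k

/-- Star subdivision of the fan `F` at the two-dimensional cone spanned by `u, v`: every cone
having both as rays is replaced by the two cones in which `u`, respectively `v`, is replaced by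
`u + v`. This is the blow-up of the toric threefold along the smooth curve `E_u ∩ E_v`. -/
def starSub (F : Finset Cone3) (u v : Fin 3 → ℤ) : Finset Cone3 :=
  F.biUnion (fun σ =>
    if (∃ i, σ i = u) ∧ (∃ j, σ j = v) then
      (Finset.univ.filter (fun i => σ i = u ∨ σ i = v)).image
        (fun i => Function.update σ i (u + v))
    else {σ})

/-- `Reach F F'`: the fan `F'` is obtained from `F` by finitely many star subdivisions at
two-dimensional cones, i.e. the toric threefold of `F'` is obtained from that of `F` by finitely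
many blow-ups along smooth (torus-invariant) curves. -/
inductive Reach (F : Finset Cone3) : Finset Cone3 → Prop
  | base : Reach F F
  | step (F' : Finset Cone3) (u v : Fin 3 → ℤ) : Reach F F' → u ≠ v →
      (∃ σ ∈ F', (∃ i, σ i = u) ∧ (∃ j, σ j = v)) → Reach F (starSub F' u v)

/-- The vector of the numbers log |y_0|, log |y_1|, log |y_2|. -/
noncomputable def logc (y : Fin 3 → ℂ) : Fin 3 → ℝ := fun j => Real.log ‖y j‖

/-- `u` is plurisubharmonic on `D` (used for open sets `D`; the function `-∞` is allowed): upper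
semicontinuous, never `+∞`, and along every analytic disc in `D` (holomorphic on a neighbourhood
of the closed unit disc) it is dominated inside the disc by the real part of a holomorphic
function that dominates it on the boundary circle. -/
def IsPshOn (D : Set (Fin 3 → ℂ)) (u : (Fin 3 → ℂ) → EReal) : Prop :=
  UpperSemicontinuousOn u D ∧ (∀ z ∈ D, u z ≠ ⊤) ∧
    ∀ (g : ℂ → Fin 3 → ℂ) (p : ℂ → ℂ),
      AnalyticOnNhd ℂ g (Metric.closedBall 0 1) → AnalyticOnNhd ℂ p (Metric.closedBall 0 1) →
      (∀ t : ℂ, ‖t‖ ≤ 1 → g t ∈ D) →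
      (∀ t : ℂ, ‖t‖ = 1 → u (g t) ≤ (((p t).re : ℝ) : EReal)) →
      ∀ t : ℂ, ‖t‖ ≤ 1 → u (g t) ≤ (((p t).re : ℝ) : EReal)

/-- The open polydisc of radius `r` around the origin of `ℂ³`. -/
def pd (r : ℝ) : Set (Fin 3 → ℂ) := {y | ∀ j, ‖y j‖ < r}

/-- The torus of points of `ℂ³` all of whose coordinates are nonzero: the open orbit of the toric
threefold, and the part of it in each chart. -/
def torus : Set (Fin 3 → ℂ) := {y | ∀ j, y j ≠ 0}

/-- The chart of the cone `σ` of a smooth complete fan is a copy of `ℂ³`, glued to the open orbit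
by these monomials: the point with coordinates `y` of the chart, `y j ≠ 0` for all `j`, is the
point `mon σ y` of the open orbit, which is the set of points of `ℂ³` without zero coordinate.
The polydiscs `pd r`, `1 < r`, of the charts of all cones cover the toric threefold. -/
noncomputable def mon (σ : Cone3) (y : Fin 3 → ℂ) : Fin 3 → ℂ := fun i => ∏ j, y j ^ (σ j i)

/-- `φ` (given on the open orbit) is a quasi-psh function, not identically `-∞`, on the toric
threefold of `F`: in the polydisc of radius `2` of each chart `φ + C |y|²` extends to a psh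
function. If `ω` is a hermitian form on the threefold then all `φ` with `ω + dd^c φ ≥ 0` satisfy
this with the same `C`, and every quasi-psh function satisfies this for some `C`. -/
def IsQpsh (F : Finset Cone3) (C : ℝ) (φ : (Fin 3 → ℂ) → EReal) : Prop :=
  (∃ x ∈ torus, φ x ≠ ⊥) ∧ ∀ σ ∈ F, ∃ u : (Fin 3 → ℂ) → EReal, IsPshOn (pd 2) u ∧
    ∀ y ∈ pd 2, y ∈ torus → φ (mon σ y) + ((C * ∑ j, ‖y j‖ ^ 2 : ℝ) : EReal) = u y

/-- `ψ` is invariant under the compact torus: it depends only on the absolute values of the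
coordinates of the open orbit. -/
def IsInv (ψ : (Fin 3 → ℂ) → EReal) : Prop :=
  ∀ s ∈ torus, ∀ t ∈ torus, (∀ i, ‖s i‖ = ‖t i‖) → ψ s = ψ t

end Pool.Agent.TD47
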