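import Mathlib
import Pool.Agent.TD47.Defs

/-!
# Torus-invariant psh functions are convex and increasing in logarithmic coordinates
-/

open scoped Topology

namespace Pool.Agent.TD47

/-- the cubic test polynomial -/
lemma cubic_re (t : ℂ) (ht : ‖t‖ = 1) :
    ((1 / 2 : ℂ) + 3 / 2 * t + 3 / 2 * t ^ 2 + 1 / 2 * t ^ 3).re =
      (2 * t.re - 1) * (1 + t.re) ^ 2 := by
  have h1 : t.re ^ 2 + t.im ^ 2 = 1 := by
    have h := Complex.sq_norm t
    rw [ht, Complex.normSq_apply] at h
    nlinarith [h]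
  have h2 : ((1 / 2 : ℂ) + 3 / 2 * t + 3 / 2 * t ^ 2 + 1 / 2 * t ^ 3).re =
      1 / 2 + 3 / 2 * t.re + 3 / 2 * (t.re ^ 2 - t.im ^ 2) +
        1 / 2 * (t.re ^ 3 - 3 * t.re * t.im ^ 2) := by
    have e1 : (1 / 2 : ℂ) = ((1 / 2 : ℝ) : ℂ) := by push_cast; rfl
    have e2 : (3 / 2 : ℂ) = ((3 / 2 : ℝ) : ℂ) := by push_cast; rfl
    rw [e1, e2, Complex.add_re, Complex.add_re, Complex.add_re, Complex.re_ofReal_mul,
      Complex.re_ofReal_mul, Complex.re_ofReal_mul, Complex.ofReal_re]
    simp only [pow_succ, pow_zero, one_mul, Complex.mul_re, Complex.mul_im]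
    ring
  rw [h2]
  have h3 : t.im ^ 2 = 1 - t.re ^ 2 := by linarith
  rw [h3]
  ring

/-- the one-dimensional statement -/
lemma key_real (f : ℝ → ℝ) (hf : UpperSemicontinuous f) (α β B : ℝ)
    (hB : ∀ c ∈ Set.Icc (0 : ℝ) 1, B < α + β * c)
    (hsub : ∀ (c r : ℝ), 0 < r → 0 ≤ c - r → c + r ≤ 1 → ∀ p : ℂ → ℂ,
      AnalyticOnNhd ℂ p (Metric.closedBall 0 1) →
      (∀ t : ℂ, ‖t‖ = 1 → f (c + r * t.re) ≤ (p t).re) → f c ≤ max (p 0).re B)
    (h0 : f 0 ≤ α) (h1 : f 1 ≤ α + β) :
    ∀ c ∈ Set.Icc (0 : ℝ) 1, f c ≤ α + β * c := by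
  by_contra hcon
  push Not at hcon
  obtain ⟨c0, hc0, hc0'⟩ := hcon
  have hlc : Continuous (fun c : ℝ => -(α + β * c)) := by fun_prop
  have hK : UpperSemicontinuous (fun c => f c + -(α + β * c)) :=
    hf.add hlc.upperSemicontinuous
  set K : ℝ → ℝ := fun c => f c + -(α + β * c) with hKdef
  obtain ⟨a, ha, hmax⟩ := UpperSemicontinuousOn.exists_isMaxOn (s := Set.Icc (0 : ℝ) 1)
    ⟨c0, hc0⟩ isCompact_Icc (hK.upperSemicontinuousOn _)
  have hmax' : ∀ c ∈ Set.Icc (0 : ℝ) 1, K c ≤ K a := fun c hc => hmax hc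
  set m := K a with hm
  have hmpos : 0 < m := by
    have h := hmax' c0 hc0
    have h2 : 0 < K c0 := by
      rw [hKdef]
      simp only
      linarith
    linarith
  -- the largest point
  have hcl : IsClosed (K ⁻¹' Set.Ici m) := hK.isClosed_preimage m
  have hS : IsCompact (Set.Icc (0 : ℝ) 1 ∩ K ⁻¹' Set.Ici m) := isCompact_Icc.inter_right hcl
  obtain ⟨c, hcS, hcmax⟩ := hS.exists_isGreatest ⟨a, ha, le_refl m⟩
  obtain ⟨hcI, hcm⟩ := hcS
  have hcm' : m ≤ K c := hcm
  have hcK : K c = m := le_antisymm (hmax' c hcI) hcm'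
  have hc0lt : 0 < c := by
    rcases lt_or_eq_of_le hcI.1 with h | h
    · exact h
    · exfalso
      rw [← h, hKdef] at hcm'
      simp only [mul_zero, add_zero] at hcm'
      linarith
  have hc1lt : c < 1 := by
    rcases lt_or_eq_of_le hcI.2 with h | h
    · exact h
    · exfalso
      rw [h, hKdef] at hcm'
      simp only [mul_one] at hcm'
      linarith
  obtain ⟨r, hr, hr1, hr2⟩ : ∃ r : ℝ, 0 < r ∧ 0 ≤ c - r ∧ c + r ≤ 1 :=
    ⟨min c (1 - c), lt_min hc0lt (by linarith), by linarith [min_le_left c (1 - c)],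
      by linarith [min_le_right c (1 - c)]⟩
  obtain ⟨b, hb, hbmax⟩ := UpperSemicontinuousOn.exists_isMaxOn
    (s := Set.Icc (c + r / 2) (c + r))
    ⟨c + r, by constructor <;> linarith⟩ isCompact_Icc (hK.upperSemicontinuousOn _)
  have hbmax' : ∀ x ∈ Set.Icc (c + r / 2) (c + r), K x ≤ K b := fun x hx => hbmax hx
  have hbI : b ∈ Set.Icc (0 : ℝ) 1 := ⟨by linarith [hb.1], by linarith [hb.2]⟩
  have hblt : K b < m := by
    by_contra h
    push Not at h
    have h2 := hcmax ⟨hbI, h⟩
    linarith [hb.1]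
  set η := m - K b with hη
  have hηpos : 0 < η := by linarith
  have hspec := hsub c r hr hr1 hr2
    (fun t => ((α + β * c + m : ℝ) : ℂ) + ((β * r : ℝ) : ℂ) * t -
      ((η / 4 : ℝ) : ℂ) * (1 / 2 + 3 / 2 * t + 3 / 2 * t ^ 2 + 1 / 2 * t ^ 3)) ?_ ?_
  · have e0 : (((α + β * c + m : ℝ) : ℂ) + ((β * r : ℝ) : ℂ) * 0 -
      ((η / 4 : ℝ) : ℂ) * (1 / 2 + 3 / 2 * 0 + 3 / 2 * 0 ^ 2 + 1 / 2 * 0 ^ 3)).re =
        α + β * c + m - η / 8 := by
      have e1 : (((α + β * c + m : ℝ) : ℂ) + ((β * r : ℝ) : ℂ) * 0 -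
        ((η / 4 : ℝ) : ℂ) * (1 / 2 + 3 / 2 * 0 + 3 / 2 * 0 ^ 2 + 1 / 2 * 0 ^ 3)) =
        ((α + β * c + m - η / 8 : ℝ) : ℂ) := by
        push_cast
        ring
      rw [e1, Complex.ofReal_re]
    have h3 : f c = α + β * c + m := by
      have : K c = f c + -(α + β * c) := rfl
      linarith
    rw [e0, h3] at hspec
    rcases le_max_iff.mp hspec with h | h
    · linarith
    · have := hB c hcI
      linarith
  · intro t _
    fun_prop
  · intro t ht
    have hre : |t.re| ≤ 1 := by
      rw [← ht]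
      exact Complex.abs_re_le_norm t
    have hre' := abs_le.mp hre
    have e2 : (((α + β * c + m : ℝ) : ℂ) + ((β * r : ℝ) : ℂ) * t -
      ((η / 4 : ℝ) : ℂ) * (1 / 2 + 3 / 2 * t + 3 / 2 * t ^ 2 + 1 / 2 * t ^ 3)).re =
        α + β * c + m + β * r * t.re - η / 4 * ((2 * t.re - 1) * (1 + t.re) ^ 2) := by
      rw [Complex.sub_re, Complex.add_re, Complex.re_ofReal_mul, Complex.re_ofReal_mul,
        Complex.ofReal_re, cubic_re t ht]
    rw [e2]
    have hxI : c + r * t.re ∈ Set.Icc (0 : ℝ) 1 := by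
      constructor <;> nlinarith [hre'.1, hre'.2]
    have hKx : K (c + r * t.re) = f (c + r * t.re) + -(α + β * (c + r * t.re)) := rfl
    rcases le_total t.re (1 / 2) with h | h
    · have h4 := hmax' _ hxI
      have h5 : (2 * t.re - 1) * (1 + t.re) ^ 2 ≤ 0 :=
        mul_nonpos_of_nonpos_of_nonneg (by linarith) (sq_nonneg _)
      nlinarith [h4, h5]
    · have h4 := hbmax' (c + r * t.re) ⟨by nlinarith, by nlinarith [hre'.2]⟩
      have h5 : (2 * t.re - 1) * (1 + t.re) ^ 2 ≤ 4 := by
        nlinarith [hre'.2, hre'.1, mul_nonneg (sub_nonneg.mpr h) (sub_nonneg.mpr hre'.2),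
          sq_nonneg (t.re - 1), sq_nonneg (t.re + 1)]
      nlinarith [h4, h5]

lemma le_of_real {a b : EReal} (hb : b ≠ ⊤) (h : ∀ c : ℝ, b ≤ (c : EReal) → a ≤ (c : EReal)) :
    a ≤ b := by
  induction b using EReal.rec with
  | bot =>
    by_contra hlt
    push Not at hlt
    obtain ⟨q, hq1, hq2⟩ := EReal.lt_iff_exists_real_btwn.mp hlt
    exact absurd (h q bot_le) (not_le.mpr hq2)
  | coe x => exact h x le_rfl
  | top => exact absurd rfl hb

section

variable {u : (Fin 3 → ℂ) → EReal} (hu : IsPsh u) {U : (Fin 3 → ℝ) → EReal}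
    (hU : ∀ y : Fin 3 → ℂ, (∀ j, y j ≠ 0) → u y = U (logc y))

include hU in
lemma U_eq (x : Fin 3 → ℝ) : u (fun j => Complex.exp ((x j : ℝ) : ℂ)) = U x := by
  rw [hU _ (fun j => Complex.exp_ne_zero _)]
  congr 1
  funext j
  rw [logc, Complex.norm_exp, Real.log_exp, Complex.ofReal_re]

include hu hU

lemma U_ne_top (x : Fin 3 → ℝ) : U x ≠ ⊤ := by
  rw [← U_eq hU x]
  exact hu.2.1 _

lemma mono_one (x : Fin 3 → ℝ) (i : Fin 3) (s : ℝ) (hs : 0 ≤ s) :
    U x ≤ U (Function.update x i (x i + s)) := by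
  refine le_of_real (U_ne_top hu hU _) fun c hc => ?_
  have h := hu.2.2 (fun t => Function.update (fun j => Complex.exp ((x j : ℝ) : ℂ)) i
    (Complex.exp ((x i + s : ℝ) : ℂ) * t)) (fun _ => ((c : ℝ) : ℂ)) ?_ ?_ ?_
    (Complex.exp ((-s : ℝ) : ℂ)) ?_
  · have e : Function.update (fun j => Complex.exp ((x j : ℝ) : ℂ)) i
        (Complex.exp ((x i + s : ℝ) : ℂ) * Complex.exp ((-s : ℝ) : ℂ)) =
        fun j => Complex.exp ((x j : ℝ) : ℂ) := by
      rw [← Complex.exp_add, ← Complex.ofReal_add, add_neg_cancel_right]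
      exact Function.update_eq_self i _
    rw [e, U_eq hU, Complex.ofReal_re] at h
    exact h
  · intro t _
    rw [analyticAt_pi_iff]
    intro j
    by_cases hj : j = i
    · subst hj
      simp only [Function.update_self]
      fun_prop
    · simp only [Function.update_of_ne hj]
      fun_prop
  · intro t _
    fun_prop
  · intro t ht
    have ht0 : t ≠ 0 := by
      intro h0
      rw [h0, norm_zero] at ht
      exact zero_ne_one ht
    rw [hU _ ?_]
    · have e : logc (Function.update (fun j => Complex.exp ((x j : ℝ) : ℂ)) i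
          (Complex.exp ((x i + s : ℝ) : ℂ) * t)) = Function.update x i (x i + s) := by
        funext j
        rw [logc]
        by_cases hj : j = i
        · subst hj
          rw [Function.update_self, Function.update_self, norm_mul, ht, mul_one,
            Complex.norm_exp, Real.log_exp, Complex.ofReal_re]
        · rw [Function.update_of_ne hj, Function.update_of_ne hj, Complex.norm_exp,
            Real.log_exp, Complex.ofReal_re]
      rw [e, Complex.ofReal_re]
      exact hc
    · intro j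
      by_cases hj : j = i
      · subst hj
        rw [Function.update_self]
        exact mul_ne_zero (Complex.exp_ne_zero _) ht0
      · rw [Function.update_of_ne hj]
        exact Complex.exp_ne_zero _
  · rw [Complex.norm_exp, Complex.ofReal_re]
    exact Real.exp_le_one_iff.mpr (by linarith)

lemma U_mono : Monotone U := by
  intro x y hxy
  have h0 := mono_one hu hU x 0 (y 0 - x 0) (sub_nonneg.mpr (hxy 0))
  set x1 := Function.update x 0 (x 0 + (y 0 - x 0)) with hx1
  have e1 : x1 1 = x 1 := by rw [hx1]; exact Function.update_of_ne (by decide) _ _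
  have h1 := mono_one hu hU x1 1 (y 1 - x1 1) (sub_nonneg.mpr (by rw [e1]; exact hxy 1))
  set x2 := Function.update x1 1 (x1 1 + (y 1 - x1 1)) with hx2
  have e2 : x2 2 = x 2 := by
    rw [hx2, Function.update_of_ne (by decide), hx1]
    exact Function.update_of_ne (by decide) _ _
  have h2 := mono_one hu hU x2 2 (y 2 - x2 2) (sub_nonneg.mpr (by rw [e2]; exact hxy 2))
  have e : Function.update x2 2 (x2 2 + (y 2 - x2 2)) = y := by
    funext j
    fin_cases j
    · show Function.update x2 2 _ 0 = y 0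
      rw [Function.update_of_ne (by decide), hx2, Function.update_of_ne (by decide), hx1,
        Function.update_self]
      ring
    · show Function.update x2 2 _ 1 = y 1
      rw [Function.update_of_ne (by decide), hx2, Function.update_self]
      ring
    · show Function.update x2 2 _ 2 = y 2
      rw [Function.update_self]
      ring
  rw [e] at h2
  exact h0.trans (h1.trans h2)

lemma U_seg (x d : Fin 3 → ℝ) (α β : ℝ) (h0 : U x ≤ (α : EReal))
    (h1 : U (fun j => x j + d j) ≤ ((α + β : ℝ) : EReal)) (c : ℝ) (hc : c ∈ Set.Icc (0 : ℝ) 1) :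
    U (fun j => x j + c * d j) ≤ ((α + β * c : ℝ) : EReal) := by
  set B : ℝ := min α (α + β) - 1 with hBdef
  have hB1 : B < α := by
    have := min_le_left α (α + β)
    linarith
  have hB2 : B < α + β := by
    have := min_le_right α (α + β)
    linarith
  set h : ℝ → EReal := fun c => U (fun j => x j + c * d j) with hh
  set f : ℝ → ℝ := fun c => (max (h c) (B : EReal)).toReal with hf
  have hfc : ∀ c, ((f c : ℝ) : EReal) = max (h c) (B : EReal) := by
    intro c
    refine EReal.coe_toReal ?_ ?_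
    · intro h5
      rcases max_eq_top.mp h5 with h6 | h6
      · exact U_ne_top hu hU _ h6
      · exact EReal.coe_ne_top _ h6
    · intro h5
      exact EReal.coe_ne_bot _ (max_eq_bot.mp h5).2
  have husc : UpperSemicontinuous h := by
    have h5 : h = fun c => u (fun j => Complex.exp ((x j + c * d j : ℝ) : ℂ)) := by
      funext c
      exact (U_eq hU _).symm
    rw [h5]
    refine hu.1.comp ?_
    fun_prop
  have hfusc : UpperSemicontinuous f := by
    intro c y hy
    have hy' : max (h c) (B : EReal) < (y : EReal) := by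
      rw [← hfc]
      exact EReal.coe_lt_coe_iff.mpr hy
    have h6 := husc c (y : EReal) (max_lt_iff.mp hy').1
    filter_upwards [h6] with c' h7
    have h8 : ((f c' : ℝ) : EReal) < (y : EReal) := by
      rw [hfc]
      exact max_lt h7 (max_lt_iff.mp hy').2
    exact EReal.coe_lt_coe_iff.mp h8
  have key := key_real f hfusc α β B ?_ ?_ ?_ ?_ c hc
  · refine le_trans (le_max_left _ (B : EReal)) ?_
    rw [← hfc]
    exact EReal.coe_le_coe_iff.mpr key
  · intro c hc
    rcases le_total 0 β with hβ | hβ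
    · have := mul_nonneg hβ hc.1
      linarith
    · have := mul_nonneg (neg_nonneg.mpr hβ) (sub_nonneg.mpr hc.2)
      linarith
  · intro c r hr hr1 hr2 p hp hpt
    have h9 := hu.2.2 (fun t j => Complex.exp (((x j + c * d j : ℝ) : ℂ) +
      ((r * d j : ℝ) : ℂ) * t)) p ?_ hp ?_ 0 (by simp)
    · have e : (fun j => Complex.exp (((x j + c * d j : ℝ) : ℂ) + ((r * d j : ℝ) : ℂ) * 0)) =
          fun j => Complex.exp ((x j + c * d j : ℝ) : ℂ) := by
        funext j
        rw [mul_zero, add_zero]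
      rw [e, U_eq hU (fun j => x j + c * d j)] at h9
      have h10 : ((f c : ℝ) : EReal) ≤ ((max (p 0).re B : ℝ) : EReal) := by
        rw [hfc]
        refine max_le (h9.trans ?_) ?_
        · exact EReal.coe_le_coe_iff.mpr (le_max_left _ _)
        · exact EReal.coe_le_coe_iff.mpr (le_max_right _ _)
      exact EReal.coe_le_coe_iff.mp h10
    · intro t _
      rw [analyticAt_pi_iff]
      intro j
      fun_prop
    · intro t ht
      rw [hU _ (fun j => Complex.exp_ne_zero _)]
      have e : logc (fun j => Complex.exp (((x j + c * d j : ℝ) : ℂ) +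
          ((r * d j : ℝ) : ℂ) * t)) = fun j => x j + (c + r * t.re) * d j := by
        funext j
        rw [logc, Complex.norm_exp, Real.log_exp, Complex.add_re, Complex.ofReal_re,
          Complex.re_ofReal_mul]
        ring
      rw [e]
      refine le_trans ?_ (EReal.coe_le_coe_iff.mpr (hpt t ht))
      rw [hfc]
      exact le_max_left _ _
  · have h5 : ((f 0 : ℝ) : EReal) ≤ (α : EReal) := by
      rw [hfc]
      refine max_le ?_ (EReal.coe_le_coe_iff.mpr hB1.le)
      rw [hh]
      simp only [zero_mul, add_zero]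
      exact h0
    exact EReal.coe_le_coe_iff.mp h5
  · have h5 : ((f 1 : ℝ) : EReal) ≤ ((α + β : ℝ) : EReal) := by
      rw [hfc]
      refine max_le ?_ (EReal.coe_le_coe_iff.mpr hB2.le)
      rw [hh]
      simp only [one_mul]
      exact h1
    exact EReal.coe_le_coe_iff.mp h5

lemma U_ne_bot (hne : ∃ x, U x ≠ ⊥) (x : Fin 3 → ℝ) : U x ≠ ⊥ := by
  intro hx
  obtain ⟨x0, hx0⟩ := hne
  -- the reflected point
  set d : Fin 3 → ℝ := fun j => 2 * (x0 j - x j) with hd
  have htop := U_ne_top hu hU (fun j => x j + d j)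
  obtain ⟨M, hM⟩ : ∃ M : ℝ, U (fun j => x j + d j) ≤ (M : EReal) := by
    rcases EReal.lt_iff_exists_real_btwn.mp (lt_top_iff_ne_top.mpr htop) with ⟨q, hq, -⟩
    exact ⟨q, hq.le⟩
  apply hx0
  have e : (fun j => x j + (1 / 2 : ℝ) * d j) = x0 := by
    funext j
    rw [hd]
    ring
  rw [← le_bot_iff]
  refine le_of_real bot_ne_top fun c _ => ?_
  have h := U_seg hu hU x d (2 * c - M) (2 * (M - c)) (by rw [hx]; exact bot_le)
    (by
      have : 2 * c - M + 2 * (M - c) = M := by ring
      rw [this]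
      exact hM) (1 / 2) (by constructor <;> norm_num)
  rw [e] at h
  have e2 : 2 * c - M + 2 * (M - c) * (1 / 2) = c := by ring
  rw [e2] at h
  exact h

end

/-- A psh function on `ℂ³` which depends only on the absolute values of the coordinates is a
convex increasing function of their logarithms. -/
theorem psh_inv (u : (Fin 3 → ℂ) → EReal) (hu : IsPsh u) (U : (Fin 3 → ℝ) → EReal)
    (hU : ∀ y : Fin 3 → ℂ, (∀ j, y j ≠ 0) → u y = U (logc y)) (hne : ∃ x, U x ≠ ⊥) :
    ∃ G : (Fin 3 → ℝ) → ℝ, ConvexOn ℝ Set.univ G ∧ Monotone G ∧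
      ∀ x, U x = ((G x : ℝ) : EReal) := by
  have hG : ∀ x, U x = (((U x).toReal : ℝ) : EReal) := fun x =>
    (EReal.coe_toReal (U_ne_top hu hU x) (U_ne_bot hu hU hne x)).symm
  refine ⟨fun x => (U x).toReal, ⟨convex_univ, ?_⟩, ?_, hG⟩
  · intro x _ y _ a b ha hb hab
    have h := U_seg hu hU x (fun j => y j - x j) (U x).toReal
      ((U y).toReal - (U x).toReal) (by rw [← hG]) (by
        have e : (fun j => x j + (y j - x j)) = y := by
          funext j
          ring
        rw [e, add_sub_cancel, ← hG]) b ⟨hb, by linarith⟩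
    have e : (fun j => x j + b * (y j - x j)) = a • x + b • y := by
      funext j
      have : a = 1 - b := by linarith
      rw [Pi.add_apply, Pi.smul_apply, Pi.smul_apply, smul_eq_mul, smul_eq_mul, this]
      ring
    rw [e, hG] at h
    have h2 := EReal.coe_le_coe_iff.mp h
    simp only [smul_eq_mul]
    have h3 : a * (U x).toReal = (U x).toReal - b * (U x).toReal := by
      have : a = 1 - b := by linarith
      rw [this]
      ring
    rw [h3]
    linarith
  · intro x y hxy
    have h := U_mono hu hU hxy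
    rw [hG x, hG y] at h
    exact EReal.coe_le_coe_iff.mp h

end Pool.Agent.TD47
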