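import Mathlib
import Pool.Agent.TD47.Defs
import Pool.Agent.TD47.PshInv

/-!
# Torus-invariant psh functions on a polydisc
-/

open scoped Topology

namespace Pool.Agent.TD47

/-- the logarithmic image of the polydisc of radius two -/
def LogReg : Set (Fin 3 → ℝ) := {x | ∀ j, x j < Real.log 2}

lemma exp_lt_two {a : ℝ} (ha : a < Real.log 2) : Real.exp a < 2 := by
  rw [← Real.exp_log (show (0 : ℝ) < 2 by norm_num)]
  exact Real.exp_lt_exp.mpr ha

lemma expo_mem {x : Fin 3 → ℝ} (hx : x ∈ LogReg) :
    (fun j => Complex.exp ((x j : ℝ) : ℂ)) ∈ pd 2 := by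
  intro j
  rw [Complex.norm_exp, Complex.ofReal_re]
  exact exp_lt_two (hx j)

lemma seg_mem {x d : Fin 3 → ℝ} (hx : x ∈ LogReg) (hxd : (fun j => x j + d j) ∈ LogReg) {c : ℝ}
    (hc : c ∈ Set.Icc (0 : ℝ) 1) : (fun j => x j + c * d j) ∈ LogReg := by
  intro j
  have h1 : x j < Real.log 2 := hx j
  have h2 : x j + d j < Real.log 2 := hxd j
  rcases le_total (d j) 0 with h | h
  · have := mul_nonpos_of_nonneg_of_nonpos hc.1 h
    show x j + c * d j < Real.log 2
    linarith
  · have := mul_le_mul_of_nonneg_right hc.2 h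
    show x j + c * d j < Real.log 2
    linarith

section

variable {u : (Fin 3 → ℂ) → EReal} (hu : IsPshOn (pd 2) u) {U : (Fin 3 → ℝ) → EReal}
    (hU : ∀ y ∈ pd 2, (∀ j, y j ≠ 0) → u y = U (logc y))

include hU in
lemma U_eqP {x : Fin 3 → ℝ} (hx : x ∈ LogReg) :
    u (fun j => Complex.exp ((x j : ℝ) : ℂ)) = U x := by
  rw [hU _ (expo_mem hx) (fun j => Complex.exp_ne_zero _)]
  congr 1
  funext j
  rw [logc, Complex.norm_exp, Real.log_exp, Complex.ofReal_re]

include hu hU

lemma U_ne_topP {x : Fin 3 → ℝ} (hx : x ∈ LogReg) : U x ≠ ⊤ := by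
  rw [← U_eqP hU hx]
  exact hu.2.1 _ (expo_mem hx)

lemma mono_oneP (x : Fin 3 → ℝ) (i : Fin 3) (s : ℝ) (hs : 0 ≤ s)
    (hx : Function.update x i (x i + s) ∈ LogReg) :
    U x ≤ U (Function.update x i (x i + s)) := by
  have hx' : ∀ j, j ≠ i → x j < Real.log 2 := by
    intro j hj
    have h := hx j
    rwa [Function.update_of_ne hj] at h
  have hxi : x i + s < Real.log 2 := by
    have h := hx i
    rwa [Function.update_self] at h
  have hxR : x ∈ LogReg := by
    intro j
    by_cases hj : j = i
    · subst hj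
      linarith
    · exact hx' j hj
  refine le_of_real (U_ne_topP hu hU hx) fun c hc => ?_
  have h := hu.2.2 (fun t => Function.update (fun j => Complex.exp ((x j : ℝ) : ℂ)) i
    (Complex.exp ((x i + s : ℝ) : ℂ) * t)) (fun _ => ((c : ℝ) : ℂ)) ?_ ?_ ?_ ?_
    (Complex.exp ((-s : ℝ) : ℂ)) ?_
  · have e : Function.update (fun j => Complex.exp ((x j : ℝ) : ℂ)) i
        (Complex.exp ((x i + s : ℝ) : ℂ) * Complex.exp ((-s : ℝ) : ℂ)) =
        fun j => Complex.exp ((x j : ℝ) : ℂ) := by
      rw [← Complex.exp_add, ← Complex.ofReal_add, add_neg_cancel_right]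
      exact Function.update_eq_self i _
    rw [e, U_eqP hU hxR, Complex.ofReal_re] at h
    exact h
  · intro t _
    rw [analyticAt_pi_iff]
    intro j
    by_cases hj : j = i
    · subst hj
      simp only [Function.update_self]
      fun_prop
    · simp only [Function.update_of_ne hj]
      fun_prop
  · intro t _
    fun_prop
  · intro t ht j
    by_cases hj : j = i
    · subst hj
      rw [Function.update_self, norm_mul, Complex.norm_exp, Complex.ofReal_re]
      have h1 := exp_lt_two hxi
      have h2 := Real.exp_pos (x j + s)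
      nlinarith [norm_nonneg t]
    · rw [Function.update_of_ne hj, Complex.norm_exp, Complex.ofReal_re]
      exact exp_lt_two (hx' j hj)
  · intro t ht
    have ht0 : t ≠ 0 := by
      intro h0
      rw [h0, norm_zero] at ht
      exact zero_ne_one ht
    rw [hU _ ?_ ?_]
    · have e : logc (Function.update (fun j => Complex.exp ((x j : ℝ) : ℂ)) i
          (Complex.exp ((x i + s : ℝ) : ℂ) * t)) = Function.update x i (x i + s) := by
        funext j
        rw [logc]
        by_cases hj : j = i
        · subst hj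
          rw [Function.update_self, Function.update_self, norm_mul, ht, mul_one,
            Complex.norm_exp, Real.log_exp, Complex.ofReal_re]
        · rw [Function.update_of_ne hj, Function.update_of_ne hj, Complex.norm_exp,
            Real.log_exp, Complex.ofReal_re]
      rw [e, Complex.ofReal_re]
      exact hc
    · intro j
      by_cases hj : j = i
      · subst hj
        rw [Function.update_self, norm_mul, ht, mul_one, Complex.norm_exp, Complex.ofReal_re]
        exact exp_lt_two hxi
      · rw [Function.update_of_ne hj, Complex.norm_exp, Complex.ofReal_re]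
        exact exp_lt_two (hx' j hj)
    · intro j
      by_cases hj : j = i
      · subst hj
        rw [Function.update_self]
        exact mul_ne_zero (Complex.exp_ne_zero _) ht0
      · rw [Function.update_of_ne hj]
        exact Complex.exp_ne_zero _
  · rw [Complex.norm_exp, Complex.ofReal_re]
    exact Real.exp_le_one_iff.mpr (by linarith)

lemma U_monoP : MonotoneOn U LogReg := by
  intro x hx y hy hxy
  have hle : ∀ z : Fin 3 → ℝ, (∀ j, z j ≤ y j) → z ∈ LogReg := fun z hz j =>
    lt_of_le_of_lt (hz j) (hy j)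
  have hup : ∀ (z : Fin 3 → ℝ) (i : Fin 3), (∀ j, z j ≤ y j) →
      ∀ j, Function.update z i (z i + (y i - z i)) j ≤ y j := by
    intro z i hz j
    by_cases hj : j = i
    · subst hj
      rw [Function.update_self]
      linarith
    · rw [Function.update_of_ne hj]
      exact hz j
  have hx0 : ∀ j, x j ≤ y j := hxy
  have h0 := mono_oneP hu hU x 0 (y 0 - x 0) (sub_nonneg.mpr (hxy 0)) (hle _ (hup x 0 hx0))
  have hx1' := hup x 0 hx0
  set x1 := Function.update x 0 (x 0 + (y 0 - x 0)) with hx1
  have e1 : x1 1 = x 1 := by rw [hx1]; exact Function.update_of_ne (by decide) _ _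
  have h1 := mono_oneP hu hU x1 1 (y 1 - x1 1) (sub_nonneg.mpr (by rw [e1]; exact hxy 1))
    (hle _ (hup x1 1 hx1'))
  have hx2' := hup x1 1 hx1'
  set x2 := Function.update x1 1 (x1 1 + (y 1 - x1 1)) with hx2
  have e2 : x2 2 = x 2 := by
    rw [hx2, Function.update_of_ne (by decide), hx1]
    exact Function.update_of_ne (by decide) _ _
  have h2 := mono_oneP hu hU x2 2 (y 2 - x2 2) (sub_nonneg.mpr (by rw [e2]; exact hxy 2))
    (hle _ (hup x2 2 hx2'))
  have e : Function.update x2 2 (x2 2 + (y 2 - x2 2)) = y := by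
    funext j
    fin_cases j
    · show Function.update x2 2 _ 0 = y 0
      rw [Function.update_of_ne (by decide), hx2, Function.update_of_ne (by decide), hx1,
        Function.update_self]
      ring
    · show Function.update x2 2 _ 1 = y 1
      rw [Function.update_of_ne (by decide), hx2, Function.update_self]
      ring
    · show Function.update x2 2 _ 2 = y 2
      rw [Function.update_self]
      ring
  rw [e] at h2
  exact h0.trans (h1.trans h2)

lemma U_segP (x d : Fin 3 → ℝ) (hx : x ∈ LogReg) (hxd : (fun j => x j + d j) ∈ LogReg) (α β : ℝ)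
    (h0 : U x ≤ (α : EReal))
    (h1 : U (fun j => x j + d j) ≤ ((α + β : ℝ) : EReal)) (c : ℝ) (hc : c ∈ Set.Icc (0 : ℝ) 1) :
    U (fun j => x j + c * d j) ≤ ((α + β * c : ℝ) : EReal) := by
  set B : ℝ := min α (α + β) - 1 with hBdef
  have hB1 : B < α := by
    have := min_le_left α (α + β)
    linarith
  have hB2 : B < α + β := by
    have := min_le_right α (α + β)
    linarith
  set cl : ℝ → ℝ := fun c => max 0 (min c 1) with hcl
  have hclI : ∀ c, cl c ∈ Set.Icc (0 : ℝ) 1 := fun c =>
    ⟨le_max_left _ _, max_le zero_le_one (min_le_right _ _)⟩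
  have hclid : ∀ c ∈ Set.Icc (0 : ℝ) 1, cl c = c := by
    intro c hc
    rw [hcl]
    simp only
    rw [min_eq_left hc.2, max_eq_right hc.1]
  have hclc : Continuous cl := by
    rw [hcl]
    fun_prop
  have hmem : ∀ c, (fun j => x j + cl c * d j) ∈ LogReg := fun c => seg_mem hx hxd (hclI c)
  set h : ℝ → EReal := fun c => U (fun j => x j + cl c * d j) with hh
  set f : ℝ → ℝ := fun c => (max (h c) (B : EReal)).toReal with hf
  have hfc : ∀ c, ((f c : ℝ) : EReal) = max (h c) (B : EReal) := by
    intro c
    refine EReal.coe_toReal ?_ ?_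
    · intro h5
      rcases max_eq_top.mp h5 with h6 | h6
      · exact U_ne_topP hu hU (hmem c) h6
      · exact EReal.coe_ne_top _ h6
    · intro h5
      exact EReal.coe_ne_bot _ (max_eq_bot.mp h5).2
  have husc : ∀ c (y : EReal), h c < y → ∀ᶠ c' in 𝓝 c, h c' < y := by
    intro c y hy
    have h5 : ∀ c, h c = u (fun j => Complex.exp ((x j + cl c * d j : ℝ) : ℂ)) := by
      intro c
      exact (U_eqP hU (hmem c)).symm
    rw [h5] at hy
    have hcont : Continuous (fun c : ℝ => (fun j : Fin 3 =>
        Complex.exp ((x j + cl c * d j : ℝ) : ℂ))) := by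
      fun_prop
    have h6 := hu.1 _ (expo_mem (hmem c)) y hy
    have h7 : Filter.Tendsto (fun c : ℝ => (fun j : Fin 3 =>
        Complex.exp ((x j + cl c * d j : ℝ) : ℂ))) (𝓝 c)
        (𝓝[pd 2] (fun j : Fin 3 => Complex.exp ((x j + cl c * d j : ℝ) : ℂ))) := by
      rw [tendsto_nhdsWithin_iff]
      exact ⟨hcont.continuousAt, Filter.Eventually.of_forall fun c' => expo_mem (hmem c')⟩
    filter_upwards [h7.eventually h6] with c' h8
    rw [h5]
    exact h8
  have hfusc : UpperSemicontinuous f := by
    intro c y hy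
    have hy' : max (h c) (B : EReal) < (y : EReal) := by
      rw [← hfc]
      exact EReal.coe_lt_coe_iff.mpr hy
    have h6 := husc c (y : EReal) (max_lt_iff.mp hy').1
    filter_upwards [h6] with c' h7
    have h8 : ((f c' : ℝ) : EReal) < (y : EReal) := by
      rw [hfc]
      exact max_lt h7 (max_lt_iff.mp hy').2
    exact EReal.coe_lt_coe_iff.mp h8
  have key := key_real f hfusc α β B ?_ ?_ ?_ ?_ c hc
  · have h5 : h c ≤ ((α + β * c : ℝ) : EReal) := by
      refine le_trans (le_max_left _ (B : EReal)) ?_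
      rw [← hfc]
      exact EReal.coe_le_coe_iff.mpr key
    rw [hh] at h5
    simp only [hclid c hc] at h5
    exact h5
  · intro c hc
    rcases le_total 0 β with hβ | hβ
    · have := mul_nonneg hβ hc.1
      linarith
    · have := mul_nonneg (neg_nonneg.mpr hβ) (sub_nonneg.mpr hc.2)
      linarith
  · intro c r hr hr1 hr2 p hp hpt
    have hcI : c ∈ Set.Icc (0 : ℝ) 1 := ⟨by linarith, by linarith⟩
    have hrt : ∀ t : ℂ, ‖t‖ ≤ 1 → c + r * t.re ∈ Set.Icc (0 : ℝ) 1 := by
      intro t ht
      have h5 := abs_le.mp ((Complex.abs_re_le_norm t).trans ht)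
      constructor <;> nlinarith [h5.1, h5.2]
    have elog : ∀ t : ℂ, logc (fun j => Complex.exp (((x j + c * d j : ℝ) : ℂ) +
        ((r * d j : ℝ) : ℂ) * t)) = fun j => x j + (c + r * t.re) * d j := by
      intro t
      funext j
      rw [logc, Complex.norm_exp, Real.log_exp, Complex.add_re, Complex.ofReal_re,
        Complex.re_ofReal_mul]
      ring
    have hin : ∀ t : ℂ, ‖t‖ ≤ 1 → (fun j => Complex.exp (((x j + c * d j : ℝ) : ℂ) +
        ((r * d j : ℝ) : ℂ) * t)) ∈ pd 2 := by
      intro t ht j
      rw [Complex.norm_exp, Complex.add_re, Complex.ofReal_re, Complex.re_ofReal_mul]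
      have h5 := seg_mem hx hxd (hrt t ht) j
      simp only at h5
      refine exp_lt_two ?_
      calc x j + c * d j + r * d j * t.re = x j + (c + r * t.re) * d j := by ring
        _ < Real.log 2 := h5
    have h9 := hu.2.2 (fun t j => Complex.exp (((x j + c * d j : ℝ) : ℂ) +
      ((r * d j : ℝ) : ℂ) * t)) p ?_ hp hin ?_ 0 (by simp)
    · have e : (fun j => Complex.exp (((x j + c * d j : ℝ) : ℂ) + ((r * d j : ℝ) : ℂ) * 0)) =
          fun j => Complex.exp ((x j + c * d j : ℝ) : ℂ) := by
        funext j
        rw [mul_zero, add_zero]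
      have hmc : (fun j => x j + c * d j) ∈ LogReg := seg_mem hx hxd hcI
      rw [e, U_eqP hU hmc] at h9
      have h10 : ((f c : ℝ) : EReal) ≤ ((max (p 0).re B : ℝ) : EReal) := by
        rw [hfc, hh]
        simp only [hclid c hcI]
        refine max_le (h9.trans ?_) ?_
        · exact EReal.coe_le_coe_iff.mpr (le_max_left _ _)
        · exact EReal.coe_le_coe_iff.mpr (le_max_right _ _)
      exact EReal.coe_le_coe_iff.mp h10
    · intro t _
      rw [analyticAt_pi_iff]
      intro j
      fun_prop
    · intro t ht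
      rw [hU _ (hin t ht.le) (fun j => Complex.exp_ne_zero _), elog]
      refine le_trans ?_ (EReal.coe_le_coe_iff.mpr (hpt t ht))
      rw [hfc, hh]
      simp only [hclid _ (hrt t ht.le)]
      exact le_max_left _ _
  · have h5 : ((f 0 : ℝ) : EReal) ≤ (α : EReal) := by
      rw [hfc]
      refine max_le ?_ (EReal.coe_le_coe_iff.mpr hB1.le)
      rw [hh]
      simp only [hclid 0 (by simp), zero_mul, add_zero]
      exact h0
    exact EReal.coe_le_coe_iff.mp h5
  · have h5 : ((f 1 : ℝ) : EReal) ≤ ((α + β : ℝ) : EReal) := by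
      rw [hfc]
      refine max_le ?_ (EReal.coe_le_coe_iff.mpr hB2.le)
      rw [hh]
      simp only [hclid 1 (by simp), one_mul]
      exact h1
    exact EReal.coe_le_coe_iff.mp h5

lemma U_ne_botP (hne : ∃ x, x ∈ LogReg ∧ U x ≠ ⊥) {x : Fin 3 → ℝ} (hxR : x ∈ LogReg) : U x ≠ ⊥ := by
  intro hx
  obtain ⟨x0, hx0R, hx0⟩ := hne
  -- a point on the other side
  obtain ⟨s, hs, hsR⟩ : ∃ s : ℝ, 0 < s ∧ ∀ j, x0 j + s * (x0 j - x j) < Real.log 2 := by
    have h1 : ∀ᶠ s in 𝓝[>] (0 : ℝ), ∀ j, x0 j + s * (x0 j - x j) < Real.log 2 := by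
      refine Filter.eventually_all.mpr fun j => ?_
      have h2 : ContinuousAt (fun s : ℝ => x0 j + s * (x0 j - x j)) 0 := by fun_prop
      have h3 : x0 j + 0 * (x0 j - x j) < Real.log 2 := by
        rw [zero_mul, add_zero]
        exact hx0R j
      exact nhdsWithin_le_nhds (h2.eventually_lt continuousAt_const h3)
    obtain ⟨s, h2, h3⟩ := (h1.and self_mem_nhdsWithin).exists
    exact ⟨s, h3, h2⟩
  set d : Fin 3 → ℝ := fun j => (1 + s) * (x0 j - x j) with hd
  have hxd : (fun j => x j + d j) ∈ LogReg := by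
    intro j
    have h1 := hsR j
    rw [hd]
    simp only
    calc x j + (1 + s) * (x0 j - x j) = x0 j + s * (x0 j - x j) := by ring
      _ < Real.log 2 := h1
  have htop := U_ne_topP hu hU hxd
  obtain ⟨M, hM⟩ : ∃ M : ℝ, U (fun j => x j + d j) ≤ (M : EReal) := by
    rcases EReal.lt_iff_exists_real_btwn.mp (lt_top_iff_ne_top.mpr htop) with ⟨q, hq, -⟩
    exact ⟨q, hq.le⟩
  have h1s : (1 + s) ≠ 0 := by linarith
  apply hx0
  have e : (fun j => x j + (1 / (1 + s) : ℝ) * d j) = x0 := by
    funext j
    rw [hd]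
    field_simp
    ring
  rw [← le_bot_iff]
  refine le_of_real bot_ne_top fun v _ => ?_
  set α : ℝ := (v * (1 + s) - M) / s with hα
  have h := U_segP hu hU x d hxR hxd α (M - α) (by rw [hx]; exact bot_le)
    (by
      have : α + (M - α) = M := by ring
      rw [this]
      exact hM) (1 / (1 + s)) (by
        constructor
        · positivity
        · rw [div_le_one (by linarith)]
          linarith)
  rw [e] at h
  have e2 : α + (M - α) * (1 / (1 + s)) = v := by
    rw [hα]
    field_simp
    ring
  rw [e2] at h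
  exact h

end

/-- A psh function on the polydisc of radius two which depends only on the absolute values of the
coordinates is a convex increasing function of their logarithms. -/
theorem psh_inv_poly (u : (Fin 3 → ℂ) → EReal) (hu : IsPshOn (pd 2) u)
    (U : (Fin 3 → ℝ) → EReal)
    (hU : ∀ y ∈ pd 2, (∀ j, y j ≠ 0) → u y = U (logc y))
    (hne : ∃ x, (∀ j, x j < Real.log 2) ∧ U x ≠ ⊥) :
    ∃ G : (Fin 3 → ℝ) → ℝ, ConvexOn ℝ {x | ∀ j, x j < Real.log 2} G ∧
      MonotoneOn G {x | ∀ j, x j < Real.log 2} ∧
      ∀ x, (∀ j, x j < Real.log 2) → U x = ((G x : ℝ) : EReal) := by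
  have hG : ∀ x : Fin 3 → ℝ, x ∈ LogReg → U x = (((U x).toReal : ℝ) : EReal) := fun x hx =>
    (EReal.coe_toReal (U_ne_topP hu hU hx) (U_ne_botP hu hU hne hx)).symm
  have hconv : Convex ℝ LogReg := by
    intro x hx y hy a b ha hb hab
    intro j
    rw [Pi.add_apply, Pi.smul_apply, Pi.smul_apply, smul_eq_mul, smul_eq_mul]
    have h1 : x j < Real.log 2 := hx j
    have h2 : y j < Real.log 2 := hy j
    have h3 : b = 1 - a := by linarith
    rcases eq_or_lt_of_le ha with h | h
    · rw [← h, h3, ← h]
      linarith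
    · have h4 := mul_lt_mul_of_pos_left h1 h
      have h5 := mul_le_mul_of_nonneg_left h2.le hb
      have h6 : a * Real.log 2 + b * Real.log 2 = Real.log 2 := by
        rw [← add_mul, hab, one_mul]
      linarith
  refine ⟨fun x => (U x).toReal, ⟨hconv, ?_⟩, ?_, fun x hx => hG x hx⟩
  · intro x hx y hy a b ha hb hab
    have e0 : (fun j => x j + (y j - x j)) = y := by
      funext j
      ring
    have hyR : (fun j => x j + (y j - x j)) ∈ LogReg := by
      rw [e0]
      exact hy
    have h := U_segP hu hU x (fun j => y j - x j) hx hyR (U x).toReal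
      ((U y).toReal - (U x).toReal) (by rw [← hG x hx]) (by
        rw [e0, add_sub_cancel, ← hG y hy]) b ⟨hb, by linarith⟩
    have e : (fun j => x j + b * (y j - x j)) = a • x + b • y := by
      funext j
      have : a = 1 - b := by linarith
      rw [Pi.add_apply, Pi.smul_apply, Pi.smul_apply, smul_eq_mul, smul_eq_mul, this]
      ring
    rw [e, hG _ (hconv hx hy ha hb hab)] at h
    have h2 := EReal.coe_le_coe_iff.mp h
    simp only [smul_eq_mul]
    have h3 : a * (U x).toReal = (U x).toReal - b * (U x).toReal := by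
      have : a = 1 - b := by linarith
      rw [this]
      ring
    rw [h3]
    linarith
  · intro x hx y hy hxy
    have h := U_monoP hu hU hx hy hxy
    rw [hG x hx, hG y hy] at h
    exact EReal.coe_le_coe_iff.mp h

end Pool.Agent.TD47
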