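import Pool.Agent.TD47.Chart
import Pool.Agent.TD47.PshInvPoly

/-!
# Assembly
-/

open scoped Topology
open Filter

namespace Pool.Agent.TD47

lemma ereal_add_coe_eq {a : EReal} {c d : ℝ} (h : a + (c : EReal) = (d : EReal)) :
    a = ((d - c : ℝ) : EReal) := by
  induction a using EReal.rec with
  | bot => simp at h
  | top => simp at h
  | coe x =>
    rw [← EReal.coe_add, EReal.coe_eq_coe_iff] at h
    rw [EReal.coe_eq_coe_iff]
    linarith

lemma ereal_add_coe_ne_bot {a : EReal} {c : ℝ} (h : a ≠ ⊥) : a + (c : EReal) ≠ ⊥ := by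
  induction a using EReal.rec with
  | bot => exact absurd rfl h
  | top => simp
  | coe x => rw [← EReal.coe_add]; exact EReal.coe_ne_bot _

lemma exp_two_log {y : ℂ} (hy : y ≠ 0) : Real.exp (2 * Real.log ‖y‖) = ‖y‖ ^ 2 := by
  have : 0 < ‖y‖ := norm_pos_iff.mpr hy
  rw [show (2:ℝ) * Real.log ‖y‖ = Real.log ‖y‖ + Real.log ‖y‖ by ring, Real.exp_add,
    Real.exp_log this]
  ring

/-- torus-invariant quasi-psh functions in logarithmic coordinates -/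
def IsQpshL (F : Finset Cone3) (C : ℝ) (φ : (Fin 3 → ℝ) → EReal) : Prop :=
  (∃ x, φ x ≠ ⊥) ∧ ∀ σ ∈ F, ∃ u : (Fin 3 → ℂ) → EReal, IsPshOn (pd 2) u ∧
    ∀ y ∈ pd 2, (∀ j, y j ≠ 0) →
      φ (comb σ (logc y)) + ((C * ∑ j, ‖y j‖ ^ 2 : ℝ) : EReal) = u y

/-- A torus-invariant quasi-psh function is real-valued on the open orbit and convex and
increasing, up to the local potentials, in logarithmic coordinates. -/
lemma IsQpshL.real {F : Finset Cone3} (hF : IsFan F) {C : ℝ} {φ : (Fin 3 → ℝ) → EReal}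
    (hφ : IsQpshL F C φ) : ∃ f : (Fin 3 → ℝ) → ℝ, QF F C f ∧ ∀ x, φ x = ((f x : ℝ) : EReal) := by
  obtain ⟨⟨x1, hx1⟩, hφ⟩ := hφ
  have key : ∀ σ ∈ F, (∃ x, (∀ j, x j < Real.log 2) ∧ φ (comb σ x) ≠ ⊥) →
      ∃ G : (Fin 3 → ℝ) → ℝ, ConvexOn ℝ {x | ∀ j, x j < Real.log 2} G ∧
        MonotoneOn G {x | ∀ j, x j < Real.log 2} ∧
        ∀ x, (∀ j, x j < Real.log 2) →
          φ (comb σ x) + ((C * ∑ j, Real.exp (2 * x j) : ℝ) : EReal) = ((G x : ℝ) : EReal) := by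
    intro σ hσ hne
    obtain ⟨u, hu, huφ⟩ := hφ σ hσ
    obtain ⟨x, hx, hxne⟩ := hne
    refine psh_inv_poly u hu
      (fun x => φ (comb σ x) + ((C * ∑ j, Real.exp (2 * x j) : ℝ) : EReal)) ?_
      ⟨x, hx, ereal_add_coe_ne_bot hxne⟩
    intro y hy hy0
    rw [← huφ y hy hy0]
    have e : ∑ j, Real.exp (2 * logc y j) = ∑ j, ‖y j‖ ^ 2 :=
      Finset.sum_congr rfl fun j _ => by rw [logc, exp_two_log (hy0 j)]
    simp only [e]
  have hlog2 : (0:ℝ) < Real.log 2 := Real.log_pos (by norm_num)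
  have h0 : φ 0 ≠ ⊥ := by
    obtain ⟨σ, hσ, hx⟩ := cover hF x1
    obtain ⟨G, -, -, hG⟩ := key σ hσ ⟨co σ x1, fun j => lt_of_le_of_lt (hx j) hlog2, by
      rw [comb_co (hF.det_unit hσ)]; exact hx1⟩
    have h1 := ereal_add_coe_eq (hG 0 (fun j => hlog2))
    rw [comb_zero] at h1
    rw [h1]
    exact EReal.coe_ne_bot _
  have key2 : ∀ σ ∈ F, ∃ G : (Fin 3 → ℝ) → ℝ, ConvexOn ℝ {x | ∀ j, x j < Real.log 2} G ∧
        MonotoneOn G {x | ∀ j, x j < Real.log 2} ∧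
        ∀ x, (∀ j, x j < Real.log 2) →
          φ (comb σ x) + ((C * ∑ j, Real.exp (2 * x j) : ℝ) : EReal) = ((G x : ℝ) : EReal) := by
    intro σ hσ
    exact key σ hσ ⟨0, fun j => hlog2, by rw [comb_zero]; exact h0⟩
  have hreal : ∀ x, φ x = (((φ x).toReal : ℝ) : EReal) := by
    intro x
    obtain ⟨σ, hσ, hx⟩ := cover hF x
    obtain ⟨G, -, -, hG⟩ := key2 σ hσ
    have h1 := ereal_add_coe_eq (hG (co σ x) (fun j => lt_of_le_of_lt (hx j) hlog2))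
    rw [comb_co (hF.det_unit hσ)] at h1
    rw [h1, EReal.toReal_coe]
  refine ⟨fun x => (φ x).toReal, ?_, hreal⟩
  intro σ hσ
  obtain ⟨G, hG1, hG2, hG3⟩ := key2 σ hσ
  have heq : Set.EqOn G (gs C (fun x => (φ x).toReal) σ) {x | ∀ j, x j < Real.log 2} := by
    intro x hx
    have h1 := hG3 x hx
    rw [hreal (comb σ x), ← EReal.coe_add, EReal.coe_eq_coe_iff] at h1
    rw [gs, h1]
  exact ⟨hG1.congr heq, hG2.congr heq⟩

lemma exp_nT (n : Fin 3 → Fin 3 → ℕ) {y : Fin 3 → ℂ} (hy : ∀ j, y j ≠ 0) (k : Fin 3) :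
    Real.exp (2 * nT n (logc y) k) = ‖∏ j, y j ^ n j k‖ ^ 2 := by
  have h1 : nT n (logc y) k = Real.log ‖∏ j, y j ^ n j k‖ := by
    rw [norm_prod, Real.log_prod]
    · refine Finset.sum_congr rfl fun j _ => ?_
      rw [norm_pow, Real.log_pow, logc]
      ring
    · intro j _
      rw [norm_pow]
      exact pow_ne_zero _ (norm_ne_zero_iff.mpr (hy j))
  rw [h1, exp_two_log]
  exact Finset.prod_ne_zero_iff.mpr fun j _ => pow_ne_zero _ (hy j)

lemma add_neg_coe_add_coe (a : EReal) (c d : ℝ) :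
    a + ((-c : ℝ) : EReal) + (d : EReal) = a + ((d - c : ℝ) : EReal) := by
  rw [add_assoc, ← EReal.coe_add]
  congr 2
  ring

lemma IsPsh.on {u : (Fin 3 → ℂ) → EReal} (hu : IsPsh u) (D : Set (Fin 3 → ℂ)) :
    IsPshOn D u :=
  ⟨hu.1.upperSemicontinuousOn D, fun z _ => hu.2.1 z, fun g p hg hp _ h => hu.2.2 g p hg hp h⟩

/-- a radius larger than one -/
noncomputable def rad (n : Fin 3 → Fin 3 → ℕ) : ℝ :=
  Real.exp (1 / (2 * ((∑ j, ∑ k, (n j k : ℝ)) + 1)))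

lemma nsum_nonneg (n : Fin 3 → Fin 3 → ℕ) : 0 ≤ ∑ j, ∑ k, (n j k : ℝ) :=
  Finset.sum_nonneg fun _ _ => Finset.sum_nonneg fun _ _ => Nat.cast_nonneg _

lemma one_lt_rad (n : Fin 3 → Fin 3 → ℕ) : 1 < rad n := by
  unfold rad
  have := nsum_nonneg n
  exact Real.one_lt_exp_iff.mpr (by positivity)

lemma nT_le_half (n : Fin 3 → Fin 3 → ℕ) {y : Fin 3 → ℂ} (hy : y ∈ pd (rad n))
    (hy0 : ∀ j, y j ≠ 0) (k : Fin 3) : nT n (logc y) k ≤ 1 / 2 := by
  have hN := nsum_nonneg n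
  set N := ∑ j, ∑ k, (n j k : ℝ) with hNdef
  have h1 : ∀ j, logc y j ≤ 1 / (2 * (N + 1)) := by
    intro j
    have h2 : ‖y j‖ < rad n := hy j
    have h3 := Real.log_lt_log (norm_pos_iff.mpr (hy0 j)) h2
    rw [rad, Real.log_exp] at h3
    exact h3.le
  calc nT n (logc y) k = ∑ j, logc y j * (n j k : ℝ) := rfl
    _ ≤ ∑ j, 1 / (2 * (N + 1)) * (n j k : ℝ) :=
        Finset.sum_le_sum fun j _ => mul_le_mul_of_nonneg_right (h1 j) (Nat.cast_nonneg _)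
    _ = 1 / (2 * (N + 1)) * ∑ j, (n j k : ℝ) := by rw [Finset.mul_sum]
    _ ≤ 1 / (2 * (N + 1)) * N := by
        refine mul_le_mul_of_nonneg_left ?_ (by positivity)
        refine Finset.sum_le_sum fun j _ => ?_
        exact Finset.single_le_sum (f := fun k => (n j k : ℝ)) (fun _ _ => Nat.cast_nonneg _)
          (Finset.mem_univ k)
    _ ≤ 1 / 2 := by
        rw [one_div, ← div_eq_inv_mul, div_le_iff₀ (by positivity)]
        linarith

end Pool.Agent.TD47
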