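import Pool.Agent.TD47.Mono

/-!
# Chains of greedy subdivisions terminate
-/

namespace Pool.Agent.TD47

/-- relative size of the edge `x, y` with respect to the weight functional `l` -/
noncomputable def mu (l x y : V3) : ℝ := ed x y / (dt l x + dt l y)

/-- the edge `x, y` of the cone `x, y, z` is the largest one and larger than `m` -/
def ch (l : V3) (m : ℝ) (x y z : V3) : Prop :=
  m < mu l x y ∧ mu l x z ≤ mu l x y ∧ mu l y z ≤ mu l x y

/-- every chain of greedy subdivisions starting from the cone `x, y, z` is finite -/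
inductive Ter (l : V3) (m : ℝ) : V3 → V3 → V3 → Prop
  | mk (x y z : V3) :
      (ch l m x y z → Ter l m (x + y) y z) → (ch l m x y z → Ter l m x (x + y) z) →
      (ch l m x z y → Ter l m (x + z) y z) → (ch l m x z y → Ter l m x y (x + z)) →
      (ch l m y z x → Ter l m x (y + z) z) → (ch l m y z x → Ter l m x y (y + z)) →
      Ter l m x y z

structure Val (l : V3) (N T : ℝ) (x y z : V3) : Prop where
  hx : 1 ≤ dt l x
  hy : 1 ≤ dt l y
  hz : 1 ≤ dt l z
  det : |de x y z| = 1
  nx : nr x ≤ N * dt l x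
  ny : nr y ≤ N * dt l y
  nz : nr z ≤ N * dt l z
  pxy : T ≤ dt l x * dt l y
  pyz : T ≤ dt l y * dt l z
  pxz : T ≤ dt l x * dt l z

structure Par (l : V3) (N T δ : ℝ) : Prop where
  δpos : 0 < δ
  hT1 : 4 * nr l < δ * T
  hT2 : N ^ 2 ≤ δ ^ 4 * T

structure St (l : V3) (N T M : ℝ) (x y z : V3) : Prop where
  val : Val l N T x y z
  bxy : mu l x y ≤ M
  byz : mu l y z ≤ M
  bxz : mu l x z ≤ M

section basics

variable {l : V3} {N T δ m M : ℝ} {x y z : V3}

lemma mu_comm (l x y : V3) : mu l x y = mu l y x := by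
  unfold mu; rw [ed_comm, add_comm]

lemma mu_le_iff (hx : 0 < dt l x) (hy : 0 < dt l y) :
    mu l x y ≤ M ↔ ed x y ≤ M * (dt l x + dt l y) := by
  unfold mu; rw [div_le_iff₀ (by positivity)]

lemma lt_mu_iff (hx : 0 < dt l x) (hy : 0 < dt l y) :
    m < mu l x y ↔ m * (dt l x + dt l y) < ed x y := by
  unfold mu; rw [lt_div_iff₀ (by positivity)]

lemma mu_nonneg (hx : 0 < dt l x) (hy : 0 < dt l y) : 0 ≤ mu l x y := by
  unfold mu; exact div_nonneg (ed_nonneg _ _) (by positivity)

lemma ed_eq (hx : 0 < dt l x) (hy : 0 < dt l y) :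
    ed x y = mu l x y * (dt l x + dt l y) := by
  unfold mu; rw [div_mul_cancel₀]; positivity

lemma ch_symm (h : ch l m x y z) : ch l m y x z := by
  obtain ⟨h1, h2, h3⟩ := h
  exact ⟨by rwa [mu_comm], by rwa [mu_comm l y x], by rwa [mu_comm l y x]⟩

lemma Val.swap12 (h : Val l N T x y z) : Val l N T y x z where
  hx := h.hy
  hy := h.hx
  hz := h.hz
  det := by rw [de_swap, abs_neg]; exact h.det
  nx := h.ny
  ny := h.nx
  nz := h.nz
  pxy := by rw [mul_comm]; exact h.pxy
  pyz := h.pxz
  pxz := h.pyz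

lemma Val.rot (h : Val l N T x y z) : Val l N T y z x where
  hx := h.hy
  hy := h.hz
  hz := h.hx
  det := by rw [de_rot]; exact h.det
  nx := h.ny
  ny := h.nz
  nz := h.nx
  pxy := h.pyz
  pyz := by rw [mul_comm]; exact h.pxz
  pxz := by rw [mul_comm]; exact h.pxy

lemma St.swap12 (h : St l N T M x y z) : St l N T M y x z where
  val := h.val.swap12
  bxy := by rw [mu_comm]; exact h.bxy
  byz := h.bxz
  bxz := h.byz

lemma St.rot (h : St l N T M x y z) : St l N T M y z x where
  val := h.val.rot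
  bxy := h.byz
  byz := by rw [mu_comm]; exact h.bxz
  bxz := by rw [mu_comm]; exact h.bxy

lemma St.swap23 (h : St l N T M x y z) : St l N T M x z y := h.swap12.rot

lemma St.swap13 (h : St l N T M x y z) : St l N T M z y x := h.rot.swap12

lemma Ter.swap12 (h : Ter l m x y z) : Ter l m y x z := by
  induction h with
  | mk x y z h1 h2 h3 h4 h5 h6 i1 i2 i3 i4 i5 i6 =>
    refine Ter.mk _ _ _ ?_ ?_ ?_ ?_ ?_ ?_
    · intro h; rw [add_comm]; exact i2 (ch_symm h)
    · intro h; rw [add_comm]; exact i1 (ch_symm h)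
    · intro h; exact i5 h
    · intro h; exact i6 h
    · intro h; exact i3 h
    · intro h; exact i4 h

lemma Ter.swap23 (h : Ter l m x y z) : Ter l m x z y := by
  induction h with
  | mk x y z h1 h2 h3 h4 h5 h6 i1 i2 i3 i4 i5 i6 =>
    refine Ter.mk _ _ _ ?_ ?_ ?_ ?_ ?_ ?_
    · intro h; exact i3 h
    · intro h; exact i4 h
    · intro h; exact i1 h
    · intro h; exact i2 h
    · intro h; rw [add_comm]; exact i6 (ch_symm h)
    · intro h; rw [add_comm]; exact i5 (ch_symm h)

lemma Ter.rot (h : Ter l m x y z) : Ter l m y z x := h.swap12.swap23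

lemma Ter.swap13 (h : Ter l m x y z) : Ter l m z y x := h.rot.swap12

lemma Ter.mk' (hxy : ch l m x y z → Ter l m (x + y) y z ∧ Ter l m x (x + y) z)
    (hxz : ch l m x z y → Ter l m (x + z) y z ∧ Ter l m x y (x + z))
    (hyz : ch l m y z x → Ter l m x (y + z) z ∧ Ter l m x y (y + z)) : Ter l m x y z :=
  Ter.mk _ _ _ (fun h => (hxy h).1) (fun h => (hxy h).2) (fun h => (hxz h).1)
    (fun h => (hxz h).2) (fun h => (hyz h).1) (fun h => (hyz h).2)

/-- no edge larger than `m`: nothing to do -/
lemma Ter.of_dead (h1 : ¬ m < mu l x y) (h2 : ¬ m < mu l x z) (h3 : ¬ m < mu l y z) :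
    Ter l m x y z :=
  Ter.mk' (fun h => absurd h.1 h1) (fun h => absurd h.1 h2) (fun h => absurd h.1 h3)

end basics

section child

variable {l : V3} {N T δ m M : ℝ} {x y z : V3}

lemma Par.Tpos (P : Par l N T δ) : 0 < T := by
  have h1 := P.hT1; have h2 := nr_nonneg l; have h3 := P.δpos
  by_contra h
  push Not at h
  nlinarith

lemma Val.child (h : Val l N T x y z) : Val l N T x (x + y) z where
  hx := h.hx
  hy := by rw [dt_add]; linarith [h.hx, h.hy]
  hz := h.hz
  det := by rw [de_add]; exact h.det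
  nx := h.nx
  ny := by
    rw [dt_add]
    calc nr (x + y) ≤ nr x + nr y := nr_add_le _ _
      _ ≤ N * (dt l x + dt l y) := by linarith [h.nx, h.ny]
  nz := h.nz
  pxy := by rw [dt_add]; nlinarith [h.hx, h.hy, h.pxy]
  pyz := by rw [dt_add]; nlinarith [h.hx, h.hz, h.pyz]
  pxz := h.pxz

lemma key' (P : Par l N T δ) (hm : δ ≤ m) (h : Val l N T x y z) (hc : ch l m x y z) :
    ed z (x + y) ≤ mu l x y * (dt l x + dt l y + dt l z / 2) := by
  have hx := h.hx; have hy := h.hy; have hz := h.hz
  obtain ⟨hc1, hc2, hc3⟩ := hc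
  have hk : δ < mu l x y := lt_of_le_of_lt hm hc1
  have hkpos : 0 < mu l x y := P.δpos.trans hk
  have hT := P.Tpos
  apply key_ineq l x y z N (mu l x y) hkpos (by linarith) (by linarith) (by linarith) h.det
    (ed_eq (by linarith) (by linarith))
    ((mu_le_iff (by linarith) (by linarith)).mp hc3)
    ((mu_le_iff (by linarith) (by linarith)).mp hc2)
  · calc nr (x + y) ≤ nr x + nr y := nr_add_le _ _
      _ ≤ N * (dt l x + dt l y) := by linarith [h.nx, h.ny]
  · have h1 : δ * T ≤ mu l x y * (dt l z * dt l x) := by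
      apply mul_le_mul hk.le _ hT.le hkpos.le
      rw [mul_comm]; exact h.pxz
    linarith [P.hT1]
  · have h1 : δ * T ≤ mu l x y * (dt l z * dt l y) := by
      apply mul_le_mul hk.le _ hT.le hkpos.le
      rw [mul_comm]; exact h.pyz
    linarith [P.hT1]
  · have h4 : δ ^ 4 ≤ mu l x y ^ 4 := pow_le_pow_left₀ P.δpos.le hk.le 4
    have h5 : 2 * T ≤ dt l z * (dt l x + dt l y) := by nlinarith [h.pxz, h.pyz]
    have h6 : δ ^ 4 * (2 * T) ≤ mu l x y ^ 4 * (dt l z * (dt l x + dt l y)) :=
      mul_le_mul h4 h5 (by positivity) (by positivity)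
    linarith [P.hT2]

/-- the child cone `x, x + y, z` -/
lemma St.child (P : Par l N T δ) (hm : δ ≤ m) (h : St l N T M x y z) (hc : ch l m x y z) :
    St l N T M x (x + y) z := by
  have hk := key' P hm h.val hc
  have hv := h.val.child
  have hx := h.val.hx; have hy := h.val.hy; have hz := h.val.hz
  have hkpos : 0 < mu l x y := P.δpos.trans_le (hm.trans hc.1.le)
  refine ⟨hv, ?_, ?_, h.bxz⟩
  · rw [mu_le_iff (by linarith) (by rw [dt_add]; linarith), ed_self_add,
      ed_eq (by linarith) (by linarith), dt_add]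
    have : mu l x y * (dt l x + dt l y) ≤ mu l x y * (dt l x + (dt l x + dt l y)) :=
      mul_le_mul_of_nonneg_left (by linarith) hkpos.le
    exact this.trans (mul_le_mul_of_nonneg_right h.bxy (by linarith))
  · rw [mu_comm, mu_le_iff (by linarith) (by rw [dt_add]; linarith), dt_add]
    refine hk.trans ?_
    have : mu l x y * (dt l x + dt l y + dt l z / 2) ≤
        mu l x y * (dt l z + (dt l x + dt l y)) :=
      mul_le_mul_of_nonneg_left (by linarith) hkpos.le
    exact this.trans (mul_le_mul_of_nonneg_right h.bxy (by linarith))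

/-- the child cone `x + y, y, z` -/
lemma St.child' (P : Par l N T δ) (hm : δ ≤ m) (h : St l N T M x y z) (hc : ch l m x y z) :
    St l N T M (x + y) y z := by
  have := (h.swap12).child P hm (ch_symm hc)
  rw [add_comm y x] at this
  exact this.swap12

/-- a new edge `x, x + y` that is larger than `m` is very unbalanced -/
lemma new_end (P : Par l N T δ) (hm : δ ≤ m) (hM : 49 * M ≤ 50 * m) (h : St l N T M x y z)
    (hc : ch l m x y z) (ha : m < mu l x (x + y)) : 20 * dt l x < dt l (x + y) := by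
  have hx := h.val.hx; have hy := h.val.hy; have hz := h.val.hz
  have hkpos : 0 < mu l x y := P.δpos.trans_le (hm.trans hc.1.le)
  rw [lt_mu_iff (by linarith) (by rw [dt_add]; linarith), ed_self_add,
      ed_eq (by linarith) (by linarith), dt_add] at ha
  rw [dt_add]
  have h1 : 49 * mu l x y ≤ 50 * m := by linarith [h.bxy]
  have h2 : 49 * mu l x y * (dt l x + (dt l x + dt l y)) ≤
      50 * m * (dt l x + (dt l x + dt l y)) := mul_le_mul_of_nonneg_right h1 (by linarith)
  have h3 : mu l x y * (49 * (dt l x + (dt l x + dt l y))) <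
      mu l x y * (50 * (dt l x + dt l y)) := by nlinarith
  have h4 := lt_of_mul_lt_mul_left h3 hkpos.le
  linarith

/-- a new edge `z, x + y` that is larger than `m` is very unbalanced -/
lemma new_third (P : Par l N T δ) (hm : δ ≤ m) (hM : 49 * M ≤ 50 * m) (h : St l N T M x y z)
    (hc : ch l m x y z) (ha : m < mu l z (x + y)) : 20 * dt l z < dt l (x + y) := by
  have hx := h.val.hx; have hy := h.val.hy; have hz := h.val.hz
  have hkpos : 0 < mu l x y := P.δpos.trans_le (hm.trans hc.1.le)
  have hk := key' P hm h.val hc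
  rw [lt_mu_iff (by linarith) (by rw [dt_add]; linarith), dt_add] at ha
  rw [dt_add]
  have h1 : 49 * mu l x y ≤ 50 * m := by linarith [h.bxy]
  have h2 : 49 * mu l x y * (dt l z + (dt l x + dt l y)) ≤
      50 * m * (dt l z + (dt l x + dt l y)) := mul_le_mul_of_nonneg_right h1 (by linarith)
  have h3 : mu l x y * (49 * (dt l z + (dt l x + dt l y))) <
      mu l x y * (50 * (dt l x + dt l y + dt l z / 2)) := by nlinarith
  have h4 := lt_of_mul_lt_mul_left h3 hkpos.le
  linarith

lemma new_end' (P : Par l N T δ) (hm : δ ≤ m) (hM : 49 * M ≤ 50 * m) (h : St l N T M x y z)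
    (hc : ch l m x y z) (ha : m < mu l y (x + y)) : 20 * dt l y < dt l (x + y) := by
  have := new_end P hm hM h.swap12 (ch_symm hc)
  rw [add_comm y x] at this
  exact this ha

end child

end Pool.Agent.TD47
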