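import Pool.Agent.TD47.Defs

/-!
# Convex increasing functions of the logarithmic coordinates are plurisubharmonic
-/

set_option autoImplicit false

open scoped Topology

namespace Pool.Agent.TD47

/-- Truncated logarithmic coordinates. -/
noncomputable def tlog (n : ℕ) (z : Fin 3 → ℂ) : Fin 3 → ℝ :=
  fun j => Real.log (max ‖z j‖ (Real.exp (-(n : ℝ))))

lemma tmax_pos (n : ℕ) (x : ℂ) : 0 < max ‖x‖ (Real.exp (-(n : ℝ))) :=
  lt_max_of_lt_right (Real.exp_pos _)

lemma tlog_continuous (n : ℕ) : Continuous (tlog n) := by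
  refine continuous_pi (fun j => ?_)
  refine Continuous.log ?_ (fun z => (tmax_pos n (z j)).ne')
  exact (continuous_norm.comp (continuous_apply j)).max continuous_const

lemma tlog_anti {m n : ℕ} (h : m ≤ n) (z : Fin 3 → ℂ) : tlog n z ≤ tlog m z := by
  intro j
  refine Real.log_le_log (tmax_pos n (z j)) (max_le_max le_rfl ?_)
  apply Real.exp_le_exp.mpr
  have : (m : ℝ) ≤ n := by exact_mod_cast h
  linarith

lemma convex_continuous {G : (Fin 3 → ℝ) → ℝ} (hc : ConvexOn ℝ Set.univ G) : Continuous G :=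
  continuousOn_univ.mp (hc.continuousOn isOpen_univ)

/-- Affine minorants with nonnegative coefficients. -/
lemma exists_affine {G : (Fin 3 → ℝ) → ℝ} (hc : ConvexOn ℝ Set.univ G) (hm : Monotone G)
    (y0 : Fin 3 → ℝ) {δ : ℝ} (hδ : 0 < δ) :
    ∃ (α : Fin 3 → ℝ) (b : ℝ), (∀ j, 0 ≤ α j) ∧ (∀ y : Fin 3 → ℝ, ∑ j, α j * y j + b ≤ G y) ∧
      ∑ j, α j * y0 j + b = G y0 - δ := by
  obtain ⟨l, b, h1, h2⟩ := ConvexOn.exists_affine_le_of_lt (𝕜 := ℝ) (s := Set.univ) (φ := G)
    (x := y0) (a := G y0 - δ) (Set.mem_univ _) (by linarith) isClosed_univ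
    ((convex_continuous hc).lowerSemicontinuous.lowerSemicontinuousOn _) hc
  have hl : ∀ y : Fin 3 → ℝ, l y = ∑ j, l (Pi.single j 1) * y j := by
    intro y
    have hy : y = ∑ j, y j • (Pi.single j (1 : ℝ) : Fin 3 → ℝ) := by
      ext i
      simp [Finset.sum_apply, Pi.single_apply]
    conv_lhs => rw [hy]
    rw [map_sum]
    refine Finset.sum_congr rfl (fun j _ => ?_)
    rw [map_smul, smul_eq_mul, mul_comm]
  have h1' : ∀ y : Fin 3 → ℝ, l y + b ≤ G y := by
    intro y
    have := h1 ⟨y, Set.mem_univ y⟩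
    simpa using this
  refine ⟨fun j => l (Pi.single j 1), b, ?_, ?_, ?_⟩
  · intro j
    by_contra hneg
    push Not at hneg
    -- move far in the direction of the negative coordinate vector
    set s : ℝ := (G y0 - l y0 - b + 1) / (-(l (Pi.single j 1))) with hs
    have hpos : 0 < -(l (Pi.single j (1 : ℝ))) := by linarith
    have hs0 : 0 ≤ s := by
      rw [hs]
      apply div_nonneg _ hpos.le
      have := h1' y0
      linarith
    have hle : y0 - s • (Pi.single j (1 : ℝ) : Fin 3 → ℝ) ≤ y0 := by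
      intro i
      have : 0 ≤ s * (Pi.single j (1 : ℝ) : Fin 3 → ℝ) i := by
        apply mul_nonneg hs0
        rw [Pi.single_apply]
        split_ifs <;> norm_num
      simpa using this
    have h3 := h1' (y0 - s • (Pi.single j (1 : ℝ) : Fin 3 → ℝ))
    have h4 := hm hle
    rw [map_sub, map_smul, smul_eq_mul] at h3
    have h5 : s * -(l (Pi.single j (1 : ℝ))) = G y0 - l y0 - b + 1 := by
      rw [hs, div_mul_cancel₀ _ hpos.ne']
    linarith
  · intro y
    rw [← hl y]
    exact h1' y
  · rw [← hl y0]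
    simpa using h2

/-- The maximum modulus principle for a product of powers. -/
lemma maxmod_prod (B : Fin 3 → ℂ → ℂ) (p : ℂ → ℂ)
    (hB : ∀ j, DifferentiableOn ℂ (B j) (Metric.closedBall 0 1))
    (hp : DifferentiableOn ℂ p (Metric.closedBall 0 1)) (k : Fin 3 → ℕ) (N : ℕ) (M : ℝ)
    (h : ∀ t : ℂ, ‖t‖ = 1 → ∏ j, ‖B j t‖ ^ k j ≤ Real.exp (N * (p t).re + M))
    (t0 : ℂ) (ht0 : ‖t0‖ ≤ 1) : ∏ j, ‖B j t0‖ ^ k j ≤ Real.exp (N * (p t0).re + M) := by
  set f : ℂ → ℂ := fun t => (∏ j, B j t ^ k j) * Complex.exp (-(N : ℂ) * p t) with hf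
  have hnorm : ∀ t, ‖f t‖ = (∏ j, ‖B j t‖ ^ k j) * Real.exp (-(N * (p t).re)) := by
    intro t
    rw [hf]
    simp only [norm_mul, norm_prod, norm_pow, Complex.norm_exp]
    congr 2
    simp [Complex.mul_re]
  have hd : DifferentiableOn ℂ f (Metric.closedBall 0 1) := by
    rw [hf]
    apply DifferentiableOn.mul
    · apply DifferentiableOn.fun_finsetProd
      intro j _
      exact (hB j).fun_pow (k j)
    · exact ((differentiableOn_const _).mul hp).cexp
  have hcl : closure (Metric.ball (0 : ℂ) 1) = Metric.closedBall 0 1 :=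
    closure_ball _ one_ne_zero
  have hdc : DiffContOnCl ℂ f (Metric.ball 0 1) := by
    apply DifferentiableOn.diffContOnCl
    rwa [hcl]
  have hbd := Complex.norm_le_of_forall_mem_frontier_norm_le (f := f) (U := Metric.ball (0 : ℂ) 1)
    Metric.isBounded_ball hdc (C := Real.exp M) (by
      intro t ht
      rw [frontier_ball _ one_ne_zero, mem_sphere_zero_iff_norm] at ht
      rw [hnorm t]
      calc _ ≤ Real.exp (N * (p t).re + M) * Real.exp (-(N * (p t).re)) :=
            mul_le_mul_of_nonneg_right (h t ht) (Real.exp_pos _).le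
        _ = Real.exp M := by rw [← Real.exp_add]; congr 1; ring) (z := t0) (by
      rw [hcl, mem_closedBall_zero_iff]; exact ht0)
  rw [hnorm t0] at hbd
  have h2 := mul_le_mul_of_nonneg_right hbd (Real.exp_pos (N * (p t0).re)).le
  rw [mul_assoc, ← Real.exp_add, neg_add_cancel, Real.exp_zero, mul_one, ← Real.exp_add] at h2
  rwa [add_comm M] at h2

/-- The disc property for one truncation. -/
lemma disc_trunc {G : (Fin 3 → ℝ) → ℝ} (hc : ConvexOn ℝ Set.univ G) (hm : Monotone G) (n : ℕ)
    (g : ℂ → Fin 3 → ℂ) (p : ℂ → ℂ)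
    (hg : ∀ j, DifferentiableOn ℂ (fun t => g t j) (Metric.closedBall 0 1))
    (hp : DifferentiableOn ℂ p (Metric.closedBall 0 1))
    (h : ∀ t : ℂ, ‖t‖ = 1 → G (tlog n (g t)) ≤ (p t).re)
    (t0 : ℂ) (ht0 : ‖t0‖ ≤ 1) : G (tlog n (g t0)) ≤ (p t0).re := by
  apply le_of_forall_pos_le_add
  intro δ hδ
  obtain ⟨α, b, hα, hmin, h0⟩ := exists_affine hc hm (tlog n (g t0)) hδ
  suffices hsuf : ∑ j, α j * tlog n (g t0) j + b ≤ (p t0).re by linarith
  -- the functions `B j`
  set B : Fin 3 → ℂ → ℂ := fun j =>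
    if Real.exp (-(n : ℝ)) ≤ ‖g t0 j‖ then (fun t => g t j)
      else (fun _ => ((Real.exp (-(n : ℝ)) : ℝ) : ℂ)) with hBdef
  have hBdiff : ∀ j, DifferentiableOn ℂ (B j) (Metric.closedBall 0 1) := by
    intro j
    simp only [hBdef]
    split_ifs
    · exact hg j
    · exact differentiableOn_const _
  have hBle : ∀ j t, ‖B j t‖ ≤ max ‖g t j‖ (Real.exp (-(n : ℝ))) := by
    intro j t
    simp only [hBdef]
    split_ifs
    · exact le_max_left _ _
    · rw [Complex.norm_real, Real.norm_eq_abs, abs_of_pos (Real.exp_pos _)]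
      exact le_max_right _ _
  have hB0 : ∀ j, ‖B j t0‖ = max ‖g t0 j‖ (Real.exp (-(n : ℝ))) := by
    intro j
    simp only [hBdef]
    split_ifs with hj
    · rw [max_eq_left hj]
    · rw [Complex.norm_real, Real.norm_eq_abs, abs_of_pos (Real.exp_pos _),
        max_eq_right (not_le.mp hj).le]
  -- a bound for the logarithmic coordinates
  have hgc : ContinuousOn g (Metric.closedBall 0 1) :=
    continuousOn_pi.mpr (fun j => (hg j).continuousOn)
  have hyc : ContinuousOn (fun t => ∑ j, |tlog n (g t) j|) (Metric.closedBall 0 1) := by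
    apply continuousOn_finsetSum
    intro j _
    exact (continuous_abs.comp_continuousOn
      ((continuous_apply j).comp_continuousOn ((tlog_continuous n).comp_continuousOn hgc)))
  obtain ⟨C, hC⟩ := (isCompact_closedBall (0 : ℂ) 1).bddAbove_image hyc
  have hC' : ∀ t : ℂ, ‖t‖ ≤ 1 → ∑ j, |tlog n (g t) j| ≤ C := by
    intro t ht
    exact hC ⟨t, mem_closedBall_zero_iff.mpr ht, rfl⟩
  -- powers
  have hpow : ∀ (k : Fin 3 → ℕ) (t : ℂ), ∏ j, (max ‖g t j‖ (Real.exp (-(n : ℝ)))) ^ k j =
      Real.exp (∑ j, k j * tlog n (g t) j) := by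
    intro k t
    rw [Real.exp_sum]
    refine Finset.prod_congr rfl (fun j _ => ?_)
    rw [Real.exp_nat_mul, tlog, Real.exp_log (tmax_pos n (g t j))]
  have hkey : ∀ N : ℕ, (N : ℝ) * (∑ j, α j * tlog n (g t0) j + b - (p t0).re) ≤ 2 * C := by
    intro N
    set k : Fin 3 → ℕ := fun j => ⌈α j * N⌉₊ with hk
    have hk1 : ∀ j, α j * N ≤ k j := fun j => Nat.le_ceil _
    have hk2 : ∀ j, (k j : ℝ) ≤ α j * N + 1 := fun j =>
      (Nat.ceil_lt_add_one (mul_nonneg (hα j) (Nat.cast_nonneg N))).le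
    -- comparison of the two exponents
    have hcmp : ∀ t : ℂ, ‖t‖ ≤ 1 →
        |∑ j, k j * tlog n (g t) j - N * ∑ j, α j * tlog n (g t) j| ≤ C := by
      intro t ht
      refine le_trans ?_ (hC' t ht)
      rw [Finset.mul_sum, ← Finset.sum_sub_distrib]
      refine (Finset.abs_sum_le_sum_abs _ _).trans (Finset.sum_le_sum (fun j _ => ?_))
      have : (k j : ℝ) * tlog n (g t) j - N * (α j * tlog n (g t) j) =
          ((k j : ℝ) - α j * N) * tlog n (g t) j := by ring
      rw [this, abs_mul]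
      have h3 : |(k j : ℝ) - α j * N| ≤ 1 := by
        rw [abs_le]
        constructor <;> linarith [hk1 j, hk2 j]
      calc _ ≤ 1 * |tlog n (g t) j| := mul_le_mul_of_nonneg_right h3 (abs_nonneg _)
        _ = _ := one_mul _
    have hmm := maxmod_prod B p hBdiff hp k N (C - N * b) (by
      intro t ht
      calc ∏ j, ‖B j t‖ ^ k j ≤ ∏ j, (max ‖g t j‖ (Real.exp (-(n : ℝ)))) ^ k j := by
            apply Finset.prod_le_prod
            · intro j _; positivity
            · intro j _
              exact pow_le_pow_left₀ (norm_nonneg _) (hBle j t) _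
        _ = Real.exp (∑ j, k j * tlog n (g t) j) := hpow k t
        _ ≤ Real.exp (N * (p t).re + (C - N * b)) := by
            apply Real.exp_le_exp.mpr
            have h4 := (abs_le.mp (hcmp t ht.le)).2
            have h5 : (N : ℝ) * (∑ j, α j * tlog n (g t) j + b) ≤ N * (p t).re :=
              mul_le_mul_of_nonneg_left ((hmin _).trans (h t ht)) (Nat.cast_nonneg N)
            linarith) t0 ht0
    have h6 : ∏ j, ‖B j t0‖ ^ k j = Real.exp (∑ j, k j * tlog n (g t0) j) := by
      rw [← hpow k t0]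
      exact Finset.prod_congr rfl (fun j _ => by rw [hB0 j])
    rw [h6] at hmm
    have h7 := Real.exp_le_exp.mp hmm
    have h8 := (abs_le.mp (hcmp t0 ht0)).1
    linarith
  by_contra hcon
  push Not at hcon
  have hpos : 0 < ∑ j, α j * tlog n (g t0) j + b - (p t0).re := by linarith
  obtain ⟨N, hN⟩ := exists_nat_gt (2 * C / (∑ j, α j * tlog n (g t0) j + b - (p t0).re))
  rw [div_lt_iff₀ hpos] at hN
  exact absurd (hkey N) (not_le.mpr hN)

/-- Convex increasing functions of `log |z_j|` are plurisubharmonic. -/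
theorem psh_toric (G : (Fin 3 → ℝ) → ℝ) (hc : ConvexOn ℝ Set.univ G) (hm : Monotone G) :
    IsPsh (fun z => ⨅ n : ℕ,
      ((G (fun j => Real.log (max ‖z j‖ (Real.exp (-(n : ℝ))))) : ℝ) : EReal)) := by
  change IsPsh (fun z => ⨅ n : ℕ, ((G (tlog n z) : ℝ) : EReal))
  have hGc := convex_continuous hc
  refine ⟨?_, ?_, ?_⟩
  · apply upperSemicontinuous_iInf
    intro n
    exact (continuous_coe_real_ereal.comp (hGc.comp (tlog_continuous n))).upperSemicontinuous
  · intro z
    exact ne_top_of_le_ne_top (EReal.coe_ne_top (G (tlog 0 z))) (iInf_le _ 0)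
  · intro g p hg hp h t ht
    have hgd : ∀ j, DifferentiableOn ℂ (fun t => g t j) (Metric.closedBall 0 1) := by
      intro j s hs
      exact (differentiableAt_pi.mp (hg s hs).differentiableAt j).differentiableWithinAt
    have hpd : DifferentiableOn ℂ p (Metric.closedBall 0 1) := fun s hs =>
      (hp s hs).differentiableAt.differentiableWithinAt
    apply EReal.le_of_forall_lt_iff_le.mp
    intro r hr
    have hr' : (p t).re < r := EReal.coe_lt_coe_iff.mp hr
    set ε := r - (p t).re with hε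
    have hε0 : 0 < ε := by rw [hε]; linarith
    -- one truncation works on the whole circle
    have hcirc : ∃ n : ℕ, ∀ s : ℂ, ‖s‖ = 1 → G (tlog n (g s)) ≤ (p s).re + ε := by
      have hloc : ∀ s ∈ Metric.sphere (0 : ℂ) 1, ∃ n : ℕ,
          {w : ℂ | G (tlog n (g w)) < (p w).re + ε} ∈ 𝓝 s := by
        intro s hs
        have hs1 : ‖s‖ = 1 := mem_sphere_zero_iff_norm.mp hs
        have hsb : s ∈ Metric.closedBall (0 : ℂ) 1 := mem_closedBall_zero_iff.mpr hs1.le
        have h1 : (⨅ n : ℕ, ((G (tlog n (g s)) : ℝ) : EReal)) < (((p s).re + ε : ℝ) : EReal) :=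
          lt_of_le_of_lt (h s hs1) (EReal.coe_lt_coe_iff.mpr (by linarith))
        obtain ⟨n, hn⟩ := iInf_lt_iff.mp h1
        have hn' : G (tlog n (g s)) < (p s).re + ε := EReal.coe_lt_coe_iff.mp hn
        refine ⟨n, ?_⟩
        have hca : ContinuousAt (fun w => G (tlog n (g w))) s :=
          (hGc.comp (tlog_continuous n)).continuousAt.comp (hg s hsb).continuousAt
        have hcb : ContinuousAt (fun w => (p w).re + ε) s :=
          (Complex.continuous_re.continuousAt.comp (hp s hsb).continuousAt).add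
            continuousAt_const
        exact hca.eventually_lt hcb hn'
      choose! N hN using hloc
      obtain ⟨T, hT1, hT2⟩ := (isCompact_sphere (0 : ℂ) 1).elim_nhds_subcover
        (fun s => {w : ℂ | G (tlog (N s) (g w)) < (p w).re + ε}) hN
      refine ⟨T.sup N, fun s hs => ?_⟩
      have hs' := hT2 (mem_sphere_zero_iff_norm.mpr hs)
      obtain ⟨u, hu, hsu⟩ := Set.mem_iUnion₂.mp hs'
      refine le_trans (hm (tlog_anti (Finset.le_sup hu) (g s))) ?_
      exact le_of_lt hsu
    obtain ⟨n, hn⟩ := hcirc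
    have hfin := disc_trunc hc hm n g (fun s => p s + (ε : ℂ)) hgd
      (hpd.add_const _) (by
        intro s hs
        simpa using hn s hs) t ht
    refine (iInf_le _ n).trans ?_
    apply EReal.coe_le_coe_iff.mpr
    simp only [Complex.add_re, Complex.ofReal_re] at hfin
    rw [hε] at hfin
    linarith

/-- On the open orbit the truncations are eventually constant. -/
theorem iInf_toric (G : (Fin 3 → ℝ) → ℝ) (hm : Monotone G) (z : Fin 3 → ℂ)
    (hz : ∀ j, z j ≠ 0) :
    (⨅ n : ℕ, ((G (fun j => Real.log (max ‖z j‖ (Real.exp (-(n : ℝ))))) : ℝ) : EReal))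
      = ((G (logc z) : ℝ) : EReal) := by
  change (⨅ n : ℕ, ((G (tlog n z) : ℝ) : EReal)) = _
  apply le_antisymm
  · -- choose a large truncation
    obtain ⟨n, hn⟩ := exists_nat_gt (∑ j, |Real.log ‖z j‖|)
    refine (iInf_le _ n).trans (le_of_eq ?_)
    congr 2
    funext j
    have hj : Real.exp (-(n : ℝ)) ≤ ‖z j‖ := by
      have hzj : 0 < ‖z j‖ := norm_pos_iff.mpr (hz j)
      rw [← Real.exp_log hzj]
      apply Real.exp_le_exp.mpr
      have h1 : |Real.log ‖z j‖| ≤ ∑ j, |Real.log ‖z j‖| :=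
        Finset.single_le_sum (f := fun j => |Real.log ‖z j‖|) (fun i _ => abs_nonneg _)
          (Finset.mem_univ j)
      have h2 := neg_abs_le (Real.log ‖z j‖)
      linarith
    rw [tlog, logc, max_eq_left hj]
  · refine le_iInf (fun n => EReal.coe_le_coe_iff.mpr (hm ?_))
    intro j
    exact Real.log_le_log (norm_pos_iff.mpr (hz j)) (le_max_left _ _)

end Pool.Agent.TD47
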