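import Pool.Agent.TD47.Kb
import Pool.Agent.TD47.PshToric

/-!
# The remainder in the charts of the subdivided fan and its Lelong numbers
-/

open scoped Topology
open Filter

namespace Pool.Agent.TD47

/-- transposed exponents: logarithmic coordinates of the monomial map -/
def nT (n : Fin 3 → Fin 3 → ℕ) (x : Fin 3 → ℝ) : Fin 3 → ℝ := fun k => ∑ j, x j * (n j k : ℝ)

lemma nT_add (n : Fin 3 → Fin 3 → ℕ) (x y : Fin 3 → ℝ) : nT n (x + y) = nT n x + nT n y := by
  funext k
  simp only [nT, Pi.add_apply, add_mul, Finset.sum_add_distrib]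

lemma nT_smul (n : Fin 3 → Fin 3 → ℕ) (c : ℝ) (x : Fin 3 → ℝ) : nT n (c • x) = c • nT n x := by
  funext k
  simp only [nT, Pi.smul_apply, smul_eq_mul, Finset.mul_sum, mul_assoc]

lemma nT_sub (n : Fin 3 → Fin 3 → ℕ) (x y : Fin 3 → ℝ) : nT n (x - y) = nT n x - nT n y := by
  funext k
  simp only [nT, Pi.sub_apply, sub_mul, Finset.sum_sub_distrib]

lemma nT_nonneg (n : Fin 3 → Fin 3 → ℕ) {x : Fin 3 → ℝ} (hx : ∀ j, 0 ≤ x j) (k : Fin 3) :
    0 ≤ nT n x k := Finset.sum_nonneg fun j _ => mul_nonneg (hx j) (Nat.cast_nonneg _)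

lemma comb_nT {σ σ0 : Cone3} {n : Fin 3 → Fin 3 → ℕ} (hn : ∀ j, σ j = nc σ0 (n j))
    (x : Fin 3 → ℝ) : comb σ0 (nT n x) = comb σ x := by
  funext i
  simp only [comb, nT, hn, nc]
  push_cast
  simp only [Finset.sum_mul, Finset.mul_sum]
  rw [Finset.sum_comm]
  refine Finset.sum_congr rfl fun j _ => Finset.sum_congr rfl fun k _ => ?_
  ring

lemma comb_sum (σ : Cone3) (x : Fin 3 → ℝ) : comb σ x = ∑ j, x j • toR (σ j) := by
  funext i
  simp only [comb, toR, Finset.sum_apply, Pi.smul_apply, smul_eq_mul]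

section

variable {F : Finset Cone3} (hF : IsFan F) {C : ℝ} (hC : 0 ≤ C) {f : (Fin 3 → ℝ) → ℝ}
  (hf : QF F C f) {h : (Fin 3 → ℝ) → ℝ} (hh : IsRec f h) {σ0 : Cone3} (hσ0 : σ0 ∈ F)
  {σ : Cone3} {n : Fin 3 → Fin 3 → ℕ} (hn : ∀ j, σ j = nc σ0 (n j))

/-- the remainder plus the local potential, in logarithmic coordinates -/
noncomputable def Gf (F : Finset Cone3) (C : ℝ) (f h : (Fin 3 → ℝ) → ℝ) (σ0 σ : Cone3)
    (n : Fin 3 → Fin 3 → ℕ) (x : Fin 3 → ℝ) : ℝ :=
  Phi F C f σ0 (nT n x) - ∑ j, h (toR (σ j)) * x j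

include hF hC hf hσ0

lemma Gf_convex : ConvexOn ℝ Set.univ (Gf F C f h σ0 σ n) := by
  refine ⟨convex_univ, ?_⟩
  intro x _ y _ a b ha hb hab
  have h1 := (Phi_convex hF hC hf hσ0).2 (Set.mem_univ (nT n x)) (Set.mem_univ (nT n y)) ha hb hab
  simp only [smul_eq_mul] at h1 ⊢
  unfold Gf
  rw [nT_add, nT_smul, nT_smul]
  have e : ∑ j, h (toR (σ j)) * (a • x + b • y) j =
      a * ∑ j, h (toR (σ j)) * x j + b * ∑ j, h (toR (σ j)) * y j := by
    rw [Finset.mul_sum, Finset.mul_sum, ← Finset.sum_add_distrib]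
    refine Finset.sum_congr rfl fun j _ => ?_
    simp only [Pi.add_apply, Pi.smul_apply, smul_eq_mul]
    ring
  rw [e]
  linarith

include hh hn

lemma Gf_coord (x : Fin 3 → ℝ) (i : Fin 3) {s : ℝ} (hs : 0 ≤ s) :
    Gf F C f h σ0 σ n x ≤ Gf F C f h σ0 σ n (x + s • Pi.single i 1) := by
  unfold Gf
  have hpos : ∀ j, 0 ≤ (s • Pi.single i (1:ℝ) : Fin 3 → ℝ) j := by
    intro j
    simp only [Pi.smul_apply, smul_eq_mul]
    refine mul_nonneg hs ?_
    by_cases hj : j = i
    · subst hj; simp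
    · simp [Pi.single_eq_of_ne hj]
  have h1 := Phi_inc hF hC hf hσ0 hh (nT_nonneg n hpos) (nT n x)
  rw [comb_nT hn, ← nT_add] at h1
  have e1 : comb σ (s • Pi.single i (1:ℝ)) = s • toR (σ i) := by
    rw [comb_smul, comb_sum]
    congr 1
    rw [Finset.sum_eq_single i]
    · simp
    · intro j _ hj
      simp [Pi.single_eq_of_ne hj]
    · intro hi
      exact absurd (Finset.mem_univ i) hi
  rw [e1, hh.smul hs] at h1
  have e2 : ∑ j, h (toR (σ j)) * (x + s • (Pi.single i (1:ℝ) : Fin 3 → ℝ)) j =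
      ∑ j, h (toR (σ j)) * x j + s * h (toR (σ i)) := by
    have e3 : ∀ j, h (toR (σ j)) * (x + s • (Pi.single i (1:ℝ) : Fin 3 → ℝ)) j =
        h (toR (σ j)) * x j + (if j = i then s * h (toR (σ i)) else 0) := by
      intro j
      simp only [Pi.add_apply, Pi.smul_apply, smul_eq_mul]
      by_cases hj : j = i
      · subst hj; simp; ring
      · simp [hj]
    rw [Finset.sum_congr rfl (fun j _ => e3 j), Finset.sum_add_distrib]
    simp
  rw [e2]
  linarith

lemma Gf_mono : Monotone (Gf F C f h σ0 σ n) := by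
  intro x y hxy
  have h0 := Gf_coord hF hC hf hh hσ0 hn x 0 (sub_nonneg.mpr (hxy 0))
  have h1 := Gf_coord hF hC hf hh hσ0 hn (x + (y 0 - x 0) • Pi.single 0 1) 1
    (sub_nonneg.mpr (hxy 1))
  have h2 := Gf_coord hF hC hf hh hσ0 hn (x + (y 0 - x 0) • Pi.single 0 1 +
    (y 1 - x 1) • Pi.single 1 1) 2 (sub_nonneg.mpr (hxy 2))
  have e : x + (y 0 - x 0) • Pi.single 0 (1:ℝ) + (y 1 - x 1) • Pi.single 1 (1:ℝ) +
      (y 2 - x 2) • Pi.single 2 (1:ℝ) = y := by
    funext j
    fin_cases j <;> simp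
  rw [e] at h2
  exact h0.trans (h1.trans h2)

omit hσ0 in
/-- asymptotic slope along a face -/
lemma Gf_rec {χ : Fin 3 → ℝ} (hχ : ∀ j, 0 ≤ χ j) (x : Fin 3 → ℝ) :
    Tendsto (fun t : ℝ => Gf F C f h σ0 σ n (x - t • χ) / t) atTop
      (𝓝 (-h (comb σ χ) + ∑ j, χ j * h (toR (σ j)))) := by
  have h1 := Phi_rec hF hC hf hh (σ := σ0) (nT_nonneg n hχ) (nT n x)
  rw [comb_nT hn] at h1
  have h2 : Tendsto (fun t : ℝ => (-∑ j, h (toR (σ j)) * x j) / t) atTop (𝓝 0) :=
    tendsto_const_nhds.div_atTop tendsto_id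
  have h3 := (h1.add_const (∑ j, χ j * h (toR (σ j)))).add h2
  rw [add_zero] at h3
  refine h3.congr' ?_
  filter_upwards [eventually_gt_atTop (0:ℝ)] with t ht
  have e : ∑ j, h (toR (σ j)) * (x - t • χ) j =
      ∑ j, h (toR (σ j)) * x j - t * ∑ j, χ j * h (toR (σ j)) := by
    rw [Finset.mul_sum, ← Finset.sum_sub_distrib]
    refine Finset.sum_congr rfl fun j _ => ?_
    simp only [Pi.sub_apply, Pi.smul_apply, smul_eq_mul]
    ring
  unfold Gf
  rw [nT_sub, nT_smul, e]
  field_simp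
  ring

end

/-- the toric extension of a function of the logarithmic coordinates -/
noncomputable def hat (G : (Fin 3 → ℝ) → ℝ) (z : Fin 3 → ℂ) : EReal :=
  ⨅ m : ℕ, ((G (fun j => Real.log (max ‖z j‖ (Real.exp (-(m : ℝ))))) : ℝ) : EReal)

lemma hat_mono {G : (Fin 3 → ℝ) → ℝ} (hm : Monotone G) {y z : Fin 3 → ℂ}
    (hyz : ∀ j, ‖y j‖ ≤ ‖z j‖) : hat G y ≤ hat G z := by
  refine iInf_mono fun m => EReal.coe_le_coe_iff.mpr (hm fun j => ?_)
  exact Real.log_le_log (lt_of_lt_of_le (Real.exp_pos _) (le_max_right _ _))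
    (max_le_max_right _ (hyz j))

/-- the local potential pulled back -/
noncomputable def potn (C : ℝ) (n : Fin 3 → Fin 3 → ℕ) (y : Fin 3 → ℂ) : ℝ :=
  C * ∑ k, ‖∏ j, y j ^ n j k‖ ^ 2

lemma potn_continuous (C : ℝ) (n : Fin 3 → Fin 3 → ℕ) : Continuous (potn C n) := by
  unfold potn
  fun_prop

/-- Lelong numbers of a toric function -/
lemma lelong_le {G : (Fin 3 → ℝ) → ℝ} (hm : Monotone G) {a : (Fin 3 → ℂ) → ℝ}
    (ha : Continuous a) {b : ℝ} (hb : 0 ≤ b)
    (hG : ∀ (χ x : Fin 3 → ℝ), (∀ j, χ j = 0 ∨ χ j = 1) → ∃ s : ℝ, -b ≤ s ∧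
      Tendsto (fun t : ℝ => G (x - t • χ) / t) atTop (𝓝 s)) (y : Fin 3 → ℂ)
    {R : (Fin 3 → ℂ) → EReal}
    (hR : ∀ᶠ z in 𝓝[{z | ∀ j, z j ≠ 0}] y, hat G z + ((-a z : ℝ) : EReal) ≤ R z) :
    lelong R y ≤ (b : EReal) := by
  unfold lelong
  refine iSup₂_le ?_
  rintro γ ⟨hγ, A, hA⟩
  rw [EReal.coe_le_coe_iff]
  classical
  by_cases hy : ∀ j, y j ≠ 0
  · -- a point of the open orbit
    have hy0 : y ≠ 0 := fun h0 => hy 0 (by rw [h0]; rfl)
    have hny : 0 < ‖y‖ := norm_pos_iff.mpr hy0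
    set z : ℝ → (Fin 3 → ℂ) := fun t => y + ((Real.exp (-t) : ℝ) : ℂ) • y with hz
    have hexp : Tendsto (fun t : ℝ => Real.exp (-t)) atTop (𝓝 0) :=
      Real.tendsto_exp_neg_atTop_nhds_zero
    have hz1 : Tendsto z atTop (𝓝 y) := by
      have h1 : Tendsto (fun t : ℝ => ((Real.exp (-t) : ℝ) : ℂ)) atTop (𝓝 ((0:ℝ):ℂ)) :=
        (Complex.continuous_ofReal.tendsto _).comp hexp
      have h2 := (tendsto_const_nhds (x := y)).add (h1.smul_const y)
      rw [Complex.ofReal_zero, zero_smul, add_zero] at h2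
      exact h2
    have hsub : ∀ t, z t - y = ((Real.exp (-t) : ℝ) : ℂ) • y := by
      intro t; rw [hz]; simp
    have hnorm : ∀ t, ‖z t - y‖ = Real.exp (-t) * ‖y‖ := by
      intro t
      rw [hsub, norm_smul, Complex.norm_real, Real.norm_eq_abs, abs_of_pos (Real.exp_pos _)]
    have hz2 : Tendsto z atTop (𝓝[≠] y) := by
      refine tendsto_nhdsWithin_iff.mpr ⟨hz1, Eventually.of_forall fun t => ?_⟩
      intro heq
      have h1 := hnorm t
      rw [Set.mem_singleton_iff.mp heq, sub_self, norm_zero] at h1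
      have := mul_pos (Real.exp_pos (-t)) hny
      linarith
    have hzn : ∀ t j, ‖y j‖ ≤ ‖z t j‖ := by
      intro t j
      have e : z t j = ((1 + Real.exp (-t) : ℝ) : ℂ) * y j := by
        rw [hz]
        simp only [Pi.add_apply, Pi.smul_apply, smul_eq_mul]
        push_cast
        ring
      rw [e, norm_mul, Complex.norm_real, Real.norm_eq_abs]
      have h1 : 1 ≤ |1 + Real.exp (-t)| := by
        rw [abs_of_pos (by linarith [Real.exp_pos (-t)])]
        linarith [Real.exp_pos (-t)]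
      nlinarith [norm_nonneg (y j)]
    have hzT : Tendsto z atTop (𝓝[{z | ∀ j, z j ≠ 0}] y) := by
      refine tendsto_nhdsWithin_iff.mpr ⟨hz1, Eventually.of_forall fun t => ?_⟩
      intro j hj0
      have h1 := hzn t j
      rw [hj0, norm_zero] at h1
      exact hy j (norm_le_zero_iff.mp h1)
    have hev := (hzT.eventually hR).and (hz2.eventually hA)
    have hev2 : ∀ᶠ t in atTop, a (z t) < a y + 1 :=
      ((ha.tendsto y).comp hz1).eventually (eventually_lt_nhds (by linarith))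
    have hev3 : ∀ᶠ t : ℝ in atTop, G (logc y) - (a y + 1) ≤
        γ * (-t + Real.log ‖y‖) + A := by
      filter_upwards [hev, hev2] with t h0 h2
      have h1 := h0.1.trans h0.2
      have h3 : ((G (logc y) : ℝ) : EReal) ≤ hat G (z t) := by
        have h4 := hat_mono hm (hzn t)
        have h5 : hat G y = ((G (logc y) : ℝ) : EReal) := iInf_toric G hm y hy
        rwa [h5] at h4
      have h4 : ((G (logc y) : ℝ) : EReal) + ((-a (z t) : ℝ) : EReal) ≤
          ((γ * Real.log ‖z t - y‖ + A : ℝ) : EReal) :=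
        (add_le_add h3 le_rfl).trans h1
      rw [← EReal.coe_add, EReal.coe_le_coe_iff, hnorm, Real.log_mul (Real.exp_pos _).ne'
        hny.ne', Real.log_exp] at h4
      linarith
    have hle : γ ≤ 0 := by
      by_contra hcon
      push Not at hcon
      have h6 : Tendsto (fun t : ℝ => γ * (-t + Real.log ‖y‖) + A) atTop atBot := by
        have h7 : Tendsto (fun t : ℝ => -t + Real.log ‖y‖) atTop atBot :=
          tendsto_atBot_add_const_right _ _ tendsto_neg_atTop_atBot
        exact tendsto_atBot_add_const_right _ _ (h7.const_mul_atBot hcon)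
      have h8 := h6.eventually (eventually_lt_atBot (G (logc y) - (a y + 1)))
      obtain ⟨t, h9, h10⟩ := (hev3.and h8).exists
      linarith
    linarith
  · push Not at hy
    obtain ⟨j0, hj0⟩ := hy
    set χ : Fin 3 → ℝ := fun j => if y j = 0 then 1 else 0 with hχ
    have hχ01 : ∀ j, χ j = 0 ∨ χ j = 1 := by
      intro j
      by_cases hj : y j = 0
      · right; simp [hχ, hj]
      · left; simp [hχ, hj]
    set z : ℝ → (Fin 3 → ℂ) := fun t j => if y j = 0 then ((Real.exp (-t) : ℝ) : ℂ) else y j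
      with hz
    have hz1 : Tendsto z atTop (𝓝 y) := by
      rw [tendsto_pi_nhds]
      intro j
      by_cases hj : y j = 0
      · have h1 : Tendsto (fun t : ℝ => ((Real.exp (-t) : ℝ) : ℂ)) atTop (𝓝 ((0:ℝ):ℂ)) :=
          (Complex.continuous_ofReal.tendsto _).comp Real.tendsto_exp_neg_atTop_nhds_zero
        simp only [hz, hj, if_true]
        rw [Complex.ofReal_zero] at h1
        exact h1
      · simp only [hz, if_neg hj]
        exact tendsto_const_nhds
    have hnorm : ∀ t, ‖z t - y‖ = Real.exp (-t) := by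
      intro t
      have hcomp : ∀ j, ‖(z t - y) j‖ = if y j = 0 then Real.exp (-t) else 0 := by
        intro j
        by_cases hj : y j = 0
        · simp only [hz, Pi.sub_apply, hj, if_true, sub_zero]
          rw [Complex.norm_real, Real.norm_eq_abs, abs_of_pos (Real.exp_pos _)]
        · simp [hz, hj]
      apply le_antisymm
      · rw [pi_norm_le_iff_of_nonneg (Real.exp_pos _).le]
        intro j
        rw [hcomp j]
        split_ifs
        · exact le_rfl
        · exact (Real.exp_pos _).le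
      · have := norm_le_pi_norm (z t - y) j0
        rw [hcomp j0, if_pos hj0] at this
        exact this
    have hz2 : Tendsto z atTop (𝓝[≠] y) := by
      refine tendsto_nhdsWithin_iff.mpr ⟨hz1, Eventually.of_forall fun t => ?_⟩
      intro heq
      have h1 := hnorm t
      rw [Set.mem_singleton_iff.mp heq, sub_self, norm_zero] at h1
      have := Real.exp_pos (-t)
      linarith
    have hz0 : ∀ t j, z t j ≠ 0 := by
      intro t j
      by_cases hj : y j = 0
      · simp only [hz, hj, if_true]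
        exact Complex.ofReal_ne_zero.mpr (Real.exp_pos _).ne'
      · simp only [hz, if_neg hj]
        exact hj
    have hlog : ∀ t, logc (z t) = logc y - t • χ := by
      intro t
      funext j
      simp only [logc, Pi.sub_apply, Pi.smul_apply, smul_eq_mul]
      by_cases hj : y j = 0
      · simp only [hz, hχ, hj, if_true, norm_zero, Real.log_zero]
        rw [Complex.norm_real, Real.norm_eq_abs, abs_of_pos (Real.exp_pos _), Real.log_exp]
        ring
      · simp [hz, hχ, hj]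
    obtain ⟨s, hs, hlim⟩ := hG χ (logc y) hχ01
    have hzT : Tendsto z atTop (𝓝[{z | ∀ j, z j ≠ 0}] y) :=
      tendsto_nhdsWithin_iff.mpr ⟨hz1, Eventually.of_forall fun t => hz0 t⟩
    have hev := (hzT.eventually hR).and (hz2.eventually hA)
    have hev2 : ∀ᶠ t in atTop, a (z t) < a y + 1 :=
      ((ha.tendsto y).comp hz1).eventually (eventually_lt_nhds (by linarith))
    have hlim2 : Tendsto (fun t : ℝ => -γ + (a y + 1 + A) / t) atTop (𝓝 (-γ + 0)) :=
      tendsto_const_nhds.add (tendsto_const_nhds.div_atTop tendsto_id)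
    have hle : s ≤ -γ + 0 := by
      refine le_of_tendsto_of_tendsto hlim hlim2 ?_
      filter_upwards [hev, hev2, eventually_gt_atTop (0:ℝ)] with t h0 h2 ht
      have h1 := h0.1.trans h0.2
      have h3 : hat G (z t) = ((G (logc (z t)) : ℝ) : EReal) := iInf_toric G hm (z t) (hz0 t)
      rw [h3, ← EReal.coe_add, EReal.coe_le_coe_iff, hnorm, Real.log_exp, hlog] at h1
      rw [div_le_iff₀ ht, add_mul, div_mul_cancel₀ _ ht.ne']
      linarith
    linarith

end Pool.Agent.TD47
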