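import Mathlib

/-!
# Convex functions on `ℝ³`: local to global, extension, Lipschitz bounds
-/

open scoped Topology

namespace Pool.Agent.TD47

/-- the `ℓ¹` norm -/
def l1 (x : Fin 3 → ℝ) : ℝ := ∑ j, |x j|

lemma l1_nonneg (x : Fin 3 → ℝ) : 0 ≤ l1 x := Finset.sum_nonneg fun _ _ => abs_nonneg _

lemma l1_add_le (x y : Fin 3 → ℝ) : l1 (x + y) ≤ l1 x + l1 y := by
  unfold l1
  rw [← Finset.sum_add_distrib]
  exact Finset.sum_le_sum fun j _ => abs_add_le _ _

lemma l1_neg (x : Fin 3 → ℝ) : l1 (-x) = l1 x := by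
  unfold l1; simp

lemma l1_smul (c : ℝ) (x : Fin 3 → ℝ) : l1 (c • x) = |c| * l1 x := by
  unfold l1
  rw [Finset.mul_sum]
  exact Finset.sum_congr rfl fun j _ => by rw [Pi.smul_apply, smul_eq_mul, abs_mul]

/-- a locally convex function on `ℝ³` is convex -/
lemma convexOn_univ_of_local (f : (Fin 3 → ℝ) → ℝ)
    (h : ∀ x, ∃ U : Set (Fin 3 → ℝ), IsOpen U ∧ x ∈ U ∧ ConvexOn ℝ U f) :
    ConvexOn ℝ Set.univ f := by
  have hcont : Continuous f := by
    rw [continuous_iff_continuousAt]
    intro x
    obtain ⟨U, hU, hx, hc⟩ := h x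
    exact (hc.continuousOn hU).continuousAt (hU.mem_nhds hx)
  refine ⟨convex_univ, ?_⟩
  intro x _ y _ a b ha hb hab
  by_contra hcon
  push Not at hcon
  set k : ℝ → ℝ := fun c => f (x + c • (y - x)) - (f x + c * (f y - f x)) with hk
  have hkc : Continuous k := by
    rw [hk]
    fun_prop
  have hk0 : k 0 = 0 := by simp [hk]
  have hk1 : k 1 = 0 := by simp [hk]
  have hkb : 0 < k b := by
    have e : a • x + b • y = x + b • (y - x) := by
      have : a = 1 - b := by linarith
      rw [this]
      module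
    rw [e] at hcon
    simp only [hk, smul_eq_mul] at hcon ⊢
    have : a = 1 - b := by linarith
    rw [this] at hcon
    linarith
  obtain ⟨c0, hc0, hmax⟩ := isCompact_Icc.exists_isMaxOn (⟨b, hb, by linarith⟩ :
    (Set.Icc (0:ℝ) 1).Nonempty) hkc.continuousOn
  have hmax' : ∀ c ∈ Set.Icc (0:ℝ) 1, k c ≤ k c0 := fun c hc => hmax hc
  have hm : 0 < k c0 := lt_of_lt_of_le hkb (hmax' b ⟨hb, by linarith⟩)
  have hS : IsCompact (Set.Icc (0 : ℝ) 1 ∩ k ⁻¹' Set.Ici (k c0)) :=
    isCompact_Icc.inter_right (isClosed_Ici.preimage hkc)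
  obtain ⟨c, hcS, hcmax⟩ := hS.exists_isGreatest ⟨c0, hc0, show k c0 ≤ k c0 from le_rfl⟩
  obtain ⟨hcI, hcm⟩ := hcS
  have hcm' : k c = k c0 := le_antisymm (hmax' c hcI) hcm
  have hc0' : c ≠ 0 := by rintro rfl; linarith
  have hc1' : c ≠ 1 := by rintro rfl; linarith
  have hcpos : 0 < c := lt_of_le_of_ne hcI.1 (Ne.symm hc0')
  have hclt : c < 1 := lt_of_le_of_ne hcI.2 hc1'
  obtain ⟨U, hU, hx, hc⟩ := h (x + c • (y - x))
  have hline : Continuous (fun s : ℝ => x + s • (y - x)) := by fun_prop
  have hnh : (fun s : ℝ => x + s • (y - x)) ⁻¹' U ∈ 𝓝 c :=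
    hline.continuousAt.preimage_mem_nhds (hU.mem_nhds hx)
  obtain ⟨ρ, hρ, hball⟩ := Metric.mem_nhds_iff.mp hnh
  obtain ⟨δ, hδ, hδρ, hδc, hδ1⟩ : ∃ δ : ℝ, 0 < δ ∧ δ < ρ ∧ δ ≤ c ∧ δ ≤ 1 - c := by
    refine ⟨min (ρ / 2) (min c (1 - c)), lt_min (by linarith) (lt_min hcpos (by linarith)),
      lt_of_le_of_lt (min_le_left _ _) (by linarith),
      (min_le_right _ _).trans (min_le_left _ _), (min_le_right _ _).trans (min_le_right _ _)⟩
  have hp : x + (c + δ) • (y - x) ∈ U := hball (by
    rw [Metric.mem_ball, Real.dist_eq]; rw [add_sub_cancel_left, abs_of_pos hδ]; exact hδρ)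
  have hn : x + (c - δ) • (y - x) ∈ U := hball (by
    rw [Metric.mem_ball, Real.dist_eq, sub_sub_cancel_left, abs_neg, abs_of_pos hδ]; exact hδρ)
  have hmid := hc.2 hn hp (by norm_num : (0:ℝ) ≤ 1 / 2) (by norm_num : (0:ℝ) ≤ 1 / 2)
    (by norm_num)
  have e : (1 / 2 : ℝ) • (x + (c - δ) • (y - x)) + (1 / 2 : ℝ) • (x + (c + δ) • (y - x)) =
      x + c • (y - x) := by module
  rw [e] at hmid
  have h1 : k (c - δ) ≤ k c0 := hmax' _ ⟨by linarith, by linarith⟩
  have h2 : k (c + δ) < k c0 := by
    refine lt_of_le_of_ne (hmax' _ ⟨by linarith, by linarith⟩) ?_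
    intro heq
    have := hcmax ⟨⟨by linarith, by linarith⟩, heq.ge⟩
    linarith
  simp only [hk, smul_eq_mul] at hmid h1 h2 hcm' ⊢
  linarith

/-- extension of a function on `{x_j ≤ a}` to `ℝ³` -/
noncomputable def ext (a B : ℝ) (G : (Fin 3 → ℝ) → ℝ) (x : Fin 3 → ℝ) : ℝ :=
  G (fun j => min (x j) a) + B * ∑ j, max (x j - a) 0

section ext

variable {a B : ℝ} {G : (Fin 3 → ℝ) → ℝ}

lemma ext_eq {x : Fin 3 → ℝ} (hx : ∀ j, x j ≤ a) : ext a B G x = G x := by
  unfold ext
  have e1 : (fun j => min (x j) a) = x := by funext j; exact min_eq_left (hx j)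
  have e2 : ∑ j, max (x j - a) 0 = 0 := Finset.sum_eq_zero fun j _ => max_eq_right (by
    have := hx j; linarith)
  rw [e1, e2, mul_zero, add_zero]

variable (hB : 0 ≤ B) (hc : ConvexOn ℝ {x | ∀ j, x j ≤ a} G)
  (hm : MonotoneOn G {x | ∀ j, x j ≤ a})
  (hL : ∀ x z : Fin 3 → ℝ, (∀ j, x j ≤ a) → (∀ j, z j ≤ a) → G x ≤ G z + B * l1 (x - z))

include hB hm hL

omit hB in
lemma ext_key {w z : Fin 3 → ℝ} (hz : ∀ j, z j ≤ a) :
    ext a B G w ≤ G z + B * ∑ j, max (w j - z j) 0 := by
  set w' : Fin 3 → ℝ := fun j => min (w j) a with hw'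
  have hw'a : ∀ j, w' j ≤ a := fun j => min_le_right _ _
  set v : Fin 3 → ℝ := fun j => max (w' j) (z j) with hv
  have hva : ∀ j, v j ≤ a := fun j => max_le (hw'a j) (hz j)
  have h1 : G w' ≤ G v := hm hw'a hva (fun j => le_max_left _ _)
  have h2 := hL v z hva hz
  have h3 : l1 (v - z) = ∑ j, max (w' j - z j) 0 := by
    unfold l1
    refine Finset.sum_congr rfl fun j _ => ?_
    rw [Pi.sub_apply, hv]
    simp only
    rcases le_total (w' j) (z j) with h | h
    · rw [max_eq_right h, sub_self, abs_zero, max_eq_right (by linarith)]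
    · rw [max_eq_left h, abs_of_nonneg (by linarith), max_eq_left (by linarith)]
  have h4 : ∑ j, max (w' j - z j) 0 + ∑ j, max (w j - a) 0 = ∑ j, max (w j - z j) 0 := by
    rw [← Finset.sum_add_distrib]
    refine Finset.sum_congr rfl fun j _ => ?_
    have hzj := hz j
    rw [hw']
    simp only
    rcases le_total (w j) a with h | h
    · rw [min_eq_left h, max_eq_right (a := w j - a) (by linarith), add_zero]
    · rw [min_eq_right h, max_eq_left (a := a - z j) (by linarith),
        max_eq_left (a := w j - a) (by linarith), max_eq_left (a := w j - z j) (by linarith)]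
      ring
  unfold ext
  rw [← h4, mul_add]
  rw [h3] at h2
  have : G (fun j => min (w j) a) = G w' := rfl
  rw [this]
  linarith

omit hB in
include hc in
lemma ext_convex : ConvexOn ℝ Set.univ (ext a B G) := by
  refine ⟨convex_univ, ?_⟩
  intro x _ y _ s t hs ht hst
  set x' : Fin 3 → ℝ := fun j => min (x j) a with hx'
  set y' : Fin 3 → ℝ := fun j => min (y j) a with hy'
  have hxa : ∀ j, x' j ≤ a := fun j => min_le_right _ _
  have hya : ∀ j, y' j ≤ a := fun j => min_le_right _ _
  have hz : ∀ j, (s • x' + t • y') j ≤ a := by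
    intro j
    simp only [Pi.add_apply, Pi.smul_apply, smul_eq_mul]
    have h1 := mul_le_mul_of_nonneg_left (hxa j) hs
    have h2 := mul_le_mul_of_nonneg_left (hya j) ht
    have h3 : s * a + t * a = a := by rw [← add_mul, hst, one_mul]
    linarith
  have key := ext_key hm hL (w := s • x + t • y) hz
  have hconv := hc.2 (x := x') hxa (y := y') hya hs ht hst
  have e : ∑ j, max ((s • x + t • y) j - (s • x' + t • y') j) 0 =
      s * ∑ j, max (x j - a) 0 + t * ∑ j, max (y j - a) 0 := by
    rw [Finset.mul_sum, Finset.mul_sum, ← Finset.sum_add_distrib]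
    refine Finset.sum_congr rfl fun j _ => ?_
    have hmx : x j - x' j = max (x j - a) 0 := by
      rw [hx']; simp only
      rcases le_total (x j) a with h | h
      · rw [min_eq_left h, max_eq_right (by linarith)]; ring
      · rw [min_eq_right h, max_eq_left (by linarith)]
    have hmy : y j - y' j = max (y j - a) 0 := by
      rw [hy']; simp only
      rcases le_total (y j) a with h | h
      · rw [min_eq_left h, max_eq_right (by linarith)]; ring
      · rw [min_eq_right h, max_eq_left (by linarith)]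
    have h1 : (s • x + t • y) j - (s • x' + t • y') j =
        s * max (x j - a) 0 + t * max (y j - a) 0 := by
      rw [← hmx, ← hmy]
      simp only [Pi.add_apply, Pi.smul_apply, smul_eq_mul]
      ring
    rw [h1, max_eq_left]
    exact add_nonneg (mul_nonneg hs (le_max_right _ _)) (mul_nonneg ht (le_max_right _ _))
  rw [e] at key
  refine key.trans ?_
  simp only [smul_eq_mul] at hconv ⊢
  unfold ext
  have e1 : G (fun j => min (x j) a) = G x' := rfl
  have e2 : G (fun j => min (y j) a) = G y' := rfl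
  rw [e1, e2]
  nlinarith [hconv]

omit hL in
lemma ext_mono : Monotone (ext a B G) := by
  intro x y hxy
  unfold ext
  refine add_le_add (hm (fun j => min_le_right _ _) (fun j => min_le_right _ _)
    (fun j => min_le_min_right _ (hxy j))) ?_
  refine mul_le_mul_of_nonneg_left (Finset.sum_le_sum fun j _ => ?_) hB
  exact max_le_max_right _ (by linarith [hxy j])

omit hm in
lemma ext_lip (x y : Fin 3 → ℝ) : |ext a B G x - ext a B G y| ≤ 2 * B * l1 (x - y) := by
  have main : ∀ x y : Fin 3 → ℝ, ext a B G x - ext a B G y ≤ 2 * B * l1 (x - y) := by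
    intro x y
    unfold ext
    have h1 := hL (fun j => min (x j) a) (fun j => min (y j) a) (fun j => min_le_right _ _)
      (fun j => min_le_right _ _)
    have h2 : l1 ((fun j => min (x j) a) - (fun j => min (y j) a)) ≤ l1 (x - y) := by
      unfold l1
      refine Finset.sum_le_sum fun j _ => ?_
      simp only [Pi.sub_apply]
      exact abs_min_sub_min_le_max (x j) a (y j) a |>.trans (by simp)
    have h3 : ∑ j, max (x j - a) 0 - ∑ j, max (y j - a) 0 ≤ l1 (x - y) := by
      unfold l1
      rw [← Finset.sum_sub_distrib]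
      refine Finset.sum_le_sum fun j _ => ?_
      have := abs_max_sub_max_le_abs (x j - a) (y j - a) 0
      rw [sub_sub_sub_cancel_right] at this
      exact (le_abs_self _).trans this
    have h4 := mul_le_mul_of_nonneg_left h2 hB
    have h5 := mul_le_mul_of_nonneg_left h3 hB
    rw [mul_sub] at h5
    linarith
  rw [abs_le]
  constructor
  · have := main y x
    have e : l1 (y - x) = l1 (x - y) := by rw [← l1_neg]; congr 1; abel
    rw [e] at this
    linarith
  · exact main x y

end ext

/-- a convex function of at most linear growth is Lipschitz -/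
lemma lip_of_bound {f : (Fin 3 → ℝ) → ℝ} (hc : ConvexOn ℝ Set.univ f) {K0 K1 : ℝ}
    (hb : ∀ x, f x ≤ K0 + K1 * l1 x) (x w : Fin 3 → ℝ) : f (x + w) ≤ f x + K1 * l1 w := by
  by_contra hcon
  push Not at hcon
  -- `t` large
  set D := f (x + w) - f x - K1 * l1 w with hD
  have hDpos : 0 < D := by linarith
  have hK1 : ∀ t : ℝ, 1 ≤ t → t * D ≤ K0 + K1 * l1 (x + t • w) - K1 * (t * l1 w) - f x := by
    intro t ht
    have h0 : (0:ℝ) < t := by linarith
    have hconv := hc.2 (Set.mem_univ x) (Set.mem_univ (x + t • w))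
      (show (0:ℝ) ≤ 1 - 1 / t by rw [sub_nonneg, div_le_one h0]; exact ht)
      (show (0:ℝ) ≤ 1 / t by positivity) (by ring)
    have e : (1 - 1 / t) • x + (1 / t) • (x + t • w) = x + w := by
      rw [smul_add, smul_smul, one_div, inv_mul_cancel₀ h0.ne']
      module
    rw [e] at hconv
    simp only [smul_eq_mul] at hconv
    have h1 : t * f (x + w) ≤ (t - 1) * f x + f (x + t • w) := by
      have := mul_le_mul_of_nonneg_left hconv h0.le
      have e2 : t * ((1 - 1 / t) * f x + 1 / t * f (x + t • w)) =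
          (t - 1) * f x + f (x + t • w) := by field_simp
      rw [e2] at this
      exact this
    have h2 := hb (x + t • w)
    rw [hD]
    nlinarith
  have hK1' : ∀ t : ℝ, 1 ≤ t → t * D ≤ K0 + |K1| * l1 x - f x := by
    intro t ht
    have h0 : (0:ℝ) < t := by linarith
    have h := hK1 t ht
    have h2 : K1 * l1 (x + t • w) - K1 * (t * l1 w) ≤ |K1| * l1 x := by
      have e : l1 (t • w) = t * l1 w := by rw [l1_smul, abs_of_pos h0]
      have h3 : |l1 (x + t • w) - l1 (t • w)| ≤ l1 x := by
        rw [abs_le]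
        constructor
        · have := l1_add_le (x + t • w) (-x)
          rw [l1_neg] at this
          have e3 : x + t • w + -x = t • w := by abel
          rw [e3] at this
          linarith
        · have := l1_add_le x (t • w)
          linarith
      rw [← e, ← mul_sub]
      calc K1 * (l1 (x + t • w) - l1 (t • w)) ≤ |K1 * (l1 (x + t • w) - l1 (t • w))| :=
            le_abs_self _
        _ = |K1| * |l1 (x + t • w) - l1 (t • w)| := abs_mul _ _
        _ ≤ |K1| * l1 x := mul_le_mul_of_nonneg_left h3 (abs_nonneg _)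
    linarith
  obtain ⟨t, ht⟩ := exists_nat_gt ((K0 + |K1| * l1 x - f x) / D)
  have h1 := hK1' (max (t:ℝ) 1) (le_max_right _ _)
  rw [div_lt_iff₀ hDpos] at ht
  have h2 : (t:ℝ) * D ≤ max (t:ℝ) 1 * D := mul_le_mul_of_nonneg_right (le_max_left _ _) hDpos.le
  linarith

end Pool.Agent.TD47
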