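import Pool.Agent.TD47.Term
import Pool.Agent.TD47.Defs

/-!
# Fine fans
-/

namespace Pool.Agent.TD47

/-- integer vector as a real vector -/
def toR (u : Fin 3 → ℤ) : V3 := fun i => (u i : ℝ)

lemma toR_add (u v : Fin 3 → ℤ) : toR (u + v) = toR u + toR v := by
  funext i; simp [toR]

/-- nonnegative integral combination of the rays of a cone -/
def nc (σ : Cone3) (n : Fin 3 → ℕ) : Fin 3 → ℤ := fun i => ∑ k, (n k : ℤ) * σ k i

lemma nc_add (σ : Cone3) (n n' : Fin 3 → ℕ) : nc σ (n + n') = nc σ n + nc σ n' := by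
  funext i
  simp only [nc, Pi.add_apply, ← Finset.sum_add_distrib]
  apply Finset.sum_congr rfl
  intro k _
  push_cast; ring

/-- sum of the entries -/
def sm (n : Fin 3 → ℕ) : ℕ := ∑ k, n k

lemma sm_add (n n' : Fin 3 → ℕ) : sm (n + n') = sm n + sm n' := by
  simp only [sm, Pi.add_apply, Finset.sum_add_distrib]

lemma comb_nat (σ : Cone3) (n : Fin 3 → ℕ) : comb σ (fun k => (n k : ℝ)) = toR (nc σ n) := by
  funext i
  simp only [comb, toR, nc]
  push_cast
  rfl

/-- real determinant of a cone -/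
noncomputable def deR (σ : Cone3) : ℝ := de (toR (σ 0)) (toR (σ 1)) (toR (σ 2))

lemma deR_eq (σ : Cone3) : deR σ = ((Matrix.det (Matrix.of σ) : ℤ) : ℝ) := by
  rw [Matrix.det_fin_three]
  simp only [deR, de_expand, toR, Matrix.of_apply]
  push_cast
  ring

lemma IsFan.abs_deR {F : Finset Cone3} (hF : IsFan F) {σ : Cone3} (hσ : σ ∈ F) :
    |deR σ| = 1 := by
  rw [deR_eq]
  rcases hF.unimod σ hσ with h | h <;> rw [h] <;> simp

lemma IsFan.inj {F : Finset Cone3} (hF : IsFan F) {σ : Cone3} (hσ : σ ∈ F) {i j : Fin 3}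
    (h : σ i = σ j) : i = j := by
  by_contra hij
  have h0 : Matrix.det (Matrix.of σ) = 0 := Matrix.det_zero_of_row_eq hij h
  rcases hF.unimod σ hσ with h1 | h1 <;> rw [h0] at h1 <;> norm_num at h1

lemma IsFan.sum_le {F : Finset Cone3} (hF : IsFan F) {σ τ : Cone3} (hσ : σ ∈ F) (hτ : τ ∈ F)
    {n n' : Fin 3 → ℕ} (h : nc σ n = nc τ n') : sm n ≤ sm n' := by
  have hc : comb σ (fun k => (n k : ℝ)) = comb τ (fun k => (n' k : ℝ)) := by
    rw [comb_nat, comb_nat, h]
  have hface := hF.face σ hσ τ hτ _ _ (fun j => Nat.cast_nonneg _) (fun j => Nat.cast_nonneg _) hc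
  have hface' : ∀ j, n j ≠ 0 → ∃ k, σ j = τ k ∧ n j = n' k := by
    intro j hj
    obtain ⟨k, h1, h2⟩ := hface j (by exact_mod_cast hj)
    exact ⟨k, h1, by exact_mod_cast h2⟩
  classical
  choose! g hg using hface'
  have hinj : Set.InjOn g (Finset.univ.filter (fun j => n j ≠ 0) : Finset (Fin 3)) := by
    intro a ha b hb hab
    simp only [Finset.coe_filter, Finset.mem_univ, true_and, Set.mem_ofPred_eq] at ha hb
    apply hF.inj hσ
    rw [(hg a ha).1, (hg b hb).1, hab]
  calc sm n = ∑ j ∈ Finset.univ.filter (fun j => n j ≠ 0), n j := by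
        rw [sm, Finset.sum_filter_ne_zero]
    _ = ∑ j ∈ Finset.univ.filter (fun j => n j ≠ 0), n' (g j) := by
        apply Finset.sum_congr rfl
        intro j hj
        exact (hg j (by simpa using hj)).2
    _ = ∑ k ∈ (Finset.univ.filter (fun j => n j ≠ 0)).image g, n' k := by
        rw [Finset.sum_image hinj]
    _ ≤ sm n' := Finset.sum_le_sum_of_subset (Finset.subset_univ _)

open Classical in
/-- the weight of a lattice point: sum of its coordinates in a cone containing it -/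
noncomputable def wtn (F : Finset Cone3) (u : Fin 3 → ℤ) : ℕ :=
  if h : ∃ σ ∈ F, ∃ n, u = nc σ n then sm h.choose_spec.2.choose else 0

lemma IsFan.wtn_eq {F : Finset Cone3} (hF : IsFan F) {σ : Cone3} (hσ : σ ∈ F)
    (n : Fin 3 → ℕ) : wtn F (nc σ n) = sm n := by
  have h : ∃ τ ∈ F, ∃ n', nc σ n = nc τ n' := ⟨σ, hσ, n, rfl⟩
  rw [wtn, dif_pos h]
  have hτ := h.choose_spec.1
  have hn := h.choose_spec.2.choose_spec
  exact le_antisymm (hF.sum_le hτ hσ hn.symm) (hF.sum_le hσ hτ hn)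

/-- weight functional of a cone -/
noncomputable def lam (σ : Cone3) : V3 :=
  deR σ • (cr (toR (σ 1)) (toR (σ 2)) + cr (toR (σ 2)) (toR (σ 0)) + cr (toR (σ 0)) (toR (σ 1)))

lemma lam_ray {σ : Cone3} (h : |deR σ| = 1) (k : Fin 3) : dt (lam σ) (toR (σ k)) = 1 := by
  have h2 : deR σ * deR σ = 1 := by
    rw [← abs_mul_abs_self, h, one_mul]
  have : dt (lam σ) (toR (σ k)) = deR σ * deR σ := by
    rw [dt_comm, lam, dt_smul]
    congr 1
    rw [deR]
    fin_cases k <;> simp only [de_expand, dt, cr_0, cr_1, cr_2, Pi.add_apply, Fin.zero_eta,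
      Fin.mk_one, Fin.reduceFinMk] <;> ring
  rw [this, h2]

lemma toR_nc (σ : Cone3) (n : Fin 3 → ℕ) :
    toR (nc σ n) = (n 0 : ℝ) • toR (σ 0) + (n 1 : ℝ) • toR (σ 1) + (n 2 : ℝ) • toR (σ 2) := by
  funext i
  simp only [toR, nc, Fin.sum_univ_three, Pi.add_apply, Pi.smul_apply, smul_eq_mul]
  push_cast
  ring

lemma dt_lam_nc {σ : Cone3} (h : |deR σ| = 1) (n : Fin 3 → ℕ) :
    dt (lam σ) (toR (nc σ n)) = (sm n : ℝ) := by
  rw [toR_nc, dt_add, dt_add, dt_smul, dt_smul, dt_smul, lam_ray h, lam_ray h, lam_ray h]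
  simp only [sm, Fin.sum_univ_three]
  push_cast
  ring

/-- `σ` is a unimodular cone inside a cone of `F` -/
def Inv0 (F : Finset Cone3) (σ : Cone3) : Prop :=
  |deR σ| = 1 ∧ ∃ σ0 ∈ F, ∃ n : Fin 3 → Fin 3 → ℕ, ∀ j, σ j = nc σ0 (n j)

lemma deR_update {σ : Cone3} {i j : Fin 3} (hij : i ≠ j) :
    deR (Function.update σ i (σ i + σ j)) = deR σ := by
  fin_cases i <;> fin_cases j <;>
    simp only [Fin.zero_eta, Fin.mk_one, Fin.reduceFinMk, ne_eq, not_true_eq_false] at hij <;>
    simp only [deR, Function.update, Fin.zero_eta, Fin.mk_one, Fin.reduceFinMk, Fin.isValue,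
      dite_true, dite_false, eq_rec_constant, one_ne_zero, zero_ne_one, Fin.reduceEq, toR_add] <;>
    simp only [de_expand, Pi.add_apply] <;> ring

lemma Inv0.child {F : Finset Cone3} {σ : Cone3} (h : Inv0 F σ) {i j : Fin 3} (hij : i ≠ j) :
    Inv0 F (Function.update σ i (σ i + σ j)) := by
  obtain ⟨h1, σ0, h2, n, h3⟩ := h
  refine ⟨by rw [deR_update hij]; exact h1, σ0, h2, Function.update n i (n i + n j), ?_⟩
  intro k
  by_cases hk : k = i
  · subst hk
    simp only [Function.update_self, nc_add, h3]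
  · simp only [Function.update_of_ne hk, h3]

end Pool.Agent.TD47
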