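import Pool.Agent.TD47.Glob

/-!
# Fans with arbitrarily fine two-dimensional cones
-/

namespace Pool.Agent.TD47

/-- relative size of the two-dimensional cone spanned by `u, v` -/
noncomputable def mug (F : Finset Cone3) (u v : Fin 3 → ℤ) : ℝ :=
  ed (toR u) (toR v) / ((wtn F u : ℝ) + (wtn F v : ℝ))

lemma mug_comm (F : Finset Cone3) (u v : Fin 3 → ℤ) : mug F u v = mug F v u := by
  unfold mug; rw [ed_comm, add_comm]

lemma mug_self (F : Finset Cone3) (u : Fin 3 → ℤ) : mug F u u = 0 := by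
  unfold mug ed
  rw [cr_self]
  have : nr (0 : V3) = 0 := by simp [nr, dt]
  rw [this, zero_div]

/-- the pair `i, j` of rays of `σ` is a largest one, and larger than `δ` -/
def chI (F : Finset Cone3) (δ : ℝ) (σ : Cone3) (i j : Fin 3) : Prop :=
  i ≠ j ∧ δ < mug F (σ i) (σ j) ∧ ∀ a b, a ≠ b → mug F (σ a) (σ b) ≤ mug F (σ i) (σ j)

lemma chI_symm {F : Finset Cone3} {δ : ℝ} {σ : Cone3} {i j : Fin 3} (h : chI F δ σ i j) :
    chI F δ σ j i := by
  obtain ⟨h1, h2, h3⟩ := h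
  refine ⟨h1.symm, by rw [mug_comm]; exact h2, ?_⟩
  intro a b hab
  rw [mug_comm F (σ j) (σ i)]
  exact h3 a b hab

/-- all greedy chains starting at `σ` have length at most `n` -/
def BdI (F : Finset Cone3) (δ : ℝ) : ℕ → Cone3 → Prop
  | 0, σ => ∀ i j, ¬ chI F δ σ i j
  | n + 1, σ => ∀ i j, chI F δ σ i j → BdI F δ n (Function.update σ i (σ i + σ j))

lemma BdI_succ {F : Finset Cone3} {δ : ℝ} : ∀ (n : ℕ) (σ : Cone3), BdI F δ n σ →
    BdI F δ (n + 1) σ := by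
  intro n
  induction n with
  | zero => intro σ h i j hc; exact absurd hc (h i j)
  | succ n ih => intro σ h i j hc; exact ih _ (h i j hc)

lemma BdI_mono {F : Finset Cone3} {δ : ℝ} {n n' : ℕ} (h : n ≤ n') {σ : Cone3}
    (hb : BdI F δ n σ) : BdI F δ n' σ := by
  induction h with
  | refl => exact hb
  | step _ ih => exact BdI_succ _ _ ih

section transfer

variable {F : Finset Cone3} (hF : IsFan F) {δ : ℝ} {σ0 : Cone3} (hσ0 : σ0 ∈ F)

include hF hσ0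

lemma wt_eq {σ : Cone3} {n : Fin 3 → Fin 3 → ℕ} (hn : ∀ j, σ j = nc σ0 (n j)) (j : Fin 3) :
    dt (lam σ0) (toR (σ j)) = (wtn F (σ j) : ℝ) := by
  rw [hn j, dt_lam_nc (hF.abs_deR hσ0), hF.wtn_eq hσ0]

lemma mu_eq_mug {σ : Cone3} {n : Fin 3 → Fin 3 → ℕ} (hn : ∀ j, σ j = nc σ0 (n j)) (i j : Fin 3) :
    mu (lam σ0) (toR (σ i)) (toR (σ j)) = mug F (σ i) (σ j) := by
  unfold mu mug
  rw [wt_eq hF hσ0 hn, wt_eq hF hσ0 hn]

omit hF hσ0 in
lemma nc_child {σ : Cone3} {n : Fin 3 → Fin 3 → ℕ} (hn : ∀ j, σ j = nc σ0 (n j)) (i j : Fin 3) :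
    ∃ n' : Fin 3 → Fin 3 → ℕ, ∀ k, Function.update σ i (σ i + σ j) k = nc σ0 (n' k) := by
  refine ⟨Function.update n i (n i + n j), ?_⟩
  intro k
  by_cases hk : k = i
  · subst hk
    simp only [Function.update_self, nc_add, hn]
  · simp only [Function.update_of_ne hk, hn]

lemma ter_bd {x y z : V3} (h : Ter (lam σ0) δ x y z) : ∀ σ : Cone3, toR (σ 0) = x →
    toR (σ 1) = y → toR (σ 2) = z → (∃ n : Fin 3 → Fin 3 → ℕ, ∀ j, σ j = nc σ0 (n j)) →
    ∃ n, BdI F δ n σ := by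
  induction h with
  | mk x y z h1 h2 h3 h4 h5 h6 i1 i2 i3 i4 i5 i6 =>
    intro σ hx hy hz hn
    obtain ⟨n, hn⟩ := hn
    have hch : ∀ a b c : Fin 3, a ≠ c → b ≠ c → chI F δ σ a b →
        ch (lam σ0) δ (toR (σ a)) (toR (σ b)) (toR (σ c)) := by
      intro a b c hac hbc hc
      refine ⟨?_, ?_, ?_⟩
      · rw [mu_eq_mug hF hσ0 hn]; exact hc.2.1
      · rw [mu_eq_mug hF hσ0 hn, mu_eq_mug hF hσ0 hn]; exact hc.2.2 a c hac
      · rw [mu_eq_mug hF hσ0 hn, mu_eq_mug hF hσ0 hn]; exact hc.2.2 b c hbc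
    have key : ∀ i j : Fin 3, ∃ k, chI F δ σ i j →
        BdI F δ k (Function.update σ i (σ i + σ j)) := by
      intro i j
      by_cases hc : chI F δ σ i j
      · have hij := hc.1
        have hex := nc_child hn i j
        have hkey : ∃ k, BdI F δ k (Function.update σ i (σ i + σ j)) := by
          fin_cases i <;> fin_cases j <;>
            simp only [Fin.zero_eta, Fin.mk_one, Fin.reduceFinMk, ne_eq,
              not_true_eq_false] at hij hc hex ⊢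
          · apply i1 (by rw [← hx, ← hy, ← hz]; exact hch 0 1 2 (by decide) (by decide) hc) _
              (by simp [toR_add, hx, hy]) (by simp [hy]) (by simp [hz]) hex
          · apply i3 (by rw [← hx, ← hy, ← hz]; exact hch 0 2 1 (by decide) (by decide) hc) _
              (by simp [toR_add, hx, hz]) (by simp [hy]) (by simp [hz]) hex
          · apply i2 (by rw [← hx, ← hy, ← hz]; exact hch 0 1 2 (by decide) (by decide) (chI_symm hc)) _
              (by simp [hx]) (by simp [toR_add, hx, hy, add_comm]) (by simp [hz]) hex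
          · apply i5 (by rw [← hx, ← hy, ← hz]; exact hch 1 2 0 (by decide) (by decide) hc) _
              (by simp [hx]) (by simp [toR_add, hy, hz]) (by simp [hz]) hex
          · apply i4 (by rw [← hx, ← hy, ← hz]; exact hch 0 2 1 (by decide) (by decide) (chI_symm hc)) _
              (by simp [hx]) (by simp [hy]) (by simp [toR_add, hx, hz, add_comm]) hex
          · apply i6 (by rw [← hx, ← hy, ← hz]; exact hch 1 2 0 (by decide) (by decide) (chI_symm hc)) _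
              (by simp [hx]) (by simp [hy]) (by simp [toR_add, hy, hz, add_comm]) hex
        obtain ⟨k, hk⟩ := hkey
        exact ⟨k, fun _ => hk⟩
      · exact ⟨0, fun h => absurd h hc⟩
    choose k hk using key
    refine ⟨(Finset.univ.sup (fun p : Fin 3 × Fin 3 => k p.1 p.2)) + 1, ?_⟩
    intro i j hc
    refine BdI_mono ?_ (hk i j hc)
    exact Finset.le_sup (f := fun p : Fin 3 × Fin 3 => k p.1 p.2) (Finset.mem_univ (i, j))

end transfer

section stage1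

variable {F : Finset Cone3} (hF : IsFan F) {δ : ℝ} {N T : ℝ}

/-- invariant of stage 1 -/
def Inv1 (F : Finset Cone3) (K : ℕ) (σ : Cone3) : Prop :=
  Inv0 F σ ∧ ∀ i j, i ≠ j → K < wtn F (σ i) + wtn F (σ j)

include hF

lemma Inv1.child {K : ℕ} {σ : Cone3} (h : Inv1 F K σ) {i j : Fin 3} (hij : i ≠ j) :
    Inv1 F K (Function.update σ i (σ i + σ j)) := by
  refine ⟨h.1.child hij, ?_⟩
  intro a b hab
  have hadd := h.1.wt_add hF i j
  have hge : ∀ c, wtn F (σ c) ≤ wtn F (Function.update σ i (σ i + σ j) c) := by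
    intro c
    by_cases hc : c = i
    · subst hc; rw [Function.update_self, hadd]; omega
    · rw [Function.update_of_ne hc]
  have := h.2 a b hab
  have h1 := hge a
  have h2 := hge b
  omega

lemma exists_bd (hP : ∀ σ0 ∈ F, Par (lam σ0) N T δ)
    (hN : ∀ σ0 ∈ F, ∀ k, nr (toR (σ0 k)) ≤ N) {K : ℕ} (hK : T ≤ K) {σ : Cone3}
    (h : Inv1 F K σ) : ∃ n, BdI F δ n σ := by
  have hwt := h.1.wt_pos hF
  obtain ⟨⟨hdet, σ0, hσ0, n, hn⟩, hw⟩ := h
  have hwt' : ∀ j, (1:ℝ) ≤ dt (lam σ0) (toR (σ j)) := by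
    intro j; rw [wt_eq hF hσ0 hn]; exact_mod_cast hwt j
  have hprod : ∀ i j, i ≠ j → T ≤ dt (lam σ0) (toR (σ i)) * dt (lam σ0) (toR (σ j)) := by
    intro i j hij
    have h1 := hwt' i
    have h2 := hwt' j
    have h3 : (K : ℝ) + 1 ≤ dt (lam σ0) (toR (σ i)) + dt (lam σ0) (toR (σ j)) := by
      rw [wt_eq hF hσ0 hn, wt_eq hF hσ0 hn]
      exact_mod_cast hw i j hij
    nlinarith
  have hnr : ∀ j, nr (toR (σ j)) ≤ N * dt (lam σ0) (toR (σ j)) := by
    intro j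
    have e1 : toR (σ j) = (n j 0 : ℝ) • toR (σ0 0) + (n j 1 : ℝ) • toR (σ0 1) +
        (n j 2 : ℝ) • toR (σ0 2) := by rw [hn j, toR_nc]
    have e2 : dt (lam σ0) (toR (σ j)) = (n j 0 : ℝ) + (n j 1 : ℝ) + (n j 2 : ℝ) := by
      rw [hn j, dt_lam_nc (hF.abs_deR hσ0), sm, Fin.sum_univ_three]; push_cast; ring
    rw [e2]
    have b : ∀ k, nr ((n j k : ℝ) • toR (σ0 k)) ≤ N * (n j k : ℝ) := by
      intro k
      rw [nr_smul, abs_of_nonneg (Nat.cast_nonneg _), mul_comm]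
      exact mul_le_mul_of_nonneg_right (hN σ0 hσ0 k) (Nat.cast_nonneg _)
    calc nr (toR (σ j)) ≤ nr ((n j 0 : ℝ) • toR (σ0 0) + (n j 1 : ℝ) • toR (σ0 1)) +
          nr ((n j 2 : ℝ) • toR (σ0 2)) := by rw [e1]; exact nr_add_le _ _
      _ ≤ nr ((n j 0 : ℝ) • toR (σ0 0)) + nr ((n j 1 : ℝ) • toR (σ0 1)) +
          nr ((n j 2 : ℝ) • toR (σ0 2)) := by
            have := nr_add_le ((n j 0 : ℝ) • toR (σ0 0)) ((n j 1 : ℝ) • toR (σ0 1))
            linarith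
      _ ≤ N * ((n j 0 : ℝ) + (n j 1 : ℝ) + (n j 2 : ℝ)) := by
          linarith [b 0, b 1, b 2]
  have hV : Val (lam σ0) N T (toR (σ 0)) (toR (σ 1)) (toR (σ 2)) :=
    { hx := hwt' 0
      hy := hwt' 1
      hz := hwt' 2
      det := hdet
      nx := hnr 0
      ny := hnr 1
      nz := hnr 2
      pxy := hprod 0 1 (by decide)
      pyz := hprod 1 2 (by decide)
      pxz := hprod 0 2 (by decide) }
  exact ter_bd hF hσ0 (ter_all (hP σ0 hσ0) _ _ _ hV) σ rfl rfl rfl ⟨n, hn⟩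

/-- Stage 1 -/
lemma stage1 (hδ : 0 < δ) (hP : ∀ σ0 ∈ F, Par (lam σ0) N T δ)
    (hN : ∀ σ0 ∈ F, ∀ k, nr (toR (σ0 k)) ≤ N) {K : ℕ} (hK : T ≤ K) :
    ∃ F', Reach F F' ∧ (∀ σ ∈ F', Inv1 F K σ) ∧
      ∀ σ ∈ F', ∀ i j, i ≠ j → mug F (σ i) (σ j) ≤ δ := by
  classical
  obtain ⟨F1, hR1, hI1, hw1⟩ := stage0 hF K
  have hbd : ∀ σ, Inv1 F K σ → ∃ n, BdI F δ n σ := fun σ h => exists_bd hF hP hN hK h
  apply reach_scheme' F (Inv1 F K) (fun σ => if h : ∃ n, BdI F δ n σ then Nat.find h else 0)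
    (fun F' => ∀ σ ∈ F', ∀ i j, i ≠ j → mug F (σ i) (σ j) ≤ δ) ?_ hR1
    (fun σ hσ => ⟨hI1 σ hσ, hw1 σ hσ⟩)
  intro F' hI hfin
  push Not at hfin
  obtain ⟨σ1, hσ1, i1, j1, hij1, hlt1⟩ := hfin
  -- the largest edge
  set S := (F' ×ˢ (Finset.univ : Finset (Fin 3 × Fin 3))).filter (fun p => p.2.1 ≠ p.2.2)
    with hS
  have hne : S.Nonempty := ⟨(σ1, (i1, j1)), by simp [hS, hσ1, hij1]⟩
  obtain ⟨⟨σ2, i2, j2⟩, hmem, hmax⟩ := S.exists_max_image
    (fun p => mug F (p.1 p.2.1) (p.1 p.2.2)) hne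
  simp only [hS, Finset.mem_filter, Finset.mem_product, Finset.mem_univ, and_true] at hmem
  obtain ⟨hσ2, hij2⟩ := hmem
  have hmax' : ∀ σ ∈ F', ∀ a b, a ≠ b → mug F (σ a) (σ b) ≤ mug F (σ2 i2) (σ2 j2) := by
    intro σ hσ a b hab
    exact hmax (σ, (a, b)) (by simp [hS, hσ, hab])
  have hbig : δ < mug F (σ2 i2) (σ2 j2) := lt_of_lt_of_le hlt1 (hmax' σ1 hσ1 i1 j1 hij1)
  have huv : σ2 i2 ≠ σ2 j2 := by
    intro heq
    rw [heq, mug_self] at hbig
    linarith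
  refine ⟨σ2 i2, σ2 j2, huv, ⟨σ2, hσ2, ⟨i2, rfl⟩, ⟨j2, rfl⟩⟩, ?_⟩
  intro σ hσ i j hi hj
  have hij : i ≠ j := by
    rintro rfl
    exact huv (hi.symm.trans hj)
  have hc : chI F δ σ i j := by
    refine ⟨hij, by rw [hi, hj]; exact hbig, ?_⟩
    intro a b hab
    rw [hi, hj]
    exact hmax' σ hσ a b hab
  have hdec : ∀ a b, chI F δ σ a b →
      (if h : ∃ n, BdI F δ n (Function.update σ a (σ a + σ b)) then Nat.find h else 0) <
        (if h : ∃ n, BdI F δ n σ then Nat.find h else 0) := by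
    intro a b hab
    have h1 := hbd σ (hI σ hσ)
    have h2 := hbd _ ((hI σ hσ).child hF hab.1)
    rw [dif_pos h1, dif_pos h2]
    have hspec := Nat.find_spec h1
    rcases hn : Nat.find h1 with _ | k
    · rw [hn] at hspec
      exact absurd hab (hspec a b)
    · rw [hn] at hspec
      have := Nat.find_min' h2 (hspec a b hab)
      omega
  have e1 : σ2 i2 + σ2 j2 = σ i + σ j := by rw [hi, hj]
  have e2 : σ2 i2 + σ2 j2 = σ j + σ i := by rw [hi, hj, add_comm]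
  refine ⟨⟨?_, ?_⟩, ⟨?_, ?_⟩⟩
  · rw [e1]; exact (hI σ hσ).child hF hij
  · rw [e1]; exact hdec i j hc
  · rw [e2]; exact (hI σ hσ).child hF hij.symm
  · rw [e2]; exact hdec j i (chI_symm hc)

/-- **Fine fans.** For every `δ > 0` there is a smooth fan obtained from `F` by finitely many star
subdivisions at two-dimensional cones all of whose two-dimensional cones are `δ`-fine. -/
theorem fan_fine (hδ : 0 < δ) : ∃ F', Reach F F' ∧ ∀ σ ∈ F', |deR σ| = 1 ∧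
    ∃ σ0 ∈ F, ∃ n : Fin 3 → Fin 3 → ℕ, (∀ j, σ j = nc σ0 (n j)) ∧
      (∀ j, 1 ≤ sm (n j)) ∧
      ∀ i j, i ≠ j → ed (toR (σ i)) (toR (σ j)) ≤ δ * ((sm (n i) : ℝ) + (sm (n j) : ℝ)) := by
  classical
  -- constants
  obtain ⟨Λ, hΛ⟩ : ∃ Λ : ℝ, ∀ σ0 ∈ F, nr (lam σ0) ≤ Λ :=
    ⟨∑ σ0 ∈ F, nr (lam σ0), fun σ0 h => Finset.single_le_sum
      (f := fun σ0 => nr (lam σ0)) (fun i _ => nr_nonneg _) h⟩
  obtain ⟨N, hN⟩ : ∃ N : ℝ, ∀ σ0 ∈ F, ∀ k, nr (toR (σ0 k)) ≤ N :=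
    ⟨∑ σ0 ∈ F, ∑ k, nr (toR (σ0 k)), fun σ0 h k =>
      (Finset.single_le_sum (f := fun k => nr (toR (σ0 k))) (fun i _ => nr_nonneg _)
        (Finset.mem_univ k)).trans
      (Finset.single_le_sum (f := fun σ0 : Cone3 => ∑ k, nr (toR (σ0 k)))
        (fun i _ => Finset.sum_nonneg (fun k _ => nr_nonneg _)) h)⟩
  set T := (4 * |Λ| + 1) / δ + N ^ 2 / δ ^ 4 with hT
  have hP : ∀ σ0 ∈ F, Par (lam σ0) N T δ := by
    intro σ0 h0
    refine ⟨hδ, ?_, ?_⟩
    · have h1 : δ * T = (4 * |Λ| + 1) + δ * (N ^ 2 / δ ^ 4) := by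
        rw [hT]; field_simp
      have h2 : 0 ≤ δ * (N ^ 2 / δ ^ 4) := by positivity
      have h3 : nr (lam σ0) ≤ |Λ| := (hΛ σ0 h0).trans (le_abs_self _)
      linarith
    · have h1 : δ ^ 4 * T = δ ^ 3 * (4 * |Λ| + 1) + N ^ 2 := by
        rw [hT]; field_simp
      have h2 : 0 ≤ δ ^ 3 * (4 * |Λ| + 1) := by positivity
      linarith
  obtain ⟨K, hK⟩ := exists_nat_ge T
  obtain ⟨F', hR, hI, hfine⟩ := stage1 hF hδ hP hN hK
  refine ⟨F', hR, ?_⟩
  intro σ hσ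
  have hwt := (hI σ hσ).1.wt_pos hF
  obtain ⟨⟨hdet, σ0, hσ0, n, hn⟩, hw⟩ := hI σ hσ
  refine ⟨hdet, σ0, hσ0, n, hn, ?_, ?_⟩
  · intro j
    have := hwt j
    rw [hn j, hF.wtn_eq hσ0] at this
    exact this
  · intro i j hij
    have h1 := hfine σ hσ i j hij
    unfold mug at h1
    have hi := hwt i
    have hj := hwt j
    have e1 : wtn F (σ i) = sm (n i) := by rw [hn i, hF.wtn_eq hσ0]
    have e2 : wtn F (σ j) = sm (n j) := by rw [hn j, hF.wtn_eq hσ0]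
    rw [e1] at hi h1
    rw [e2] at hj h1
    have hi' : (1:ℝ) ≤ (sm (n i) : ℝ) := by exact_mod_cast hi
    have hj' : (1:ℝ) ≤ (sm (n j) : ℝ) := by exact_mod_cast hj
    rwa [div_le_iff₀ (by linarith)] at h1

end stage1

end Pool.Agent.TD47
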