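import Pool.Agent.TD47.PshExt

/-!
# Extension of plurisubharmonicity over the coordinate hyperplanes for upper regularised functions
-/

set_option autoImplicit false

open scoped Topology

namespace Pool.Agent.TD47

/-- Discs and their points off the coordinate hyperplanes. -/
lemma extG_case (S : (Fin 3 → ℂ) → EReal) (U : Set (Fin 3 → ℂ))
    (hSu : ∀ y ∈ U, ∀ b, S y < b → ∀ᶠ z in 𝓝 y, S z < b) (hSt : ∀ y ∈ U, S y ≠ ⊤) (κ : (Fin 3 → ℂ) → ℝ) (hκ : ContinuousOn κ U)
    (c : Fin 3 → ℝ) (W : (Fin 3 → ℂ) → EReal) (hW : IsPshOn (U ∩ {y | ∀ j, y j ≠ 0}) W)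
    (hWS : ∀ y ∈ U, (∀ j, y j ≠ 0) →
      W y = S y + ((κ y + ∑ j, c j * Real.log ‖y j‖ : ℝ) : EReal))
    (g : ℂ → Fin 3 → ℂ) (p : ℂ → ℂ) (hg : AnalyticOnNhd ℂ g (Metric.closedBall 0 1))
    (hp : AnalyticOnNhd ℂ p (Metric.closedBall 0 1)) (hgU : ∀ t : ℂ, ‖t‖ ≤ 1 → g t ∈ U)
    (hcirc : ∀ t : ℂ, ‖t‖ = 1 → S (g t) + ((κ (g t) : ℝ) : EReal) ≤ (((p t).re : ℝ) : EReal)) :
    ∀ t : ℂ, ‖t‖ ≤ 1 → (∀ j, g t j ≠ 0) →
      S (g t) + ((κ (g t) : ℝ) : EReal) ≤ (((p t).re : ℝ) : EReal) := by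
  have hgc : ContinuousOn g (Metric.closedBall 0 1) := fun t ht =>
    (hg t ht).continuousAt.continuousWithinAt
  have hpc : ContinuousOn p (Metric.closedBall 0 1) := fun t ht =>
    (hp t ht).continuousAt.continuousWithinAt
  have hgjc : ∀ j, ContinuousOn (fun t => g t j) (Metric.closedBall 0 1) := fun j =>
    (continuous_apply j).comp_continuousOn hgc
  have hκc : ContinuousOn (fun t => κ (g t)) (Metric.closedBall 0 1) :=
    hκ.comp hgc (fun t ht => hgU t (mem_closedBall_zero_iff.mp ht))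
  have hSc : UpperSemicontinuousOn (fun t => S (g t)) (Metric.closedBall 0 1) := by
    intro t ht y hy
    exact (hgc t ht).tendsto.eventually
      (hSu (g t) (hgU t (mem_closedBall_zero_iff.mp ht)) y hy)
  have hcpt := isCompact_closedBall (0 : ℂ) 1
  have hprec : ContinuousOn (fun t => (p t).re) (Metric.closedBall 0 1) :=
    Complex.continuous_re.comp_continuousOn hpc
  -- bound for the logarithms
  obtain ⟨B, hB⟩ := hcpt.bddAbove_image
    (continuousOn_finsetSum Finset.univ (fun j _ => (hgjc j).norm) :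
      ContinuousOn (fun t => ∑ j, ‖g t j‖) (Metric.closedBall 0 1))
  have hB' : ∀ t : ℂ, ‖t‖ ≤ 1 → ∑ j, Real.log ‖g t j‖ ≤ B := by
    intro t ht
    refine le_trans (Finset.sum_le_sum (fun j _ => Real.log_le_self (norm_nonneg _))) ?_
    exact hB ⟨t, mem_closedBall_zero_iff.mpr ht, rfl⟩
  -- bound for the function
  have hhusc : UpperSemicontinuousOn
      (fun t => S (g t) + ((κ (g t) - (p t).re : ℝ) : EReal)) (Metric.closedBall 0 1) :=
    ext_usc_add hSc (hκc.sub hprec)
  obtain ⟨M, hM⟩ : ∃ M : ℝ, ∀ t : ℂ, ‖t‖ ≤ 1 →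
      S (g t) + ((κ (g t) - (p t).re : ℝ) : EReal) ≤ ((M : ℝ) : EReal) := by
    obtain ⟨a, ha, hmax⟩ := hhusc.exists_isMaxOn ⟨0, by simp⟩ hcpt
    have hlt : S (g a) + ((κ (g a) - (p a).re : ℝ) : EReal) < ⊤ := by
      apply lt_top_iff_ne_top.mpr
      exact EReal.add_ne_top (hSt (g a) (hgU a (mem_closedBall_zero_iff.mp ha)))
        (EReal.coe_ne_top _)
    obtain ⟨M, hM1, _⟩ := EReal.lt_iff_exists_real_btwn.mp hlt
    refine ⟨M, fun t ht => ?_⟩
    exact le_trans (hmax (mem_closedBall_zero_iff.mpr ht)) hM1.le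
  -- step 1
  have step1 : ∀ θ : ℝ, 0 < θ → ∀ t : ℂ, ‖t‖ ≤ 1 → (∀ j, g t j ≠ 0) →
      S (g t) + ((κ (g t) - (p t).re + θ * (∑ j, Real.log ‖g t j‖ - B) : ℝ) : EReal) ≤ 0 := by
    intro θ hθ
    set δ : ℝ := Real.exp (B - (M + 1) / θ) with hδ
    have hδ0 : 0 < δ := Real.exp_pos _
    have hQlog : ∀ t, (∀ j, g t j ≠ 0) →
        ∑ j, Real.log ‖g t j‖ = Real.log ‖∏ j, g t j‖ := by
      intro t ht
      rw [norm_prod, Real.log_prod (fun j _ => norm_ne_zero_iff.mpr (ht j))]
    -- small product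
    have hsmall : ∀ t : ℂ, ‖t‖ ≤ 1 → (∀ j, g t j ≠ 0) → ‖∏ j, g t j‖ ≤ δ →
        S (g t) + ((κ (g t) - (p t).re + θ * (∑ j, Real.log ‖g t j‖ - B) : ℝ) : EReal) ≤ 0 := by
      intro t ht hne hQ
      have h1 := ext_add_le.mp (hM t ht)
      have h2 : ((0 : ℝ) : EReal) = 0 := EReal.coe_zero
      rw [← h2, ext_add_le]
      refine h1.trans (EReal.coe_le_coe_iff.mpr ?_)
      have h3 : ∑ j, Real.log ‖g t j‖ ≤ B - (M + 1) / θ := by
        rw [hQlog t hne, ← Real.log_exp (B - (M + 1) / θ)]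
        apply Real.log_le_log _ hQ
        rw [norm_pos_iff]
        exact Finset.prod_ne_zero_iff.mpr (fun j _ => hne j)
      have h4 : θ * (∑ j, Real.log ‖g t j‖ - B) ≤ θ * (-((M + 1) / θ)) :=
        mul_le_mul_of_nonneg_left (by linarith) hθ.le
      have h5 : θ * (-((M + 1) / θ)) = -(M + 1) := by field_simp
      linarith
    have hQc : ContinuousOn (fun t => ‖∏ j, g t j‖) (Metric.closedBall 0 1) :=
      (continuousOn_finsetProd Finset.univ (fun j _ => hgjc j)).norm
    set K : Set ℂ := Metric.closedBall 0 1 ∩ (fun t => ‖∏ j, g t j‖) ⁻¹' Set.Ici δ with hK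
    have hKcl : IsClosed K := hQc.preimage_isClosed_of_isClosed Metric.isClosed_closedBall
      isClosed_Ici
    have hKcpt : IsCompact K := hcpt.of_isClosed_subset hKcl Set.inter_subset_left
    have hKne : ∀ t ∈ K, ∀ j, g t j ≠ 0 := by
      intro t ht j hj
      have h1 : δ ≤ ‖∏ j, g t j‖ := ht.2
      rw [Finset.prod_eq_zero (Finset.mem_univ j) hj, norm_zero] at h1
      linarith
    have hlogc : ContinuousOn (fun t => ∑ j, Real.log ‖g t j‖) K := by
      apply continuousOn_finsetSum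
      intro j _
      exact ContinuousOn.log ((hgjc j).norm.mono Set.inter_subset_left)
        (fun t ht => norm_ne_zero_iff.mpr (hKne t ht j))
    have hfusc : UpperSemicontinuousOn (fun t => S (g t) + ((κ (g t) - (p t).re +
        θ * (∑ j, Real.log ‖g t j‖ - B) : ℝ) : EReal)) K := by
      apply ext_usc_add (hSc.mono Set.inter_subset_left)
      exact ((hκc.sub hprec).mono Set.inter_subset_left).add
        (continuousOn_const.mul (hlogc.sub continuousOn_const))
    have hKle := ext_maxprinciple (fun t => S (g t) + ((κ (g t) - (p t).re +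
        θ * (∑ j, Real.log ‖g t j‖ - B) : ℝ) : EReal)) K hKcpt hfusc
      (fun t ht => EReal.add_ne_top (hSt (g t) (hgU t (mem_closedBall_zero_iff.mp ht.1)))
        (EReal.coe_ne_top _)) (by
        intro t0 ht0 hpos
        have ht01 : ‖t0‖ ≤ 1 := mem_closedBall_zero_iff.mp ht0.1
        have hne0 := hKne t0 ht0
        have hlt1 : ‖t0‖ < 1 := by
          rcases lt_or_eq_of_le ht01 with h | h
          · exact h
          · exfalso
            have h1 := ext_add_le.mp (hcirc t0 h)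
            have h2 : S (g t0) + ((κ (g t0) - (p t0).re +
                θ * (∑ j, Real.log ‖g t0 j‖ - B) : ℝ) : EReal) ≤ ((0 : ℝ) : EReal) := by
              rw [ext_add_le]
              refine h1.trans (EReal.coe_le_coe_iff.mpr ?_)
              have h3 := mul_nonpos_of_nonneg_of_nonpos hθ.le (sub_nonpos.mpr (hB' t0 ht01))
              linarith
            rw [EReal.coe_zero] at h2
            exact absurd h2 (not_le.mpr hpos)
        have hltQ : δ < ‖∏ j, g t0 j‖ := by
          rcases lt_or_eq_of_le (show δ ≤ ‖∏ j, g t0 j‖ from ht0.2) with h | h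
          · exact h
          · exact absurd (hsmall t0 ht01 hne0 h.symm.le) (not_le.mpr hpos)
        -- a small disc
        have hga0 : ContinuousAt g t0 := (hg t0 ht0.1).continuousAt
        have hgj0 : ∀ j, ContinuousAt (fun t => g t j) t0 := fun j =>
          (continuous_apply j).continuousAt.comp hga0
        have e1 : ∀ᶠ t in 𝓝 t0, ‖t‖ < 1 := continuousAt_id.norm.eventually_lt
          continuousAt_const hlt1
        have e2 : ∀ᶠ t in 𝓝 t0, δ < ‖∏ j, g t j‖ := by
          have hc : ContinuousAt (fun t => ‖∏ j, g t j‖) t0 := by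
            apply ContinuousAt.norm
            exact tendsto_finsetProd Finset.univ (fun j _ => hgj0 j)
          exact continuousAt_const.eventually_lt hc hltQ
        have e3 : ∀ᶠ t in 𝓝 t0, ∀ j, ‖g t j / g t0 j - 1‖ < 1 := by
          rw [Filter.eventually_all]
          intro j
          have hc : ContinuousAt (fun t => ‖g t j / g t0 j - 1‖) t0 :=
            (((hgj0 j).div_const _).sub continuousAt_const).norm
          refine hc.eventually_lt continuousAt_const ?_
          rw [div_self (hne0 j), sub_self, norm_zero]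
          exact one_pos
        obtain ⟨ρ, hρ, hρball⟩ := Metric.nhds_basis_closedBall.mem_iff.mp
          ((e1.and (e2.and e3)) : _ ∈ 𝓝 t0)
        have hmem : ∀ t : ℂ, ‖t‖ ≤ 1 → t0 + ρ * t ∈ Metric.closedBall t0 ρ := by
          intro t ht
          rw [mem_closedBall_iff_norm, add_sub_cancel_left, norm_mul, Complex.norm_real,
            Real.norm_eq_abs, abs_of_pos hρ]
          nlinarith
        have hall := fun (t : ℂ) (ht : ‖t‖ ≤ 1) => hρball (hmem t ht)
        have hinK : ∀ t : ℂ, ‖t‖ ≤ 1 → t0 + ρ * t ∈ K := fun t ht =>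
          ⟨mem_closedBall_zero_iff.mpr (hall t ht).1.le, (hall t ht).2.1.le⟩
        refine ⟨ρ, hρ, hinK, fun m η hmη => ?_⟩
        exact ext_local S U κ c W hW hWS g p hg hp hgU θ B t0 ρ
          (fun t ht => (hall t ht).1.le) (fun t ht => (hall t ht).2.2) hne0
          (fun t ht => hKne _ (hinK t ht)) m η hmη)
    intro t ht hne
    by_cases hQ : ‖∏ j, g t j‖ ≤ δ
    · exact hsmall t ht hne hQ
    · push Not at hQ
      exact hKle t ⟨mem_closedBall_zero_iff.mpr ht, hQ.le⟩
  -- step 2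
  intro t ht hne
  rw [ext_add_le]
  apply EReal.le_of_forall_lt_iff_le.mp
  intro r hr
  have hr' : (p t).re - κ (g t) < r := EReal.coe_lt_coe_iff.mp hr
  set D : ℝ := B - ∑ j, Real.log ‖g t j‖ with hD
  have hD0 : 0 ≤ D := by rw [hD]; linarith [hB' t ht]
  set θ : ℝ := (r - ((p t).re - κ (g t))) / (D + 1) with hθ
  have hθ0 : 0 < θ := by rw [hθ]; apply div_pos <;> linarith
  have h1 := step1 θ hθ0 t ht hne
  rw [← EReal.coe_zero, ext_add_le] at h1
  refine h1.trans (EReal.coe_le_coe_iff.mpr ?_)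
  have h2 : θ * (D + 1) = r - ((p t).re - κ (g t)) := by
    rw [hθ, div_mul_cancel₀ _ (by linarith : D + 1 ≠ 0)]
  have h3 : θ * (∑ j, Real.log ‖g t j‖ - B) = -(θ * D) := by rw [hD]; ring
  nlinarith

/-- A function which is locally bounded above and upper regularised from the complement of the
coordinate hyperplanes is psh as soon as it is so off the hyperplanes, up to logarithmic terms. -/
theorem psh_extend_gen (U : Set (Fin 3 → ℂ)) (hU : IsOpen U) (W R : (Fin 3 → ℂ) → EReal)
    (q : (Fin 3 → ℂ) → ℝ) (hq : ContinuousOn q U) (c : Fin 3 → ℝ)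
    (hW : IsPshOn (U ∩ {y | ∀ j, y j ≠ 0}) W)
    (hRT : ∀ y ∈ U, (∀ j, y j ≠ 0) →
      W y = R y + ((q y + ∑ j, c j * Real.log ‖y j‖ : ℝ) : EReal))
    (hbd : ∀ y ∈ U, ∃ M : ℝ, ∀ᶠ z in 𝓝[{z | ∀ j, z j ≠ 0}] y, R z ≤ (M : EReal))
    (hlim : ∀ y ∈ U, R y = Filter.limsup R (𝓝[{z | ∀ j, z j ≠ 0}] y)) :
    IsPshOn U (fun y => R y + ((q y : ℝ) : EReal)) := by
  have hRt : ∀ y ∈ U, R y ≠ ⊤ := by
    intro y hy
    obtain ⟨M, hM⟩ := hbd y hy
    have h1 : R y ≤ ((M : ℝ) : EReal) := by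
      rw [hlim y hy]
      exact Filter.limsup_le_of_le (h := hM)
    exact ne_top_of_le_ne_top (EReal.coe_ne_top M) h1
  have hRu : ∀ y ∈ U, ∀ b, R y < b → ∀ᶠ z in 𝓝 y, R z < b := by
    intro y hy b hb
    obtain ⟨b', hb1, hb2⟩ := exists_between hb
    rw [hlim y hy] at hb1
    have h1 : ∀ᶠ z in 𝓝[{z | ∀ j, z j ≠ 0}] y, R z < b' :=
      Filter.eventually_lt_of_limsup_lt hb1
    have h2 : ∀ᶠ z in 𝓝 y, z ∈ {z : Fin 3 → ℂ | ∀ j, z j ≠ 0} → R z < b' :=
      eventually_nhdsWithin_iff.mp h1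
    filter_upwards [h2.eventually_nhds, hU.mem_nhds hy] with z hz hzU
    have h3 : R z ≤ b' := by
      rw [hlim z hzU]
      have h4 : ∀ᶠ w in 𝓝[{z | ∀ j, z j ≠ 0}] z, R w ≤ b' := by
        apply eventually_nhdsWithin_iff.mpr
        filter_upwards [hz] with w hw hwT
        exact (hw hwT).le
      exact Filter.limsup_le_of_le (h := h4)
    exact h3.trans_lt hb2
  have hRuo : UpperSemicontinuousOn R U := by
    intro y hy b hb
    exact nhdsWithin_le_nhds (hRu y hy b hb)
  refine ⟨ext_usc_add hRuo hq, ?_, ?_⟩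
  · intro z hz
    exact EReal.add_ne_top (hRt z hz) (EReal.coe_ne_top _)
  intro g p hg hp hgU hcirc t ht
  have htm : t ∈ Metric.closedBall (0 : ℂ) 1 := mem_closedBall_zero_iff.mpr ht
  rw [ext_add_le]
  apply EReal.le_of_forall_lt_iff_le.mp
  intro r hr
  have hr' : (p t).re - q (g t) < r := EReal.coe_lt_coe_iff.mp hr
  set ε : ℝ := (r - ((p t).re - q (g t))) / 2 with hε
  have hε0 : 0 < ε := by rw [hε]; linarith
  have hgsc : ∀ a ∈ Metric.closedBall (0 : ℂ) 1,
      ContinuousAt (fun z : (Fin 3 → ℂ) × ℂ => g z.2 + z.1) ((0 : Fin 3 → ℂ), a) := by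
    intro a ha
    apply ContinuousAt.add
    · exact ContinuousAt.comp (f := Prod.snd) (g := g) (hg a ha).continuousAt continuousAt_snd
    · exact continuousAt_fst
  -- (1) the disc stays in U
  have e1 : ∀ᶠ e in 𝓝 (0 : Fin 3 → ℂ), ∀ a ∈ Metric.closedBall (0 : ℂ) 1, g a + e ∈ U := by
    apply (isCompact_closedBall (0 : ℂ) 1).eventually_forall_of_forall_eventually
    intro a ha
    apply (hgsc a ha).eventually
    apply hU.mem_nhds
    show g a + 0 ∈ U
    rw [add_zero]
    exact hgU a (mem_closedBall_zero_iff.mp ha)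
  -- (2) the bound on the circle
  have e2 : ∀ᶠ e in 𝓝 (0 : Fin 3 → ℂ), ∀ a ∈ Metric.sphere (0 : ℂ) 1,
      R (g a + e) + ((q (g a + e) : ℝ) : EReal) ≤ (((p a).re + ε : ℝ) : EReal) := by
    apply (isCompact_sphere (0 : ℂ) 1).eventually_forall_of_forall_eventually
    intro a ha
    have ha1 : ‖a‖ = 1 := mem_sphere_zero_iff_norm.mp ha
    have ham : a ∈ Metric.closedBall (0 : ℂ) 1 := mem_closedBall_zero_iff.mpr ha1.le
    have hSa : R (g a) < (((p a).re - q (g a) + ε / 2 : ℝ) : EReal) :=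
      lt_of_le_of_lt (ext_add_le.mp (hcirc a ha1)) (EReal.coe_lt_coe_iff.mpr (by linarith))
    have f1 : ∀ᶠ z : (Fin 3 → ℂ) × ℂ in 𝓝 ((0 : Fin 3 → ℂ), a),
        R (g z.2 + z.1) < (((p a).re - q (g a) + ε / 2 : ℝ) : EReal) := by
      have hq0 : ∀ᶠ y in 𝓝 (g a + 0), R y < (((p a).re - q (g a) + ε / 2 : ℝ) : EReal) := by
        rw [add_zero]
        exact hRu (g a) (hgU a ha1.le) _ hSa
      exact (hgsc a ham).eventually hq0
    have f2 : ∀ᶠ z : (Fin 3 → ℂ) × ℂ in 𝓝 ((0 : Fin 3 → ℂ), a),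
        q (g z.2 + z.1) < q (g a) + ε / 4 := by
      have hκa : ContinuousAt q (g ((0 : Fin 3 → ℂ), a).2 + ((0 : Fin 3 → ℂ), a).1) := by
        show ContinuousAt q (g a + 0)
        rw [add_zero]
        exact (hq (g a) (hgU a ha1.le)).continuousAt (hU.mem_nhds (hgU a ha1.le))
      have hc : ContinuousAt (fun z : (Fin 3 → ℂ) × ℂ => q (g z.2 + z.1))
          ((0 : Fin 3 → ℂ), a) :=
        ContinuousAt.comp (f := fun z : (Fin 3 → ℂ) × ℂ => g z.2 + z.1) (g := q) hκa
          (hgsc a ham)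
      refine hc.eventually_lt continuousAt_const ?_
      show q (g a + 0) < _
      rw [add_zero]
      linarith
    have f3 : ∀ᶠ z : (Fin 3 → ℂ) × ℂ in 𝓝 ((0 : Fin 3 → ℂ), a),
        (p a).re - ε / 4 < (p z.2).re := by
      have hc : ContinuousAt (fun z : (Fin 3 → ℂ) × ℂ => (p z.2).re) ((0 : Fin 3 → ℂ), a) :=
        ContinuousAt.comp (f := Prod.snd) (g := fun t => (p t).re)
          (Complex.continuous_re.continuousAt.comp (hp a ham).continuousAt) continuousAt_snd
      refine continuousAt_const.eventually_lt hc ?_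
      show _ < (p a).re
      linarith
    filter_upwards [f1, f2, f3] with z h1 h2 h3
    rw [ext_add_le]
    refine h1.le.trans (EReal.coe_le_coe_iff.mpr ?_)
    linarith
  -- (3) continuity of q at the given point
  have e3 : ∀ᶠ e in 𝓝 (0 : Fin 3 → ℂ), q (g t) - ε < q (g t + e) := by
    have hκa : ContinuousAt q (g t + 0) := by
      rw [add_zero]
      exact (hq (g t) (hgU t ht)).continuousAt (hU.mem_nhds (hgU t ht))
    have hgt : ContinuousAt (fun e : Fin 3 → ℂ => g t + e) 0 := by fun_prop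
    have hc : ContinuousAt (fun e : Fin 3 → ℂ => q (g t + e)) 0 :=
      ContinuousAt.comp (f := fun e : Fin 3 → ℂ => g t + e) (g := q) hκa hgt
    refine continuousAt_const.eventually_lt hc ?_
    rw [add_zero]
    linarith
  have hsub : Filter.Tendsto (fun z : Fin 3 → ℂ => z - g t) (𝓝 (g t)) (𝓝 0) := by
    have h1 : ContinuousAt (fun z : Fin 3 → ℂ => z - g t) (g t) := by fun_prop
    have h2 := h1.tendsto
    rwa [sub_self] at h2
  have key : ∀ᶠ z in 𝓝[{z | ∀ j, z j ≠ 0}] (g t), R z ≤ ((r : ℝ) : EReal) := by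
    filter_upwards [self_mem_nhdsWithin,
      nhdsWithin_le_nhds (hsub.eventually e1), nhdsWithin_le_nhds (hsub.eventually e2),
      nhdsWithin_le_nhds (hsub.eventually e3)] with z hzT h1 h2 h3
    have hz : g t + (z - g t) = z := by abel
    have hA := extG_case R U hRu hRt q hq c W hW hRT (fun a => g a + (z - g t))
      (fun a => p a + ((ε : ℝ) : ℂ)) (fun a ha => (hg a ha).add analyticAt_const)
      (fun a ha => (hp a ha).add analyticAt_const)
      (fun a ha => h1 a (mem_closedBall_zero_iff.mpr ha)) (by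
        intro a ha
        have h5 := h2 a (mem_sphere_zero_iff_norm.mpr ha)
        simpa using h5) t ht (by
        intro j
        show (g t + (z - g t)) j ≠ 0
        rw [hz]
        exact hzT j)
    simp only [hz] at hA
    rw [hz] at h3
    refine (ext_add_le.mp hA).trans (EReal.coe_le_coe_iff.mpr ?_)
    rw [Complex.add_re, Complex.ofReal_re]
    have h7 : 2 * ε = r - ((p t).re - q (g t)) := by rw [hε]; ring
    linarith
  rw [hlim (g t) (hgU t ht)]
  exact Filter.limsup_le_of_le (h := key)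

end Pool.Agent.TD47
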