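import Pool.Agent.TD47.Asm
import Pool.Agent.TD47.PshExtG

/-!
# Quasi-psh functions with toric singularities
-/

open scoped Topology
open Filter

namespace Pool.Agent.TD47

lemma mon_mem (σ : Cone3) {y : Fin 3 → ℂ} (hy : y ∈ torus) : mon σ y ∈ torus := fun _ =>
  Finset.prod_ne_zero_iff.mpr fun j _ => zpow_ne_zero _ (hy j)

lemma log_norm_mon (σ : Cone3) {y : Fin 3 → ℂ} (hy : y ∈ torus) (i : Fin 3) :
    Real.log ‖mon σ y i‖ = comb σ (logc y) i := by
  unfold mon comb logc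
  rw [norm_prod, Real.log_prod]
  · refine Finset.sum_congr rfl fun j _ => ?_
    rw [norm_zpow, Real.log_zpow]
    ring
  · intro j _
    rw [norm_zpow]
    exact zpow_ne_zero _ (norm_ne_zero_iff.mpr (hy j))

/-- the monomial map between charts -/
def mp (n : Fin 3 → Fin 3 → ℕ) (y : Fin 3 → ℂ) : Fin 3 → ℂ := fun k => ∏ j, y j ^ n j k

lemma mp_torus (n : Fin 3 → Fin 3 → ℕ) {y : Fin 3 → ℂ} (hy : y ∈ torus) : mp n y ∈ torus :=
  fun _ => Finset.prod_ne_zero_iff.mpr fun j _ => pow_ne_zero _ (hy j)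

lemma mon_mp {σ σ0 : Cone3} {n : Fin 3 → Fin 3 → ℕ} (hn : ∀ j, σ j = nc σ0 (n j))
    {y : Fin 3 → ℂ} (hy : y ∈ torus) : mon σ0 (mp n y) = mon σ y := by
  funext i
  have h0 := hy 0
  have h1 := hy 1
  have h2 := hy 2
  simp only [mon, mp, Fin.prod_univ_three, hn, nc, Fin.sum_univ_three, mul_zpow,
    zpow_add₀ h0, zpow_add₀ h1, zpow_add₀ h2]
  simp only [← zpow_natCast, ← zpow_mul]
  ring

lemma mp_continuous (n : Fin 3 → Fin 3 → ℕ) : Continuous (mp n) := by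
  unfold mp
  fun_prop

lemma mp_mem_pd {n : Fin 3 → Fin 3 → ℕ} {y : Fin 3 → ℂ} (hy : y ∈ pd (rad n)) :
    mp n y ∈ pd 2 := by
  intro k
  have hN := nsum_nonneg n
  set N := ∑ j, ∑ k, (n j k : ℝ) with hNdef
  have h1 : ‖mp n y k‖ ≤ ∏ j, rad n ^ n j k := by
    unfold mp
    rw [norm_prod]
    refine Finset.prod_le_prod (fun j _ => norm_nonneg _) fun j _ => ?_
    rw [norm_pow]
    exact pow_le_pow_left₀ (norm_nonneg _) (hy j).le _
  have h2 : ∏ j, rad n ^ n j k = Real.exp (∑ j, (n j k : ℝ) * (1 / (2 * (N + 1)))) := by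
    rw [Real.exp_sum]
    refine Finset.prod_congr rfl fun j _ => ?_
    rw [Real.exp_nat_mul]
    rfl
  have h3 : ∑ j, (n j k : ℝ) * (1 / (2 * (N + 1))) ≤ 1 / 2 := by
    rw [← Finset.sum_mul]
    have h4 : ∑ j, (n j k : ℝ) ≤ N := Finset.sum_le_sum fun j _ =>
      Finset.single_le_sum (f := fun k => (n j k : ℝ)) (fun _ _ => Nat.cast_nonneg _)
        (Finset.mem_univ k)
    rw [mul_one_div, div_le_iff₀ (by positivity)]
    linarith
  have h4 : Real.exp (1 / 2) < 2 := by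
    have h5 : Real.exp (1 / 2) * Real.exp (1 / 2) = Real.exp 1 := by
      rw [← Real.exp_add]; norm_num
    have h6 := Real.exp_one_lt_d9
    have h7 := Real.exp_pos (1 / 2)
    nlinarith
  calc ‖mp n y k‖ ≤ Real.exp (∑ j, (n j k : ℝ) * (1 / (2 * (N + 1)))) := by rw [← h2]; exact h1
    _ ≤ Real.exp (1 / 2) := Real.exp_le_exp.mpr h3
    _ < 2 := h4

lemma mp_analytic (n : Fin 3 → Fin 3 → ℕ) {g : ℂ → Fin 3 → ℂ} {s : Set ℂ}
    (hg : AnalyticOnNhd ℂ g s) : AnalyticOnNhd ℂ (fun t => mp n (g t)) s := by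
  intro t ht
  have h1 : ∀ j, AnalyticAt ℂ (fun t => g t j) t := fun j => (analyticAt_pi_iff.mp (hg t ht)) j
  rw [analyticAt_pi_iff]
  intro k
  unfold mp
  exact Finset.analyticAt_fun_prod _ fun j _ => (h1 j).pow _

lemma IsPshOn.mono {D D' : Set (Fin 3 → ℂ)} {u : (Fin 3 → ℂ) → EReal} (hu : IsPshOn D u)
    (h : D' ⊆ D) : IsPshOn D' u :=
  ⟨hu.1.mono h, fun z hz => hu.2.1 z (h hz), fun g p hg hp hgD hb =>
    hu.2.2 g p hg hp (fun t ht => h (hgD t ht)) hb⟩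

lemma IsPshOn.congr {D : Set (Fin 3 → ℂ)} {u v : (Fin 3 → ℂ) → EReal} (hu : IsPshOn D u)
    (h : ∀ z ∈ D, u z = v z) : IsPshOn D v := by
  refine ⟨?_, fun z hz => ?_, ?_⟩
  · intro z hz a ha
    rw [← h z hz] at ha
    filter_upwards [hu.1 z hz a ha, self_mem_nhdsWithin] with w hw hwD
    rwa [← h w hwD]
  · rw [← h z hz]
    exact hu.2.1 z hz
  · intro g p hg hp hgD hb t ht
    rw [← h _ (hgD t ht)]
    exact hu.2.2 g p hg hp hgD (fun t ht => by rw [h _ (hgD t ht.le)]; exact hb t ht) t ht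

lemma IsPshOn.comp_mp {n : Fin 3 → Fin 3 → ℕ} {u : (Fin 3 → ℂ) → EReal}
    (hu : IsPshOn (pd 2) u) : IsPshOn (pd (rad n)) (fun y => u (mp n y)) := by
  refine ⟨?_, fun z hz => hu.2.1 _ (mp_mem_pd hz), ?_⟩
  · exact hu.1.comp (mp_continuous n).continuousOn (fun z hz => mp_mem_pd hz)
  · intro g p hg hp hgD hb t ht
    exact hu.2.2 (fun t => mp n (g t)) p (mp_analytic n hg) hp
      (fun t ht => mp_mem_pd (hgD t ht)) hb t ht

/-- the function of the logarithmic coordinates of an invariant function -/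
noncomputable def lg (ψ : (Fin 3 → ℂ) → EReal) (x : Fin 3 → ℝ) : EReal :=
  ψ (fun i => ((Real.exp (x i) : ℝ) : ℂ))

lemma exp_mem_torus (x : Fin 3 → ℝ) : (fun i => ((Real.exp (x i) : ℝ) : ℂ)) ∈ torus := fun _ =>
  Complex.ofReal_ne_zero.mpr (Real.exp_pos _).ne'

lemma IsInv.eq_lg {ψ : (Fin 3 → ℂ) → EReal} (hψ : IsInv ψ) (σ : Cone3) {y : Fin 3 → ℂ}
    (hy : y ∈ torus) : ψ (mon σ y) = lg ψ (comb σ (logc y)) := by
  refine hψ _ (mon_mem σ hy) _ (exp_mem_torus _) fun i => ?_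
  rw [Complex.norm_real, Real.norm_eq_abs, abs_of_pos (Real.exp_pos _), ← log_norm_mon σ hy,
    Real.exp_log (norm_pos_iff.mpr (mon_mem σ hy i))]

lemma IsQpsh.toL {F : Finset Cone3} {C : ℝ} {ψ : (Fin 3 → ℂ) → EReal} (h : IsQpsh F C ψ)
    (hψ : IsInv ψ) : IsQpshL F C (lg ψ) := by
  obtain ⟨⟨x, hx, hxne⟩, h2⟩ := h
  refine ⟨⟨fun i => Real.log ‖x i‖, ?_⟩, ?_⟩
  · have : lg ψ (fun i => Real.log ‖x i‖) = ψ x := by
      refine hψ _ (exp_mem_torus _) _ hx fun i => ?_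
      rw [Complex.norm_real, Real.norm_eq_abs, abs_of_pos (Real.exp_pos _),
        Real.exp_log (norm_pos_iff.mpr (hx i))]
    rw [this]
    exact hxne
  · intro σ hσ
    obtain ⟨u, hu, hu2⟩ := h2 σ hσ
    refine ⟨u, hu, fun y hy hy0 => ?_⟩
    rw [← hψ.eq_lg σ hy0]
    exact hu2 y hy hy0

lemma torus_open : IsOpen {y : Fin 3 → ℂ | ∀ j, y j ≠ 0} := by
  have : {y : Fin 3 → ℂ | ∀ j, y j ≠ 0} = Set.pi Set.univ (fun _ => {0}ᶜ) := by
    ext y; simp
  rw [this]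
  exact isOpen_set_pi Set.finite_univ (fun _ _ => isOpen_compl_singleton)

lemma pd_open (r : ℝ) : IsOpen (pd r) := by
  have : pd r = ⋂ j : Fin 3, {y : Fin 3 → ℂ | ‖y j‖ < r} := by
    ext y; simp [pd]
  rw [this]
  exact isOpen_iInter_of_finite fun j => isOpen_lt (by fun_prop) continuous_const

/-- an upper semicontinuous function is its own upper limit at points of an open set -/
lemma limsup_eq_of_usc {D : Set (Fin 3 → ℂ)} (hD : IsOpen D) {f : (Fin 3 → ℂ) → EReal}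
    (hf : UpperSemicontinuousOn f D) {y : Fin 3 → ℂ} (hy : y ∈ D) :
    limsup f (𝓝 y) = f y := by
  apply le_antisymm
  · have h2 := UpperSemicontinuousWithinAt.limsup_le (hf y hy)
    rwa [hD.nhdsWithin_eq hy] at h2
  · rw [limsup_eq]
    refine le_sInf fun b hb => ?_
    exact Filter.Eventually.self_of_nhds (p := fun z => f z ≤ b) hb

end Pool.Agent.TD47
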