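import Pool.Agent.TD47.Fan

/-!
# Global greedy processes terminate
-/

namespace Pool.Agent.TD47

lemma mem_starSub {F : Finset Cone3} {u v : Fin 3 → ℤ} {τ : Cone3} :
    τ ∈ starSub F u v ↔
      (τ ∈ F ∧ ¬ ((∃ i, τ i = u) ∧ (∃ j, τ j = v))) ∨
      (∃ σ ∈ F, (∃ i, σ i = u) ∧ (∃ j, σ j = v) ∧
        ∃ i, (σ i = u ∨ σ i = v) ∧ Function.update σ i (u + v) = τ) := by
  simp only [starSub, Finset.mem_biUnion]
  constructor
  · rintro ⟨σ, hσ, hτ⟩
    by_cases h : (∃ i, σ i = u) ∧ (∃ j, σ j = v)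
    · rw [if_pos h] at hτ
      simp only [Finset.mem_image, Finset.mem_filter, Finset.mem_univ, true_and] at hτ
      right
      exact ⟨σ, hσ, h.1, h.2, hτ⟩
    · rw [if_neg h, Finset.mem_singleton] at hτ
      subst hτ
      left
      exact ⟨hσ, h⟩
  · rintro (⟨h1, h2⟩ | ⟨σ, hσ, h1, h2, h3⟩)
    · exact ⟨τ, h1, by rw [if_neg h2]; simp⟩
    · refine ⟨σ, hσ, ?_⟩
      rw [if_pos ⟨h1, h2⟩]
      simp only [Finset.mem_image, Finset.mem_filter, Finset.mem_univ, true_and]
      exact h3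

lemma sum_biUnion_le' {α β : Type*} [DecidableEq α] [DecidableEq β] (s : Finset α)
    (t : α → Finset β) (f : β → ℕ) : ∑ b ∈ s.biUnion t, f b ≤ ∑ a ∈ s, ∑ b ∈ t a, f b := by
  induction s using Finset.induction_on with
  | empty => simp
  | insert a s ha ih =>
    rw [Finset.biUnion_insert, Finset.sum_insert ha]
    have h1 := Finset.sum_union_inter (s₁ := t a) (s₂ := s.biUnion t) (f := f)
    have h2 : 0 ≤ ∑ b ∈ t a ∩ s.biUnion t, f b := Nat.zero_le _
    omega

/-- the two children of a cone -/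
def kids (u v : Fin 3 → ℤ) (σ : Cone3) : Finset Cone3 :=
  (Finset.univ.filter (fun i => σ i = u ∨ σ i = v)).image (fun i => Function.update σ i (u + v))

lemma mem_kids {u v : Fin 3 → ℤ} {σ τ : Cone3} :
    τ ∈ kids u v σ ↔ ∃ i, (σ i = u ∨ σ i = v) ∧ Function.update σ i (u + v) = τ := by
  simp only [kids, Finset.mem_image, Finset.mem_filter, Finset.mem_univ, true_and]

lemma card_kids (u v : Fin 3 → ℤ) (σ : Cone3) : (kids u v σ).card ≤ 3 := by
  refine Finset.card_image_le.trans ?_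
  exact (Finset.card_le_univ _).trans (by simp)

/-- general termination scheme for sequences of star subdivisions -/
lemma reach_scheme (F0 : Finset Cone3) (Inv : Cone3 → Prop) (d : Cone3 → ℕ)
    (Final : Finset Cone3 → Prop)
    (hstep : ∀ F', (∀ σ ∈ F', Inv σ) → ¬ Final F' → ∃ u v, u ≠ v ∧
      (∃ σ ∈ F', (∃ i, σ i = u) ∧ (∃ j, σ j = v)) ∧
      ∀ σ ∈ F', ∀ i j, σ i = u → σ j = v →
        (Inv (Function.update σ i (u + v)) ∧ d (Function.update σ i (u + v)) < d σ) ∧
        (Inv (Function.update σ j (u + v)) ∧ d (Function.update σ j (u + v)) < d σ)) :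
    ∀ n : ℕ, ∀ F', Reach F0 F' → (∀ σ ∈ F', Inv σ) → ∑ σ ∈ F', 4 ^ d σ < n →
      ∃ F'', Reach F0 F'' ∧ (∀ σ ∈ F'', Inv σ) ∧ Final F'' := by
  intro n
  induction n with
  | zero => intro F' _ _ h; exact absurd h (Nat.not_lt_zero _)
  | succ n ih =>
    intro F' hR hI hn
    by_cases hfin : Final F'
    · exact ⟨F', hR, hI, hfin⟩
    · obtain ⟨u, v, huv, hex, hall⟩ := hstep F' hI hfin
      have hI' : ∀ τ ∈ starSub F' u v, Inv τ := by
        intro τ hτ
        rw [mem_starSub] at hτ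
        rcases hτ with ⟨h1, _⟩ | ⟨σ, hσ, ⟨i0, hi0⟩, ⟨j0, hj0⟩, i, hi, rfl⟩
        · exact hI τ h1
        · rcases hi with hi | hi
          · exact (hall σ hσ i j0 hi hj0).1.1
          · exact (hall σ hσ i0 i hi0 hi).2.1
      refine ih (starSub F' u v) (Reach.step F' u v hR huv hex) hI' ?_
      -- the potential decreases
      have hle := sum_biUnion_le' F' (fun σ =>
        if (∃ i, σ i = u) ∧ (∃ j, σ j = v) then kids u v σ else {σ}) (fun τ => 4 ^ d τ)
      have hlt : (∑ σ ∈ F', ∑ τ ∈ (fun σ : Cone3 =>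
          if (∃ i, σ i = u) ∧ (∃ j, σ j = v) then kids u v σ else {σ}) σ, 4 ^ d τ) <
          ∑ σ ∈ F', 4 ^ d σ := by
        have hpt : ∀ σ ∈ F', ((∃ i, σ i = u) ∧ (∃ j, σ j = v)) →
            (∑ τ ∈ kids u v σ, 4 ^ d τ) < 4 ^ d σ := by
          intro σ hσ h
          obtain ⟨⟨i0, hi0⟩, ⟨j0, hj0⟩⟩ := h
          have hb : ∀ τ ∈ kids u v σ, 4 ^ d τ ≤ 4 ^ (d σ - 1) := by
            intro τ hτ
            rw [mem_kids] at hτ
            obtain ⟨i, hi, rfl⟩ := hτ
            apply Nat.pow_le_pow_right (by norm_num)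
            rcases hi with hi | hi
            · have := (hall σ hσ i j0 hi hj0).1.2; omega
            · have := (hall σ hσ i0 i hi0 hi).2.2; omega
          have hcard := card_kids u v σ
          have hd : 1 ≤ d σ := by
            have := (hall σ hσ i0 j0 hi0 hj0).1.2; omega
          have e1 : (∑ τ ∈ kids u v σ, 4 ^ d τ) ≤ (kids u v σ).card • 4 ^ (d σ - 1) :=
            Finset.sum_le_card_nsmul _ _ _ hb
          have e2 : (kids u v σ).card • 4 ^ (d σ - 1) ≤ 3 * 4 ^ (d σ - 1) := by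
            rw [smul_eq_mul]; exact Nat.mul_le_mul_right _ hcard
          have e3 : 0 < 4 ^ (d σ - 1) := by positivity
          have e4 : 4 * 4 ^ (d σ - 1) = 4 ^ d σ := by
            rw [← pow_succ']; congr 1; omega
          omega
        obtain ⟨σ1, hσ1, h1⟩ := hex
        apply Finset.sum_lt_sum
        · intro σ hσ
          by_cases h : (∃ i, σ i = u) ∧ (∃ j, σ j = v)
          · simp only [if_pos h]; exact (hpt σ hσ h).le
          · simp only [if_neg h, Finset.sum_singleton, le_refl]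
        · refine ⟨σ1, hσ1, ?_⟩
          simp only [if_pos h1]
          exact hpt σ1 hσ1 h1
      have heq : starSub F' u v = F'.biUnion (fun σ =>
        if (∃ i, σ i = u) ∧ (∃ j, σ j = v) then kids u v σ else {σ}) := rfl
      rw [heq]
      exact lt_of_lt_of_le (lt_of_le_of_lt hle hlt) (Nat.lt_succ_iff.mp hn)

lemma reach_scheme' (F0 : Finset Cone3) (Inv : Cone3 → Prop) (d : Cone3 → ℕ)
    (Final : Finset Cone3 → Prop)
    (hstep : ∀ F', (∀ σ ∈ F', Inv σ) → ¬ Final F' → ∃ u v, u ≠ v ∧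
      (∃ σ ∈ F', (∃ i, σ i = u) ∧ (∃ j, σ j = v)) ∧
      ∀ σ ∈ F', ∀ i j, σ i = u → σ j = v →
        (Inv (Function.update σ i (u + v)) ∧ d (Function.update σ i (u + v)) < d σ) ∧
        (Inv (Function.update σ j (u + v)) ∧ d (Function.update σ j (u + v)) < d σ))
    {F' : Finset Cone3} (hR : Reach F0 F') (hI : ∀ σ ∈ F', Inv σ) :
      ∃ F'', Reach F0 F'' ∧ (∀ σ ∈ F'', Inv σ) ∧ Final F'' :=
  reach_scheme F0 Inv d Final hstep _ F' hR hI (Nat.lt_succ_self _)

section stage0

variable {F : Finset Cone3} (hF : IsFan F)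

include hF

lemma Inv0.wt_pos {σ : Cone3} (h : Inv0 F σ) (i : Fin 3) : 1 ≤ wtn F (σ i) := by
  obtain ⟨h1, σ0, h2, n, h3⟩ := h
  rw [h3 i, hF.wtn_eq h2]
  by_contra hcon
  have h0 : sm (n i) = 0 := by omega
  have hn : ∀ k, n i k = 0 := by
    intro k
    have := Finset.sum_eq_zero_iff.mp h0 k (Finset.mem_univ _)
    exact this
  have hz : σ i = 0 := by
    rw [h3 i]; funext a; simp [nc, hn]
  have : deR σ = 0 := by
    rw [deR]
    fin_cases i <;> simp only [Fin.zero_eta, Fin.mk_one, Fin.reduceFinMk] at hz <;>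
      simp [de_expand, toR, hz]
  rw [this] at h1
  norm_num at h1

lemma Inv0.wt_add {σ : Cone3} (h : Inv0 F σ) (i j : Fin 3) :
    wtn F (σ i + σ j) = wtn F (σ i) + wtn F (σ j) := by
  obtain ⟨h1, σ0, h2, n, h3⟩ := h
  rw [h3 i, h3 j, ← nc_add, hF.wtn_eq h2, hF.wtn_eq h2, hF.wtn_eq h2, sm_add]

/-- Stage 0: all edges have total weight larger than `K`. -/
lemma stage0 (K : ℕ) : ∃ F', Reach F F' ∧ (∀ σ ∈ F', Inv0 F σ) ∧
    ∀ σ ∈ F', ∀ i j, i ≠ j → K < wtn F (σ i) + wtn F (σ j) := by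
  classical
  apply reach_scheme' F (Inv0 F) (fun σ => ∑ k, (K - wtn F (σ k)))
    (fun F' => ∀ σ ∈ F', ∀ i j, i ≠ j → K < wtn F (σ i) + wtn F (σ j)) ?_ Reach.base
  · intro σ hσ
    refine ⟨hF.abs_deR hσ, σ, hσ, fun j => Pi.single j 1, ?_⟩
    intro j
    funext i
    simp only [nc]
    rw [Finset.sum_eq_single j]
    · simp
    · intro b _ hb
      simp [hb]
    · simp
  · intro F' hI hfin
    push Not at hfin
    obtain ⟨σ1, hσ1, i1, j1, hij1, hw⟩ := hfin
    refine ⟨σ1 i1, σ1 j1, ?_, ⟨σ1, hσ1, ⟨i1, rfl⟩, ⟨j1, rfl⟩⟩, ?_⟩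
    · intro heq
      have : deR σ1 = 0 := by
        rw [deR]
        fin_cases i1 <;> fin_cases j1 <;>
          simp only [Fin.zero_eta, Fin.mk_one, Fin.reduceFinMk, ne_eq, not_true_eq_false]
            at hij1 <;>
          simp only [Fin.zero_eta, Fin.mk_one, Fin.reduceFinMk] at heq <;>
          simp only [de_expand, heq] <;> ring
      have h1 := (hI σ1 hσ1).1
      rw [this] at h1
      norm_num at h1
    · have hw1 := (hI σ1 hσ1).wt_pos hF i1
      have hw2 := (hI σ1 hσ1).wt_pos hF j1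
      have huv : σ1 i1 ≠ σ1 j1 := by
        intro heq
        have : deR σ1 = 0 := by
          rw [deR]
          fin_cases i1 <;> fin_cases j1 <;>
            simp only [Fin.zero_eta, Fin.mk_one, Fin.reduceFinMk, ne_eq, not_true_eq_false]
              at hij1 <;>
            simp only [Fin.zero_eta, Fin.mk_one, Fin.reduceFinMk] at heq <;>
            simp only [de_expand, heq] <;> ring
        have h1 := (hI σ1 hσ1).1
        rw [this] at h1
        norm_num at h1
      intro σ hσ i j hi hj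
      have hij : i ≠ j := by
        rintro rfl
        exact huv (hi.symm.trans hj)
      have hadd := (hI σ hσ).wt_add hF i j
      rw [hi, hj] at hadd
      have key : ∀ a b : Fin 3, a ≠ b → ((σ a = σ1 i1 ∧ σ b = σ1 j1) ∨
          (σ a = σ1 j1 ∧ σ b = σ1 i1)) →
          Inv0 F (Function.update σ a (σ1 i1 + σ1 j1)) ∧
          ∑ k, (K - wtn F (Function.update σ a (σ1 i1 + σ1 j1) k)) <
            ∑ k, (K - wtn F (σ k)) := by
        intro a b hab hor
        constructor
        · rcases hor with ⟨h1, h2⟩ | ⟨h1, h2⟩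
          · rw [← h1, ← h2]; exact (hI σ hσ).child hab
          · rw [← h1, ← h2, add_comm]; exact (hI σ hσ).child hab
        · apply Finset.sum_lt_sum
          · intro k _
            by_cases hk : k = a
            · subst hk
              rw [Function.update_self, hadd]
              rcases hor with ⟨h1, h2⟩ | ⟨h1, h2⟩ <;> rw [h1] <;> omega
            · rw [Function.update_of_ne hk]
          · refine ⟨a, Finset.mem_univ _, ?_⟩
            rw [Function.update_self, hadd]
            rcases hor with ⟨h1, h2⟩ | ⟨h1, h2⟩ <;> rw [h1] <;> omega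
      exact ⟨key i j hij (Or.inl ⟨hi, hj⟩), key j i hij.symm (Or.inr ⟨hj, hi⟩)⟩

end stage0

end Pool.Agent.TD47
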