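import Pool.Agent.TD47.Rec
import Pool.Agent.TD47.Fine

/-!
# Bound for the Lelong numbers in terms of the size of the two-dimensional cones
-/

open scoped Topology

namespace Pool.Agent.TD47

lemma abs_le_nr (x : V3) (j : Fin 3) : |x j| ≤ nr x := by
  apply Real.abs_le_sqrt
  fin_cases j <;> simp only [dt, Fin.zero_eta, Fin.mk_one, Fin.reduceFinMk] <;>
    nlinarith [mul_self_nonneg (x 0), mul_self_nonneg (x 1), mul_self_nonneg (x 2)]

lemma l1_le_nr (x : V3) : l1 x ≤ 3 * nr x := by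
  unfold l1
  rw [Fin.sum_univ_three]
  linarith [abs_le_nr x 0, abs_le_nr x 1, abs_le_nr x 2]

section

variable {h : V3 → ℝ} {L : ℝ} (hL0 : 0 ≤ L) (hlip : ∀ u v, |h u - h v| ≤ L * l1 (u - v))
  (hsm : ∀ (s : ℝ) (v : V3), 0 ≤ s → h (s • v) = s * h v)

include hL0 hlip hsm

lemma K_le {l u v : V3} (hv : 0 < dt l v) (hu : 0 < dt l u) :
    h (u + v) ≤ h u + h v + 6 * L * nr l * (ed u v / dt l v) := by
  set r := dt l u / dt l v with hr
  have hr0 : 0 < r := div_pos hu hv
  set d : V3 := u - r • v with hd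
  have hd1 : d = (1 / dt l v) • cr l (cr u v) := by
    rw [bac_cab, smul_sub, smul_smul, smul_smul, one_div, inv_mul_cancel₀ hv.ne', one_smul, hd, hr]
    congr 2
    field_simp
  have hd2 : l1 d ≤ 3 * (nr l * (ed u v / dt l v)) := by
    refine (l1_le_nr d).trans ?_
    have h1 : nr d = 1 / dt l v * nr (cr l (cr u v)) := by
      rw [hd1, nr_smul, abs_of_pos (by positivity)]
    have h2 := nr_cr_le l (cr u v)
    have h3 : 1 / dt l v * nr (cr l (cr u v)) ≤ 1 / dt l v * (nr l * ed u v) :=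
      mul_le_mul_of_nonneg_left h2 (by positivity)
    rw [h1]
    have h4 : 1 / dt l v * (nr l * ed u v) = nr l * (ed u v / dt l v) := by ring
    linarith
  have h1 := hlip (u + v) ((1 + r) • v)
  have e1 : u + v - (1 + r) • v = d := by rw [hd]; module
  rw [e1] at h1
  have h2 := hlip u (r • v)
  rw [hsm _ _ (by linarith)] at h1
  rw [hsm _ _ hr0.le] at h2
  have e2 : u - r • v = d := rfl
  rw [e2] at h2
  have h3 := (abs_le.mp h1).2
  have h4 := (abs_le.mp h2).1
  have h5 := mul_le_mul_of_nonneg_left hd2 hL0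
  linarith

lemma K2 {l u v : V3} (hu : 0 < dt l u) (hv : 0 < dt l v) {η : ℝ}
    (he : ed u v ≤ η * (dt l u + dt l v)) : h (u + v) ≤ h u + h v + 12 * L * nr l * η := by
  have hLl : 0 ≤ 6 * L * nr l := mul_nonneg (by linarith) (nr_nonneg l)
  have hη : 0 ≤ η := by
    by_contra hcon
    push Not at hcon
    have := ed_nonneg u v
    nlinarith
  rcases le_total (dt l u) (dt l v) with hle | hle
  · have h1 := K_le hL0 hlip hsm hv hu
    have h2 : ed u v / dt l v ≤ 2 * η := by
      rw [div_le_iff₀ hv]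
      nlinarith
    have h3 := mul_le_mul_of_nonneg_left h2 hLl
    linarith
  · have h1 := K_le hL0 hlip hsm hu hv
    have h2 : ed v u / dt l u ≤ 2 * η := by
      rw [div_le_iff₀ hu, ed_comm]
      nlinarith
    have h3 := mul_le_mul_of_nonneg_left h2 hLl
    rw [add_comm u v]
    linarith

lemma K3 {l a b c : V3} (ha : 0 < dt l a) (hb : 0 < dt l b) (hc : 0 < dt l c) {δ : ℝ}
    (hab : ed a b ≤ δ * (dt l a + dt l b)) (hac : ed a c ≤ δ * (dt l a + dt l c))
    (hbc : ed b c ≤ δ * (dt l b + dt l c)) :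
    h (a + b + c) ≤ h a + h b + h c + 36 * L * nr l * δ := by
  have hδ : 0 ≤ δ := by
    by_contra hcon
    push Not at hcon
    have := ed_nonneg a b
    nlinarith
  have h1 := K2 hL0 hlip hsm ha hb hab
  have hab' : 0 < dt l (a + b) := by rw [dt_add]; linarith
  have h2 := K2 hL0 hlip hsm hab' hc (η := 2 * δ) (by
    have h3 := ed_add_le a b c
    rw [ed_comm] at h3
    rw [ed_comm c a, ed_comm c b] at h3
    rw [dt_add]
    nlinarith)
  linarith

/-- all faces of a cone -/
lemma K_all {l : V3} {a : Fin 3 → V3} (ha : ∀ j, 0 < dt l (a j)) {δ : ℝ}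
    (hab : ∀ i j, i ≠ j → ed (a i) (a j) ≤ δ * (dt l (a i) + dt l (a j)))
    {χ : Fin 3 → ℝ} (hχ : ∀ j, χ j = 0 ∨ χ j = 1) :
    h (∑ j, χ j • a j) ≤ ∑ j, χ j * h (a j) + 36 * L * nr l * δ := by
  have h01 := hab 0 1 (by decide)
  have hδ : 0 ≤ δ := by
    by_contra hcon
    push Not at hcon
    have := ed_nonneg (a 0) (a 1)
    have := ha 0
    have := ha 1
    nlinarith
  have h02 := hab 0 2 (by decide)
  have h12 := hab 1 2 (by decide)
  have hLl : 0 ≤ 12 * L * nr l * δ := mul_nonneg (mul_nonneg (by linarith) (nr_nonneg l)) hδ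
  have k01 := K2 hL0 hlip hsm (ha 0) (ha 1) h01
  have k02 := K2 hL0 hlip hsm (ha 0) (ha 2) h02
  have k12 := K2 hL0 hlip hsm (ha 1) (ha 2) h12
  have k3 := K3 hL0 hlip hsm (ha 0) (ha 1) (ha 2) h01 h02 h12
  have hz : h 0 = 0 := by
    have := hsm 0 0 le_rfl
    rwa [zero_smul, zero_mul] at this
  rw [Fin.sum_univ_three, Fin.sum_univ_three]
  rcases hχ 0 with e0 | e0 <;> rcases hχ 1 with e1 | e1 <;> rcases hχ 2 with e2 | e2 <;>
    rw [e0, e1, e2] <;>
    simp only [zero_smul, one_smul, zero_mul, one_mul, zero_add, add_zero] <;> linarith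

end

end Pool.Agent.TD47
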