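import Pool.Agent.TD47.Chain

/-!
# Two fixed rays: the third one can be replaced only finitely many times
-/

namespace Pool.Agent.TD47

/-- the ray `r` is replaced by `p + r` or `q + r`, in a greedy step -/
def sub (l : V3) (N T M m : ℝ) (p q : V3) : V3 → V3 → Prop := fun r' r =>
  St l N T M p q r ∧ ((ch l m p r q ∧ r' = p + r) ∨ (ch l m q r p ∧ r' = q + r))

/-- from `A² ≤ P² + n²`, `0 ≤ P`, `0 < A` get `A ≤ P + n² / A` -/
lemma le_add_div {A P n : ℝ} (hA : 0 < A) (hP : 0 ≤ P) (h : A ^ 2 ≤ P ^ 2 + n ^ 2) :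
    A ≤ P + n ^ 2 / A := by
  have h1 : A * A ≤ A * (P + n ^ 2 / A) := by
    have : A * (P + n ^ 2 / A) = A * P + n ^ 2 := by field_simp
    rw [this]
    by_cases hc : A ≤ P
    · nlinarith [sq_nonneg n]
    · push Not at hc
      nlinarith
  exact le_of_mul_le_mul_left h1 hA

variable {l : V3} {N T δ m M : ℝ} {p q : V3}

/-- the contradiction at a switch -/
lemma switch (P : Par l N T δ) (hm : δ ≤ m) {r : V3}
    (h : St l N T M p q r) (h' : St l N T M p q (p + r))
    (hc : ch l m p r q) (hc' : ch l m q (p + r) p)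
    (hP : 0 ≤ dt (cr p r) (cr p q)) (hQ : 0 ≤ dt (cr (p + r) q) (cr p q)) :
    let θ := max (mu l p q) m
    let nz := ed p q
    let W := dt l p + dt l r
    nz * (θ * (dt l p * dt l q) - nr l) ≤
      dt l q * (nr p ^ 2 / (θ * W * nz)) + dt l p * (nr q ^ 2 / (θ * (dt l q + W) * nz)) := by
  intro θ nz W
  have hp := h.val.hx; have hq := h.val.hy; have hr := h.val.hz
  have hθm : m ≤ θ := le_max_right _ _
  have hθ : 0 < θ := lt_of_lt_of_le (P.δpos.trans_le hm) hθm
  have hθ0 : mu l p q ≤ θ := le_max_left _ _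
  have hW : 0 < W := by positivity
  have hW' : dt l (p + r) = W := by rw [dt_add]
  have hdet := h.val.det
  have hdet' := h'.val.det
  -- nz > 0
  have hnz0 : 0 < nz := by
    have h1 : |de p q r| ≤ nr (cr p q) * nr r := by
      have : de p q r = dt r (cr p q) := by rw [← de_rot, ← de_rot]; rfl
      rw [this, mul_comm]; exact abs_dt_le _ _
    rw [hdet] at h1
    by_contra hcon
    have h2 : nr (cr p q) = 0 := le_antisymm (not_lt.mp hcon) (nr_nonneg _)
    rw [h2] at h1
    norm_num at h1
  -- lower bounds for the two chosen edges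
  have hpr : θ * W ≤ ed p r := by
    rw [ed_eq (l := l) (by linarith) (by linarith)]
    apply mul_le_mul_of_nonneg_right _ hW.le
    apply max_le
    · exact hc.2.1
    · exact hc.1.le
  have hqr : θ * (dt l q + W) ≤ ed q (p + r) := by
    rw [ed_eq (l := l) (by linarith) (by rw [dt_add]; linarith), hW']
    apply mul_le_mul_of_nonneg_right _ (by linarith)
    apply max_le
    · rw [mu_comm]; exact hc'.2.1
    · exact hc'.1.le
  -- Pythagoras
  have py1 : (ed p r * nz) ^ 2 = dt (cr p r) (cr p q) ^ 2 + nr p ^ 2 := by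
    have := nr_mul_nr_sq (cr p r) (cr p q)
    have h2 : cr (cr p r) (cr p q) = (de q p r) • p := by
      funext i
      fin_cases i <;>
        simp only [de_expand, cr, Pi.smul_apply, smul_eq_mul, Matrix.cons_val_zero,
          Matrix.cons_val_one, Matrix.cons_val_two, Matrix.head_cons, Matrix.tail_cons,
          Fin.zero_eta, Fin.mk_one, Fin.reduceFinMk] <;> ring
    rw [h2, nr_smul, de_swap, abs_neg, hdet, one_mul] at this
    exact this
  have py2 : (ed q (p + r) * nz) ^ 2 = dt (cr (p + r) q) (cr p q) ^ 2 + nr q ^ 2 := by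
    have := nr_mul_nr_sq (cr (p + r) q) (cr p q)
    have h2 : cr (cr (p + r) q) (cr p q) = (de p q r) • q := by
      funext i
      fin_cases i <;>
        simp only [de_expand, cr, Pi.smul_apply, smul_eq_mul, Matrix.cons_val_zero,
          Matrix.cons_val_one, Matrix.cons_val_two, Matrix.head_cons, Matrix.tail_cons,
          Fin.zero_eta, Fin.mk_one, Fin.reduceFinMk, Pi.add_apply] <;> ring
    rw [h2, nr_smul, hdet, one_mul] at this
    rw [ed_comm q]
    exact this
  -- lower bounds for the dot products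
  have lb1 : θ * W * nz ≤ dt (cr p r) (cr p q) + nr p ^ 2 / (θ * W * nz) := by
    apply le_add_div (by positivity) hP
    rw [← py1]
    apply pow_le_pow_left₀ (by positivity)
    exact mul_le_mul_of_nonneg_right hpr hnz0.le
  have lb2 : θ * (dt l q + W) * nz ≤
      dt (cr (p + r) q) (cr p q) + nr q ^ 2 / (θ * (dt l q + W) * nz) := by
    apply le_add_div (by positivity) hQ
    rw [← py2]
    apply pow_le_pow_left₀ (by positivity)
    exact mul_le_mul_of_nonneg_right hqr hnz0.le
  -- the identity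
  have hid := basic_id l p q (p + r) (cr p q)
  have e1 : dt (cr q (p + r)) (cr p q) = - dt (cr (p + r) q) (cr p q) := by
    rw [cr_comm q]; simp only [dt, Pi.neg_apply]; ring
  have e2 : dt (cr (p + r) p) (cr p q) = - dt (cr p r) (cr p q) := by
    rw [cr_comm (p + r) p, cr_add, cr_self, zero_add]; simp only [dt, Pi.neg_apply]; ring
  have e3 : dt (cr p q) (cr p q) = nz ^ 2 := by rw [← nr_sq]; rfl
  rw [e1, e2, e3, hW'] at hid
  have hD1 : -(nr l * nz) ≤ de p q (p + r) * dt l (cr p q) := by
    have : |de p q (p + r) * dt l (cr p q)| ≤ nr l * nz := by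
      rw [abs_mul, hdet', one_mul]; exact abs_dt_le _ _
    exact (abs_le.mp this).1
  have hnz1 : nz ≤ θ * (dt l p + dt l q) := by
    have := ed_eq (l := l) (x := p) (y := q) (by linarith) (by linarith)
    change nz = _ at this
    rw [this]
    exact mul_le_mul_of_nonneg_right hθ0 (by linarith)
  have h5 : W * nz ^ 2 ≤ W * nz * (θ * (dt l p + dt l q)) := by
    have : W * nz ^ 2 = W * nz * nz := by ring
    rw [this]
    exact mul_le_mul_of_nonneg_left hnz1 (by positivity)
  have m1 := mul_le_mul_of_nonneg_left lb1 (show (0:ℝ) ≤ dt l q by linarith)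
  have m2 := mul_le_mul_of_nonneg_left lb2 (show (0:ℝ) ≤ dt l p by linarith)
  nlinarith

lemma no_const (P : Par l N T δ) (hm : δ ≤ m) {f : ℕ → V3} (n0 : ℕ)
    (hst : ∀ n, St l N T M p q (f n))
    (h : ∀ n, n0 ≤ n → ch l m p (f n) q ∧ f (n + 1) = p + f n) : False := by
  have hmpos : 0 < m := P.δpos.trans_le hm
  have hp : 1 ≤ dt l p := (hst 0).val.hx
  have key : ∀ k : ℕ, ed p (f (n0 + k)) = ed p (f n0) ∧ (k : ℝ) ≤ dt l (f (n0 + k)) := by
    intro k
    induction k with
    | zero =>
      refine ⟨rfl, ?_⟩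
      have := (hst n0).val.hz
      simp only [add_zero, Nat.cast_zero]; linarith
    | succ k ih =>
      have h1 := (h (n0 + k) (by omega)).2
      rw [← add_assoc]
      rw [h1]
      refine ⟨?_, ?_⟩
      · rw [ed_self_add]; exact ih.1
      · rw [dt_add]; push_cast; linarith [ih.2]
  obtain ⟨k, hk⟩ := exists_nat_gt (ed p (f n0) / m)
  have h2 := (h (n0 + k) (by omega)).1.1
  have hz := (hst (n0 + k)).val.hz
  rw [lt_mu_iff (by linarith) (by linarith), (key k).1] at h2
  rw [div_lt_iff₀ hmpos] at hk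
  nlinarith [(key k).2]

lemma eventually_nonneg' (a : ℕ → ℝ) (c : ℝ) (hc : 0 < c) (hmono : ∀ n, a n ≤ a (n + 1))
    (hinc : ∀ n0, ∃ n, n0 ≤ n ∧ a n + c ≤ a (n + 1)) : ∃ K, ∀ n, K ≤ n → 0 ≤ a n := by
  have hm : Monotone a := monotone_nat_of_le_succ hmono
  have key : ∀ k : ℕ, ∃ n, a 0 + k * c ≤ a n := by
    intro k
    induction k with
    | zero => exact ⟨0, by simp⟩
    | succ k ih =>
      obtain ⟨n, hn⟩ := ih
      obtain ⟨n', hn', h'⟩ := hinc n
      refine ⟨n' + 1, ?_⟩
      have := hm hn'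
      push_cast
      linarith
  obtain ⟨k, hk⟩ := exists_nat_gt (-(a 0) / c)
  rw [div_lt_iff₀ hc] at hk
  obtain ⟨K, hK⟩ := key k
  refine ⟨K, fun n hn => ?_⟩
  have := hm hn
  linarith

theorem acc_sub (P : Par l N T δ) (hm : δ ≤ m) (p q r : V3) :
    Acc (sub l N T M m p q) r := by
  by_contra hacc
  obtain ⟨f, -, hf⟩ := not_acc_iff_exists_descending_chain.mp hacc
  have hst : ∀ n, St l N T M p q (f n) := fun n => (hf n).1
  have hst' : ∀ n, St l N T M q p (f n) := fun n => (hst n).swap12
  have hor : ∀ n, (ch l m p (f n) q ∧ f (n + 1) = p + f n) ∨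
      (ch l m q (f n) p ∧ f (n + 1) = q + f n) := fun n => (hf n).2
  have hmpos : 0 < m := P.δpos.trans_le hm
  have hp : 1 ≤ dt l p := (hst 0).val.hx
  have hq : 1 ≤ dt l q := (hst 0).val.hy
  have hQinf : ∀ n0, ∃ n, n0 ≤ n ∧ (ch l m q (f n) p ∧ f (n + 1) = q + f n) := by
    intro n0
    by_contra hcon
    push Not at hcon
    apply no_const P hm n0 hst
    intro n hn
    rcases hor n with h | h
    · exact h
    · exact absurd h.2 (hcon n hn h.1)
  have hPinf : ∀ n0, ∃ n, n0 ≤ n ∧ (ch l m p (f n) q ∧ f (n + 1) = p + f n) := by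
    intro n0
    by_contra hcon
    push Not at hcon
    apply no_const P hm n0 hst'
    intro n hn
    rcases hor n with h | h
    · exact absurd h.2 (hcon n hn h.1)
    · exact h
  have hw : ∀ n : ℕ, (n : ℝ) ≤ dt l (f n) := by
    intro n
    induction n with
    | zero => have := (hst 0).val.hz; push_cast; linarith
    | succ n ih =>
      rcases hor n with h | h <;> rw [h.2, dt_add] <;> push_cast <;> linarith
  -- `nz > 0`
  set nz := ed p q with hnz
  have hnz0 : 0 < nz := by
    have h1 : |de p q (f 0)| ≤ nr (cr p q) * nr (f 0) := by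
      have : de p q (f 0) = dt (f 0) (cr p q) := by rw [← de_rot, ← de_rot]; rfl
      rw [this, mul_comm]; exact abs_dt_le _ _
    rw [(hst 0).val.det] at h1
    by_contra hcon
    have h2 : nr (cr p q) = 0 := le_antisymm (not_lt.mp hcon) (nr_nonneg _)
    rw [h2] at h1
    norm_num at h1
  have hself : dt (cr p q) (cr p q) = nz ^ 2 := by rw [← nr_sq]; rfl
  -- signs
  obtain ⟨K1, hK1⟩ := eventually_nonneg' (fun n => dt (cr p (f n)) (cr p q)) (nz ^ 2)
    (by positivity)
    (by
      intro n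
      rcases hor n with h | h
      · simp only [h.2]; rw [cr_add, cr_self, zero_add]
      · simp only [h.2]; rw [cr_add, add_dt, hself]; nlinarith)
    (by
      intro n0
      obtain ⟨n, hn, h⟩ := hQinf n0
      refine ⟨n, hn, ?_⟩
      simp only [h.2]; rw [cr_add, add_dt, hself]; linarith)
  obtain ⟨K2, hK2⟩ := eventually_nonneg' (fun n => dt (cr (f n) q) (cr p q)) (nz ^ 2)
    (by positivity)
    (by
      intro n
      rcases hor n with h | h
      · simp only [h.2]; rw [add_cr, add_dt, hself]; nlinarith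
      · simp only [h.2]; rw [add_cr, cr_self, zero_add])
    (by
      intro n0
      obtain ⟨n, hn, h⟩ := hPinf n0
      refine ⟨n, hn, ?_⟩
      simp only [h.2]; rw [add_cr, add_dt, hself]; linarith)
  -- the bound
  set θ := max (mu l p q) m with hθdef
  have hθm : m ≤ θ := le_max_right _ _
  have hθ : 0 < θ := lt_of_lt_of_le hmpos hθm
  set C := (dt l q * nr p ^ 2 + dt l p * nr q ^ 2) / (θ * nz) with hC
  have hC0 : 0 ≤ C := by positivity
  set c1 := nz * (θ * (dt l p * dt l q) - nr l) with hc1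
  have hc1pos : 0 < c1 := by
    apply mul_pos hnz0
    have h1 : δ * T ≤ θ * (dt l p * dt l q) :=
      mul_le_mul (hm.trans hθm) (hst 0).val.pxy P.Tpos.le hθ.le
    have h2 := P.hT1
    have h3 := nr_nonneg l
    linarith
  obtain ⟨K3, hK3⟩ := exists_nat_gt (C / c1)
  rw [div_lt_iff₀ hc1pos] at hK3
  -- a switch beyond all bounds
  obtain ⟨n1, hn1, hp1⟩ := hPinf (max (max K1 K2) K3)
  have hex : ∃ n, n1 < n ∧ (ch l m q (f n) p ∧ f (n + 1) = q + f n) := by
    obtain ⟨n, hn, h⟩ := hQinf (n1 + 1)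
    exact ⟨n, by omega, h⟩
  classical
  set n2 := Nat.find hex with hn2
  have hn2spec := Nat.find_spec hex
  rw [← hn2] at hn2spec
  obtain ⟨hlt, hq2⟩ := hn2spec
  obtain ⟨n, hn⟩ : ∃ n, n2 = n + 1 := ⟨n2 - 1, by omega⟩
  have hpn : ch l m p (f n) q ∧ f (n + 1) = p + f n := by
    rcases hor n with h | h
    · exact h
    · by_cases hnn : n = n1
      · subst hnn; exact hp1
      · exfalso
        have : n2 ≤ n := Nat.find_min' hex ⟨by omega, h⟩
        omega
  rw [hn] at hq2
  have hnK : max (max K1 K2) K3 ≤ n := by omega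
  have hKK1 : K1 ≤ n := le_trans (le_trans (le_max_left _ _) (le_max_left _ _)) hnK
  have hKK2 : K2 ≤ n + 1 := le_trans (le_trans (le_max_right _ _) (le_max_left _ _))
    (hnK.trans (Nat.le_succ n))
  have hKK3 : K3 ≤ n := le_trans (le_max_right _ _) hnK
  have hchq : ch l m q (p + f n) p := by rw [← hpn.2]; exact hq2.1
  have hsw := switch P hm (hst n) (by rw [← hpn.2]; exact hst (n + 1)) hpn.1 hchq
    (hK1 n hKK1) (by rw [← hpn.2]; exact hK2 (n + 1) hKK2)
  simp only at hsw
  have hzn := (hst n).val.hz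
  have hWn : (n : ℝ) ≤ dt l p + dt l (f n) := by linarith [hw n]
  set W := dt l p + dt l (f n) with hW
  have hWpos : 0 < W := by linarith
  have b1 : nr q ^ 2 / (θ * (dt l q + W) * nz) ≤ nr q ^ 2 / (θ * W * nz) := by
    apply div_le_div_of_nonneg_left (sq_nonneg _) (by positivity)
    apply mul_le_mul_of_nonneg_right _ hnz0.le
    apply mul_le_mul_of_nonneg_left _ hθ.le
    linarith
  have b2 : dt l q * (nr p ^ 2 / (θ * W * nz)) + dt l p * (nr q ^ 2 / (θ * W * nz)) = C / W := by
    rw [hC]; field_simp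
  have b3 : C / W < c1 := by
    rw [div_lt_iff₀ hWpos]
    have : (K3 : ℝ) ≤ W := by
      have : (K3 : ℝ) ≤ n := by exact_mod_cast hKK3
      linarith
    nlinarith
  have b4 := mul_le_mul_of_nonneg_left b1 (show (0:ℝ) ≤ dt l p by linarith)
  have b5 : c1 ≤ dt l q * (nr p ^ 2 / (θ * W * nz)) +
      dt l p * (nr q ^ 2 / (θ * (dt l q + W) * nz)) := hsw
  linarith

end Pool.Agent.TD47
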