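import Pool.Agent.TD47.Cvx
import Pool.Agent.TD47.Defs

/-!
# Uniform Lipschitz bounds for torus-invariant quasi-psh functions
-/

open scoped Topology

namespace Pool.Agent.TD47

/-- the matrix of a cone -/
def MR (σ : Cone3) : Matrix (Fin 3) (Fin 3) ℝ := Matrix.of fun j i => (σ j i : ℝ)

lemma comb_eq (σ : Cone3) (t : Fin 3 → ℝ) : comb σ t = Matrix.vecMul t (MR σ) := by
  funext i
  simp [comb, Matrix.vecMul, dotProduct, MR]

/-- coordinates with respect to the rays of a cone -/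
noncomputable def co (σ : Cone3) (x : Fin 3 → ℝ) : Fin 3 → ℝ := Matrix.vecMul x (MR σ)⁻¹

lemma det_MR (σ : Cone3) : (MR σ).det = ((Matrix.det (Matrix.of σ) : ℤ) : ℝ) := by
  rw [Matrix.det_fin_three, Matrix.det_fin_three]
  simp only [MR, Matrix.of_apply]
  push_cast
  ring

lemma IsFan.det_unit {F : Finset Cone3} (hF : IsFan F) {σ : Cone3} (hσ : σ ∈ F) :
    IsUnit (MR σ).det := by
  rw [det_MR]
  rcases hF.unimod σ hσ with h | h <;> rw [h] <;> simp

lemma comb_co {σ : Cone3} (h : IsUnit (MR σ).det) (x : Fin 3 → ℝ) : comb σ (co σ x) = x := by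
  rw [comb_eq, co, Matrix.vecMul_vecMul, Matrix.nonsing_inv_mul _ h, Matrix.vecMul_one]

lemma co_comb {σ : Cone3} (h : IsUnit (MR σ).det) (x : Fin 3 → ℝ) : co σ (comb σ x) = x := by
  rw [comb_eq, co, Matrix.vecMul_vecMul, Matrix.mul_nonsing_inv _ h, Matrix.vecMul_one]

lemma comb_add (σ : Cone3) (x y : Fin 3 → ℝ) : comb σ (x + y) = comb σ x + comb σ y := by
  rw [comb_eq, comb_eq, comb_eq, Matrix.add_vecMul]

lemma comb_smul (σ : Cone3) (c : ℝ) (x : Fin 3 → ℝ) : comb σ (c • x) = c • comb σ x := by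
  rw [comb_eq, comb_eq, Matrix.smul_vecMul]

lemma comb_neg (σ : Cone3) (x : Fin 3 → ℝ) : comb σ (-x) = -comb σ x := by
  rw [comb_eq, comb_eq, Matrix.neg_vecMul]

lemma comb_zero (σ : Cone3) : comb σ 0 = 0 := by
  rw [comb_eq, Matrix.zero_vecMul]

lemma co_add (σ : Cone3) (x y : Fin 3 → ℝ) : co σ (x + y) = co σ x + co σ y := by
  rw [co, co, co, Matrix.add_vecMul]

lemma co_smul (σ : Cone3) (c : ℝ) (x : Fin 3 → ℝ) : co σ (c • x) = c • co σ x := by
  rw [co, co, Matrix.smul_vecMul]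

lemma co_sub (σ : Cone3) (x y : Fin 3 → ℝ) : co σ (x - y) = co σ x - co σ y := by
  rw [co, co, co, Matrix.sub_vecMul]

lemma co_zero (σ : Cone3) : co σ 0 = 0 := by
  rw [co, Matrix.zero_vecMul]

lemma co_continuous (σ : Cone3) : Continuous (co σ) := by
  unfold co
  refine continuous_pi fun j => ?_
  simp only [Matrix.vecMul, dotProduct]
  fun_prop

/-- sum of the absolute values of the entries -/
def msum (M : Matrix (Fin 3) (Fin 3) ℝ) : ℝ := ∑ i, ∑ j, |M i j|

lemma msum_nonneg (M : Matrix (Fin 3) (Fin 3) ℝ) : 0 ≤ msum M :=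
  Finset.sum_nonneg fun _ _ => Finset.sum_nonneg fun _ _ => abs_nonneg _

lemma l1_vecMul (M : Matrix (Fin 3) (Fin 3) ℝ) (x : Fin 3 → ℝ) :
    l1 (Matrix.vecMul x M) ≤ msum M * l1 x := by
  unfold l1 msum
  have h1 : ∀ j, |Matrix.vecMul x M j| ≤ ∑ i, |x i| * |M i j| := by
    intro j
    simp only [Matrix.vecMul, dotProduct]
    refine (Finset.abs_sum_le_sum_abs _ _).trans (le_of_eq ?_)
    exact Finset.sum_congr rfl fun i _ => abs_mul _ _
  calc ∑ j, |Matrix.vecMul x M j| ≤ ∑ j, ∑ i, |x i| * |M i j| :=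
        Finset.sum_le_sum fun j _ => h1 j
    _ = ∑ i, |x i| * ∑ j, |M i j| := by
        rw [Finset.sum_comm]
        exact Finset.sum_congr rfl fun i _ => (Finset.mul_sum _ _ _).symm
    _ ≤ ∑ i, |x i| * ∑ i, ∑ j, |M i j| := by
        refine Finset.sum_le_sum fun i _ => mul_le_mul_of_nonneg_left ?_ (abs_nonneg _)
        exact Finset.single_le_sum (f := fun i => ∑ j, |M i j|)
          (fun i _ => Finset.sum_nonneg fun _ _ => abs_nonneg _) (Finset.mem_univ i)
    _ = (∑ i, ∑ j, |M i j|) * ∑ j, |x j| := by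
        rw [← Finset.sum_mul, mul_comm]

lemma l1_comb (σ : Cone3) (x : Fin 3 → ℝ) : l1 (comb σ x) ≤ msum (MR σ) * l1 x := by
  rw [comb_eq]; exact l1_vecMul _ _

lemma l1_co (σ : Cone3) (x : Fin 3 → ℝ) : l1 (co σ x) ≤ msum (MR σ)⁻¹ * l1 x := l1_vecMul _ _

/-- `φ + C |y|²` in logarithmic coordinates -/
noncomputable def gs (C : ℝ) (f : (Fin 3 → ℝ) → ℝ) (σ : Cone3) (x : Fin 3 → ℝ) : ℝ :=
  f (comb σ x) + C * ∑ j, Real.exp (2 * x j)

/-- a real-valued quasi-psh function in logarithmic coordinates -/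
def QF (F : Finset Cone3) (C : ℝ) (f : (Fin 3 → ℝ) → ℝ) : Prop :=
  ∀ σ ∈ F, ConvexOn ℝ {x | ∀ j, x j < Real.log 2} (gs C f σ) ∧
    MonotoneOn (gs C f σ) {x | ∀ j, x j < Real.log 2}

lemma half_lt_log_two : (1 / 2 : ℝ) < Real.log 2 := by
  have := Real.log_two_gt_d9
  linarith

lemma expsum_convex (s : Set (Fin 3 → ℝ)) (hs : Convex ℝ s) :
    ConvexOn ℝ s (fun x : Fin 3 → ℝ => ∑ j, Real.exp (2 * x j)) := by
  refine ⟨hs, ?_⟩
  intro x _ y _ a b ha hb hab
  simp only [smul_eq_mul, Finset.mul_sum]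
  rw [← Finset.sum_add_distrib]
  refine Finset.sum_le_sum fun j _ => ?_
  have := convexOn_exp.2 (Set.mem_univ (2 * x j)) (Set.mem_univ (2 * y j)) ha hb hab
  simp only [smul_eq_mul] at this
  convert this using 2
  simp only [Pi.add_apply, Pi.smul_apply, smul_eq_mul]
  ring

lemma exp_lip {x z : ℝ} (hx : x ≤ 1 / 2) : Real.exp (2 * x) ≤ Real.exp (2 * z) + 6 * |x - z| := by
  rcases le_total x z with h | h
  · have : Real.exp (2 * x) ≤ Real.exp (2 * z) := Real.exp_le_exp.mpr (by linarith)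
    have := abs_nonneg (x - z)
    linarith
  · rw [abs_of_nonneg (by linarith)]
    have h1 : Real.exp (2 * x) ≤ 3 := by
      have h2 : Real.exp (2 * x) ≤ Real.exp 1 := Real.exp_le_exp.mpr (by linarith)
      have := Real.exp_one_lt_d9
      linarith
    have h2 : Real.exp (2 * z) = Real.exp (2 * x) * Real.exp (2 * (z - x)) := by
      rw [← Real.exp_add]; congr 1; ring
    have h3 := Real.add_one_le_exp (2 * (z - x))
    have h4 := Real.exp_pos (2 * x)
    rw [h2]
    nlinarith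

lemma exp_lip' {x z : ℝ} (hx : x ≤ 1 / 2) (hz : z ≤ 1 / 2) :
    |Real.exp (2 * x) - Real.exp (2 * z)| ≤ 6 * |x - z| := by
  rw [abs_le]
  constructor
  · have := exp_lip (x := z) (z := x) hz
    rw [abs_sub_comm] at this
    linarith
  · have := exp_lip (x := x) (z := z) hx
    linarith

lemma expsum_lip {x z : Fin 3 → ℝ} (hx : ∀ j, x j ≤ 1 / 2) :
    ∑ j, Real.exp (2 * x j) ≤ ∑ j, Real.exp (2 * z j) + 6 * l1 (x - z) := by
  unfold l1
  rw [Finset.mul_sum, ← Finset.sum_add_distrib]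
  exact Finset.sum_le_sum fun j _ => exp_lip (hx j)

/-- extension of `|y|²` -/
noncomputable def thet : (Fin 3 → ℝ) → ℝ := ext (1 / 2) 6 (fun x => ∑ j, Real.exp (2 * x j))

lemma half_convex : Convex ℝ {x : Fin 3 → ℝ | ∀ j, x j ≤ 1 / 2} := by
  intro x hx y hy a b ha hb hab j
  simp only [Pi.add_apply, Pi.smul_apply, smul_eq_mul]
  have h1 := mul_le_mul_of_nonneg_left (hx j) ha
  have h2 := mul_le_mul_of_nonneg_left (hy j) hb
  have h3 : a * (1 / 2) + b * (1 / 2) = 1 / 2 := by rw [← add_mul, hab, one_mul]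
  linarith

lemma thet_eq {x : Fin 3 → ℝ} (hx : ∀ j, x j ≤ 1 / 2) : thet x = ∑ j, Real.exp (2 * x j) :=
  ext_eq hx

lemma thet_convex : ConvexOn ℝ Set.univ thet := by
  refine ext_convex (expsum_convex _ half_convex) ?_ ?_
  · intro x _ y _ hxy
    exact Finset.sum_le_sum fun j _ => Real.exp_le_exp.mpr (by linarith [hxy j])
  · intro x z hx _
    exact expsum_lip hx

lemma thet_lip (x y : Fin 3 → ℝ) : |thet x - thet y| ≤ 12 * l1 (x - y) := by
  have := ext_lip (a := 1 / 2) (B := 6) (G := fun x : Fin 3 → ℝ => ∑ j, Real.exp (2 * x j))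
    (by norm_num) (fun x z hx _ => expsum_lip hx) x y
  have e : (2 * 6 : ℝ) = 12 := by norm_num
  rw [e] at this
  exact this

section

variable {F : Finset Cone3} (hF : IsFan F)

/-- the correction function -/
noncomputable def psi (F : Finset Cone3) (x : Fin 3 → ℝ) : ℝ := ∑ σ ∈ F, thet (co σ x)

/-- its Lipschitz constant -/
noncomputable def psiK (F : Finset Cone3) : ℝ := ∑ σ ∈ F, 12 * msum (MR σ)⁻¹

lemma psiK_nonneg (F : Finset Cone3) : 0 ≤ psiK F :=
  Finset.sum_nonneg fun σ _ => mul_nonneg (by norm_num) (msum_nonneg _)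

lemma psi_lip (x y : Fin 3 → ℝ) : |psi F x - psi F y| ≤ psiK F * l1 (x - y) := by
  unfold psi psiK
  rw [← Finset.sum_sub_distrib, Finset.sum_mul]
  refine (Finset.abs_sum_le_sum_abs _ _).trans (Finset.sum_le_sum fun σ _ => ?_)
  refine (thet_lip _ _).trans ?_
  rw [← co_sub, mul_assoc]
  exact mul_le_mul_of_nonneg_left (l1_co σ _) (by norm_num)

lemma comp_co_convex {g : (Fin 3 → ℝ) → ℝ} (σ : Cone3) {s : Set (Fin 3 → ℝ)}
    (hg : ConvexOn ℝ s g) : ConvexOn ℝ (co σ ⁻¹' s) (fun x => g (co σ x)) := by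
  refine ⟨?_, ?_⟩
  · intro x hx y hy a b ha hb hab
    rw [Set.mem_preimage, co_add, co_smul, co_smul]
    exact hg.1 hx hy ha hb hab
  · intro x hx y hy a b ha hb hab
    simp only
    rw [co_add, co_smul, co_smul]
    exact hg.2 hx hy ha hb hab

include hF

lemma cover (x : Fin 3 → ℝ) : ∃ σ ∈ F, ∀ j, co σ x j ≤ 0 := by
  obtain ⟨σ, hσ, t, ht, hx⟩ := hF.complete (-x)
  refine ⟨σ, hσ, ?_⟩
  have : co σ x = -t := by
    have h1 : x = comb σ (-t) := by rw [comb_neg, hx, neg_neg]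
    rw [h1, co_comb (hF.det_unit hσ)]
  intro j
  rw [this]
  simp [ht j]

variable {C : ℝ} (hC : 0 ≤ C) {f : (Fin 3 → ℝ) → ℝ} (hf : QF F C f)

include hf

include hC in
lemma QF.upper (x : Fin 3 → ℝ) : f x ≤ f 0 + 3 * C := by
  obtain ⟨σ, hσ, hx⟩ := cover hF x
  have hmem : co σ x ∈ {x : Fin 3 → ℝ | ∀ j, x j < Real.log 2} :=
    fun j => lt_of_le_of_lt (hx j) (Real.log_pos (by norm_num))
  have hmem0 : (0 : Fin 3 → ℝ) ∈ {x : Fin 3 → ℝ | ∀ j, x j < Real.log 2} :=
    fun j => Real.log_pos (by norm_num)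
  have h1 := (hf σ hσ).2 hmem hmem0 (fun j => hx j)
  unfold gs at h1
  rw [comb_co (hF.det_unit hσ), comb_zero] at h1
  simp only [Pi.zero_apply, mul_zero, Real.exp_zero, Finset.sum_const, Finset.card_univ,
    Fintype.card_fin, nsmul_eq_mul, mul_one] at h1
  have h2 : 0 ≤ C * ∑ j, Real.exp (2 * co σ x j) :=
    mul_nonneg hC (Finset.sum_nonneg fun j _ => (Real.exp_pos _).le)
  push_cast at h1
  linarith

include hC in
lemma QF.convex : ConvexOn ℝ Set.univ (fun x => f x + C * psi F x) := by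
  classical
  apply convexOn_univ_of_local
  intro x
  obtain ⟨σ, hσ, hx⟩ := cover hF x
  have hconv : Convex ℝ (co σ ⁻¹' {z | ∀ j, z j < 1 / 2}) := by
    intro x hx y hy a b ha hb hab
    rw [Set.mem_preimage, co_add, co_smul, co_smul]
    intro j
    simp only [Pi.add_apply, Pi.smul_apply, smul_eq_mul]
    have h1 : co σ x j < 1 / 2 := hx j
    have h2 : co σ y j < 1 / 2 := hy j
    rcases eq_or_lt_of_le ha with h | h
    · rw [← h] at hab ⊢
      have : b = 1 := by linarith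
      rw [this]; linarith
    · have h3 := mul_lt_mul_of_pos_left h1 h
      have h4 := mul_le_mul_of_nonneg_left h2.le hb
      have h5 : a * (1 / 2) + b * (1 / 2) = 1 / 2 := by rw [← add_mul, hab, one_mul]
      linarith
  refine ⟨co σ ⁻¹' {z | ∀ j, z j < 1 / 2}, ?_, ?_, ?_⟩
  · refine IsOpen.preimage (co_continuous σ) ?_
    have : {z : Fin 3 → ℝ | ∀ j, z j < 1 / 2} = Set.pi Set.univ (fun _ => Set.Iio (1 / 2)) := by
      ext z; simp
    rw [this]
    exact isOpen_set_pi Set.finite_univ (fun _ _ => isOpen_Iio)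
  · intro j
    have := hx j
    linarith
  · have h1 : ConvexOn ℝ (co σ ⁻¹' {z | ∀ j, z j < 1 / 2}) (fun x => gs C f σ (co σ x)) := by
      refine (comp_co_convex σ (hf σ hσ).1).subset ?_ hconv
      intro z hz j
      have : co σ z j < 1 / 2 := hz j
      linarith [half_lt_log_two]
    have h2 : ConvexOn ℝ (co σ ⁻¹' {z | ∀ j, z j < 1 / 2})
        (fun x => ∑ τ ∈ F.erase σ, thet (co τ x)) := by
      have h3 : ∀ T : Finset Cone3, ConvexOn ℝ (co σ ⁻¹' {z | ∀ j, z j < 1 / 2})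
          (fun x => ∑ τ ∈ T, thet (co τ x)) := by
        intro T
        induction T using Finset.induction_on with
        | empty => simpa using convexOn_const (0:ℝ) hconv
        | insert a s ha ih =>
          simp only [Finset.sum_insert ha]
          exact ((comp_co_convex a thet_convex).subset (Set.subset_univ _) hconv).add ih
      exact h3 _
    refine (h1.add (h2.smul hC)).congr ?_
    intro z hz
    simp only [Pi.add_apply, smul_eq_mul, psi]
    rw [← Finset.add_sum_erase F (fun τ => thet (co τ z)) hσ, gs, comb_co (hF.det_unit hσ),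
      thet_eq (fun j => (hz j).le)]
    ring

/-- the uniform Lipschitz constant -/
noncomputable def lipK (F : Finset Cone3) (C : ℝ) : ℝ := 2 * (C * psiK F)

include hC in
lemma QF.lip (x w : Fin 3 → ℝ) : |f (x + w) - f x| ≤ lipK F C * l1 w := by
  have key : ∀ x w : Fin 3 → ℝ, f (x + w) - f x ≤ lipK F C * l1 w := by
    intro x w
    have hb : ∀ x, f x + C * psi F x ≤ (f 0 + 3 * C + C * psi F 0) + (C * psiK F) * l1 x := by
      intro x
      have h1 := hf.upper hF hC x
      have h2 := psi_lip (F := F) x 0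
      rw [sub_zero] at h2
      have h3 := mul_le_mul_of_nonneg_left ((le_abs_self _).trans h2) hC
      linarith
    have h1 := lip_of_bound (hf.convex hF hC) hb x w
    have h2 := psi_lip (F := F) x (x + w)
    have e : l1 (x - (x + w)) = l1 w := by rw [← l1_neg]; congr 1; abel
    rw [e] at h2
    have h3 := mul_le_mul_of_nonneg_left ((le_abs_self _).trans h2) hC
    unfold lipK
    linarith
  rw [abs_le]
  constructor
  · have := key (x + w) (-w)
    rw [add_neg_cancel_right, l1_neg] at this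
    linarith
  · exact key x w

end

end Pool.Agent.TD47
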