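import Pool.Agent.TD47.Vec

/-!
# The key inequality: subdividing the largest edge creates no larger edge
-/

namespace Pool.Agent.TD47

/-- Key inequality in raw form. `k` is the size ratio of the largest edge `x, y`. -/
lemma key_ineq (l x y z : V3) (N k : ℝ) (hk : 0 < k)
    (ha : 0 < dt l x) (hb : 0 < dt l y) (hc : 0 < dt l z)
    (hD : |de x y z| = 1)
    (hxy : ed x y = k * (dt l x + dt l y))
    (hyz : ed y z ≤ k * (dt l y + dt l z))
    (hxz : ed x z ≤ k * (dt l x + dt l z))
    (hn : nr (x + y) ≤ N * (dt l x + dt l y))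
    (h1 : 4 * nr l ≤ k * (dt l z * dt l x)) (h2 : 4 * nr l ≤ k * (dt l z * dt l y))
    (h3 : 2 * N ^ 2 ≤ k ^ 4 * (dt l z * (dt l x + dt l y))) :
    ed z (x + y) ≤ k * (dt l x + dt l y + dt l z / 2) := by
  set a := dt l x with ha'
  set b := dt l y with hb'
  set c := dt l z with hc'
  set nz := ed x y with hnz
  have hnz0 : 0 < nz := by rw [hxy]; positivity
  set p := dt (cr y z) (cr x y) with hp
  set q := dt (cr z x) (cr x y) with hq
  have hzz : dt (cr x y) (cr x y) = nz ^ 2 := by rw [hnz, ed, nr_sq]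
  -- bounds for p and q
  have hpabs : |p| ≤ k * (b + c) * nz :=
    (abs_dt_le _ _).trans (mul_le_mul_of_nonneg_right hyz hnz0.le)
  have hqabs : |q| ≤ k * (a + c) * nz := by
    refine (abs_dt_le _ _).trans (mul_le_mul_of_nonneg_right ?_ hnz0.le)
    have := hxz; rw [ed_comm] at this; exact this
  -- basic identity
  have hid := basic_id l x y z (cr x y)
  rw [← hp, ← hq, hzz, ← ha', ← hb', ← hc'] at hid
  have hD1 : |de x y z * dt l (cr x y)| ≤ nr l * nz := by
    rw [abs_mul, hD, one_mul]; exact abs_dt_le _ _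
  obtain ⟨hD2, hD3⟩ := abs_le.mp hD1
  obtain ⟨hp1, hp2⟩ := abs_le.mp hpabs
  obtain ⟨hq1, hq2⟩ := abs_le.mp hqabs
  -- a (p - q) bound
  have e1 : a * (p - q) ≤ nz * (nr l + k * a * (a + b)) := by
    have h : a * p = de x y z * dt l (cr x y) - b * q - c * nz ^ 2 := by linarith
    have h' : -(b * q) ≤ b * (k * (a + c) * nz) := by nlinarith
    have h'' : -(a * q) ≤ a * (k * (a + c) * nz) := by nlinarith
    have hc2 : c * nz ^ 2 = c * nz * (k * (a + b)) := by rw [← hxy]; ring
    nlinarith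
  have e2 : b * (q - p) ≤ nz * (nr l + k * b * (a + b)) := by
    have h : b * q = de x y z * dt l (cr x y) - a * p - c * nz ^ 2 := by linarith
    have h' : -(a * p) ≤ a * (k * (b + c) * nz) := by nlinarith
    have h'' : -(b * p) ≤ b * (k * (b + c) * nz) := by nlinarith
    have hc2 : c * nz ^ 2 = c * nz * (k * (a + b)) := by rw [← hxy]; ring
    nlinarith
  have e3 : p - q ≤ nz * (k * (a + b + c / 4)) := by
    have : a * (p - q) ≤ a * (nz * (k * (a + b + c / 4))) := by
      refine e1.trans ?_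
      have : nr l ≤ k * (c * a) / 4 := by linarith
      nlinarith [mul_le_mul_of_nonneg_left this hnz0.le]
    exact le_of_mul_le_mul_left this ha
  have e4 : q - p ≤ nz * (k * (a + b + c / 4)) := by
    have : b * (q - p) ≤ b * (nz * (k * (a + b + c / 4))) := by
      refine e2.trans ?_
      have : nr l ≤ k * (c * b) / 4 := by linarith
      nlinarith [mul_le_mul_of_nonneg_left this hnz0.le]
    exact le_of_mul_le_mul_left this hb
  have e5 : (q - p) ^ 2 ≤ (nz * (k * (a + b + c / 4))) ^ 2 := by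
    apply sq_le_sq'
    · linarith
    · linarith
  -- Pythagoras
  have hpyth := nr_mul_nr_sq (cr z (x + y)) (cr x y)
  have hdot : dt (cr z (x + y)) (cr x y) = q - p := by
    rw [cr_add, add_dt, cr_comm z y, hp, hq]
    simp only [dt, Pi.neg_apply]; ring
  rw [hdot, cr_cr_3, nr_smul, hD, one_mul] at hpyth
  change (ed z (x + y) * nz) ^ 2 = _ at hpyth
  have e6 : nr (x + y) ^ 2 ≤ (N * (a + b)) ^ 2 := by
    apply pow_le_pow_left₀ (nr_nonneg _) hn
  have e7 : (ed z (x + y) * nz) ^ 2 ≤ (k * (a + b + c / 2) * nz) ^ 2 := by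
    rw [hpyth]
    have hab : 0 < a + b := by positivity
    have h5 : (N * (a + b)) ^ 2 ≤ (k * (a + b + c / 2) * nz) ^ 2 -
        (nz * (k * (a + b + c / 4))) ^ 2 := by
      have : (k * (a + b + c / 2) * nz) ^ 2 - (nz * (k * (a + b + c / 4))) ^ 2
          = k ^ 4 * (a + b) ^ 2 * (c / 4 * (2 * (a + b) + 3 * c / 4)) := by
        rw [hxy]; ring
      rw [this]
      have h6 : k ^ 4 * (a + b) ^ 2 * (c * (a + b) / 2) ≤
          k ^ 4 * (a + b) ^ 2 * (c / 4 * (2 * (a + b) + 3 * c / 4)) := by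
        apply mul_le_mul_of_nonneg_left _ (by positivity)
        nlinarith [mul_pos hc hc]
      refine le_trans ?_ h6
      have : (N * (a + b)) ^ 2 = N ^ 2 * (a + b) ^ 2 := by ring
      rw [this]
      have h7 : k ^ 4 * (a + b) ^ 2 * (c * (a + b) / 2)
        = (k ^ 4 * (c * (a + b)) / 2) * (a + b) ^ 2 := by ring
      rw [h7]
      apply mul_le_mul_of_nonneg_right _ (sq_nonneg _)
      linarith
    linarith
  have e8 : ed z (x + y) * nz ≤ k * (a + b + c / 2) * nz := by
    apply le_of_sq_le_sq _ (by positivity)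
    exact e7
  exact le_of_mul_le_mul_right e8 hnz0

end Pool.Agent.TD47
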