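import Pool.Agent.TD47.PshInv

/-!
# Positivity off the coordinate hyperplanes implies positivity
-/

set_option autoImplicit false

open scoped Topology

namespace Pool.Agent.TD47

lemma ext_add_le {x : EReal} {a b : ℝ} :
    x + ((a : ℝ) : EReal) ≤ ((b : ℝ) : EReal) ↔ x ≤ ((b - a : ℝ) : EReal) := by
  induction x with
  | bot => rw [EReal.bot_add]; exact ⟨fun _ => bot_le, fun _ => bot_le⟩
  | top =>
    rw [EReal.top_add_coe]
    exact ⟨fun h => absurd (top_le_iff.mp h) (EReal.coe_ne_top _),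
      fun h => absurd (top_le_iff.mp h) (EReal.coe_ne_top _)⟩
  | coe x =>
    rw [← EReal.coe_add, EReal.coe_le_coe_iff, EReal.coe_le_coe_iff]
    constructor <;> intro h <;> linarith

lemma ext_add_lt {x : EReal} {a b : ℝ} :
    x + ((a : ℝ) : EReal) < ((b : ℝ) : EReal) ↔ x < ((b - a : ℝ) : EReal) := by
  induction x with
  | bot => rw [EReal.bot_add]; exact ⟨fun _ => EReal.bot_lt_coe _, fun _ => EReal.bot_lt_coe _⟩
  | top =>
    rw [EReal.top_add_coe]
    exact ⟨fun h => absurd h not_top_lt, fun h => absurd h not_top_lt⟩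
  | coe x =>
    rw [← EReal.coe_add, EReal.coe_lt_coe_iff, EReal.coe_lt_coe_iff]
    constructor <;> intro h <;> linarith

/-- The sum of a usc function (never `+∞`) and a continuous real function is usc. -/
lemma ext_usc_add {X : Type} [TopologicalSpace X] {s : Set X} {f : X → EReal} {a : X → ℝ}
    (hf : UpperSemicontinuousOn f s) (ha : ContinuousOn a s) :
    UpperSemicontinuousOn (fun x => f x + ((a x : ℝ) : EReal)) s := by
  apply hf.add'
  · intro x hx
    exact (continuous_coe_real_ereal.continuousAt.comp_continuousWithinAt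
      (ha x hx)).upperSemicontinuousWithinAt
  · intro x _
    exact EReal.continuousAt_add (Or.inr (EReal.coe_ne_bot _)) (Or.inr (EReal.coe_ne_top _))

/-- The maximum principle from discs, with the test polynomial. -/
lemma ext_maxprinciple (f : ℂ → EReal) (K : Set ℂ) (hK : IsCompact K)
    (hf : UpperSemicontinuousOn f K) (hft : ∀ t ∈ K, f t ≠ ⊤)
    (hloc : ∀ t0 ∈ K, 0 < f t0 → ∃ ρ : ℝ, 0 < ρ ∧ (∀ t : ℂ, ‖t‖ ≤ 1 → t0 + ρ * t ∈ K) ∧
      ∀ m η : ℝ, (∀ t : ℂ, ‖t‖ = 1 → f (t0 + ρ * t) ≤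
        ((m - η / 4 * ((1 / 2 : ℂ) + 3 / 2 * t + 3 / 2 * t ^ 2 + 1 / 2 * t ^ 3).re : ℝ) :
          EReal)) → f t0 ≤ ((m - η / 8 : ℝ) : EReal)) :
    ∀ t ∈ K, f t ≤ 0 := by
  by_contra hcon
  push Not at hcon
  obtain ⟨t1, ht1, hpos1⟩ := hcon
  obtain ⟨a, ha, hmax⟩ := hf.exists_isMaxOn ⟨t1, ht1⟩ hK
  have hmax' : ∀ t ∈ K, f t ≤ f a := fun t ht => hmax ht
  have ha0 : 0 < f a := hpos1.trans_le (hmax' t1 ht1)
  obtain ⟨m, hm⟩ : ∃ m : ℝ, f a = ((m : ℝ) : EReal) :=
    ⟨(f a).toReal, (EReal.coe_toReal (hft a ha) (ne_bot_of_gt ha0)).symm⟩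
  -- the maximum point with the largest real part
  have hKm : IsCompact (K ∩ f ⁻¹' Set.Ici (f a)) := hf.isCompact_inter_preimage_Ici hK (f a)
  obtain ⟨t0, ht0, hre⟩ := hKm.exists_isMaxOn ⟨a, ha, le_refl (f a)⟩
    (Complex.continuous_re.continuousOn)
  have hre' : ∀ t ∈ K, f a ≤ f t → t.re ≤ t0.re := fun t ht h => hre ⟨ht, h⟩
  have hft0 : f t0 = f a := le_antisymm (hmax' t0 ht0.1) ht0.2
  obtain ⟨ρ, hρ, hball, hprop⟩ := hloc t0 ht0.1 (hft0 ▸ ha0)
  -- the arc
  have harc : IsCompact (Metric.sphere (0 : ℂ) 1 ∩ {t : ℂ | 1 / 2 ≤ t.re}) :=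
    (isCompact_sphere _ _).inter_right (isClosed_le continuous_const Complex.continuous_re)
  have hfarc : UpperSemicontinuousOn (fun t : ℂ => f (t0 + ρ * t))
      (Metric.sphere (0 : ℂ) 1 ∩ {t : ℂ | 1 / 2 ≤ t.re}) := by
    intro t ht y hy
    have hmap : Filter.Tendsto (fun t : ℂ => t0 + ρ * t)
        (𝓝[Metric.sphere (0 : ℂ) 1 ∩ {t : ℂ | 1 / 2 ≤ t.re}] t) (𝓝[K] (t0 + ρ * t)) := by
      apply tendsto_nhdsWithin_iff.mpr
      refine ⟨?_, ?_⟩
      · exact (Continuous.tendsto (by fun_prop) t).mono_left nhdsWithin_le_nhds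
      · filter_upwards [self_mem_nhdsWithin] with s hs
        exact hball s (le_of_eq (mem_sphere_zero_iff_norm.mp hs.1))
    exact hmap.eventually
      (hf _ (hball t (le_of_eq (mem_sphere_zero_iff_norm.mp ht.1))) y hy)
  have h1arc : (1 : ℂ) ∈ Metric.sphere (0 : ℂ) 1 ∩ {t : ℂ | 1 / 2 ≤ t.re} := by
    constructor
    · simp
    · show (1 : ℝ) / 2 ≤ (1 : ℂ).re
      simp; norm_num
  obtain ⟨b, hb, hbmax⟩ := hfarc.exists_isMaxOn ⟨1, h1arc⟩ harc
  have hbmax' : ∀ t ∈ Metric.sphere (0 : ℂ) 1 ∩ {t : ℂ | 1 / 2 ≤ t.re},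
      f (t0 + ρ * t) ≤ f (t0 + ρ * b) := fun t ht => hbmax ht
  have hblt : f (t0 + ρ * b) < f a := by
    by_contra h
    push Not at h
    have h2 := hre' (t0 + ρ * b) (hball b (le_of_eq (mem_sphere_zero_iff_norm.mp hb.1))) h
    have h3 : (t0 + ρ * b).re = t0.re + ρ * b.re := by
      simp [Complex.mul_re]
    rw [h3] at h2
    have h4 : (1 : ℝ) / 2 ≤ b.re := hb.2
    nlinarith
  -- a gap
  obtain ⟨η, hη, hgap⟩ : ∃ η : ℝ, 0 < η ∧ f (t0 + ρ * b) ≤ ((m - η : ℝ) : EReal) := by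
    rw [hm] at hblt
    obtain ⟨q, hq1, hq2⟩ := EReal.lt_iff_exists_real_btwn.mp hblt
    have hq3 : q < m := EReal.coe_lt_coe_iff.mp hq2
    exact ⟨m - q, by linarith, by simpa using hq1.le⟩
  have hfin := hprop m η (by
    intro t ht
    rw [cubic_re t ht]
    have hre1 : |t.re| ≤ 1 := by rw [← ht]; exact Complex.abs_re_le_norm t
    have hre2 := abs_le.mp hre1
    by_cases harc : 1 / 2 ≤ t.re
    · refine (hbmax' t ⟨mem_sphere_zero_iff_norm.mpr ht, harc⟩).trans (hgap.trans ?_)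
      apply EReal.coe_le_coe_iff.mpr
      have h5 : (2 * t.re - 1) * (1 + t.re) ^ 2 ≤ 4 := by
        have h6 : (1 + t.re) ^ 2 ≤ 4 := by nlinarith
        have h7 : 0 ≤ 2 * t.re - 1 := by linarith
        have h8 : 2 * t.re - 1 ≤ 1 := by linarith
        nlinarith [sq_nonneg (1 + t.re)]
      nlinarith
    · push Not at harc
      refine (hmax' _ (hball t ht.le)).trans ?_
      rw [hm]
      apply EReal.coe_le_coe_iff.mpr
      have h5 : (2 * t.re - 1) * (1 + t.re) ^ 2 ≤ 0 :=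
        mul_nonpos_of_nonpos_of_nonneg (by linarith) (sq_nonneg _)
      nlinarith)
  rw [hft0, hm] at hfin
  have := EReal.coe_le_coe_iff.mp hfin
  linarith

/-- The local disc property off the coordinate hyperplanes. -/
lemma ext_local (S : (Fin 3 → ℂ) → EReal) (U : Set (Fin 3 → ℂ)) (κ : (Fin 3 → ℂ) → ℝ)
    (c : Fin 3 → ℝ) (W : (Fin 3 → ℂ) → EReal) (hW : IsPshOn (U ∩ {y | ∀ j, y j ≠ 0}) W)
    (hWS : ∀ y ∈ U, (∀ j, y j ≠ 0) →
      W y = S y + ((κ y + ∑ j, c j * Real.log ‖y j‖ : ℝ) : EReal))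
    (g : ℂ → Fin 3 → ℂ) (p : ℂ → ℂ) (hg : AnalyticOnNhd ℂ g (Metric.closedBall 0 1))
    (hp : AnalyticOnNhd ℂ p (Metric.closedBall 0 1)) (hgU : ∀ t : ℂ, ‖t‖ ≤ 1 → g t ∈ U)
    (θ B : ℝ) (t0 : ℂ) (ρ : ℝ) (hball : ∀ t : ℂ, ‖t‖ ≤ 1 → ‖t0 + ρ * t‖ ≤ 1)
    (hclose : ∀ t : ℂ, ‖t‖ ≤ 1 → ∀ j, ‖g (t0 + ρ * t) j / g t0 j - 1‖ < 1)
    (hne0 : ∀ j, g t0 j ≠ 0)
    (hne : ∀ t : ℂ, ‖t‖ ≤ 1 → ∀ j, g (t0 + ρ * t) j ≠ 0) (m η : ℝ)
    (h : ∀ t : ℂ, ‖t‖ = 1 → S (g (t0 + ρ * t)) + ((κ (g (t0 + ρ * t)) - (p (t0 + ρ * t)).re +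
        θ * (∑ j, Real.log ‖g (t0 + ρ * t) j‖ - B) : ℝ) : EReal) ≤
      ((m - η / 4 * ((1 / 2 : ℂ) + 3 / 2 * t + 3 / 2 * t ^ 2 + 1 / 2 * t ^ 3).re : ℝ) : EReal)) :
    S (g t0) + ((κ (g t0) - (p t0).re + θ * (∑ j, Real.log ‖g t0 j‖ - B) : ℝ) : EReal) ≤
      ((m - η / 8 : ℝ) : EReal) := by
  set L : Fin 3 → ℂ → ℂ := fun j t =>
    Complex.log (g (t0 + ρ * t) j / g t0 j) + ((Real.log ‖g t0 j‖ : ℝ) : ℂ) with hL
  have hLre : ∀ j t, ‖t‖ ≤ 1 → (L j t).re = Real.log ‖g (t0 + ρ * t) j‖ := by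
    intro j t ht
    simp only [hL, Complex.add_re, Complex.log_re, Complex.ofReal_re, norm_div]
    rw [Real.log_div (norm_ne_zero_iff.mpr (hne t ht j)) (norm_ne_zero_iff.mpr (hne0 j))]
    ring
  have haff : ∀ t : ℂ, AnalyticAt ℂ (fun t : ℂ => t0 + ρ * t) t := by
    intro t
    fun_prop
  have hga : ∀ t : ℂ, ‖t‖ ≤ 1 → AnalyticAt ℂ (fun t : ℂ => g (t0 + ρ * t)) t := by
    intro t ht
    exact AnalyticAt.comp (g := g) (f := fun t : ℂ => t0 + ρ * t)
      (hg (t0 + ρ * t) (mem_closedBall_zero_iff.mpr (hball t ht))) (haff t)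
  have hpa : ∀ t : ℂ, ‖t‖ ≤ 1 → AnalyticAt ℂ (fun t : ℂ => p (t0 + ρ * t)) t := by
    intro t ht
    exact AnalyticAt.comp (g := p) (f := fun t : ℂ => t0 + ρ * t)
      (hp (t0 + ρ * t) (mem_closedBall_zero_iff.mpr (hball t ht))) (haff t)
  have hLa : ∀ j t, ‖t‖ ≤ 1 → AnalyticAt ℂ (L j) t := by
    intro j t ht
    simp only [hL]
    have h1 : AnalyticAt ℂ (fun t : ℂ => g (t0 + ρ * t) j) t :=
      (analyticAt_pi_iff.mp (hga t ht)) j
    have h2 : AnalyticAt ℂ (fun t : ℂ => g (t0 + ρ * t) j / g t0 j) t :=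
      h1.div analyticAt_const (hne0 j)
    refine (h2.clog ?_).add analyticAt_const
    have := Complex.mem_slitPlane_of_norm_lt_one (hclose t ht j)
    simpa using this
  set P : ℂ → ℂ := fun t => p (t0 + ρ * t) + ∑ j, ((c j : ℝ) : ℂ) * L j t -
    ((θ : ℝ) : ℂ) * (∑ j, L j t - ((B : ℝ) : ℂ)) + ((m : ℝ) : ℂ) -
      ((η / 4 : ℝ) : ℂ) * ((1 / 2 : ℂ) + 3 / 2 * t + 3 / 2 * t ^ 2 + 1 / 2 * t ^ 3) with hPdef
  have hPre : ∀ t, ‖t‖ ≤ 1 → (P t).re = (p (t0 + ρ * t)).re +
      ∑ j, c j * Real.log ‖g (t0 + ρ * t) j‖ -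
      θ * (∑ j, Real.log ‖g (t0 + ρ * t) j‖ - B) + m -
      η / 4 * ((1 / 2 : ℂ) + 3 / 2 * t + 3 / 2 * t ^ 2 + 1 / 2 * t ^ 3).re := by
    intro t ht
    simp only [hPdef, Complex.add_re, Complex.sub_re, Complex.re_ofReal_mul, Complex.re_sum,
      Complex.ofReal_re]
    rw [Finset.sum_congr rfl (fun j _ => by rw [hLre j t ht] :
        ∀ j ∈ Finset.univ, c j * (L j t).re = c j * Real.log ‖g (t0 + ρ * t) j‖),
      Finset.sum_congr rfl (fun j _ => hLre j t ht)]
  have hPa : AnalyticOnNhd ℂ P (Metric.closedBall 0 1) := by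
    intro t ht
    have ht' : ‖t‖ ≤ 1 := mem_closedBall_zero_iff.mp ht
    simp only [hPdef]
    have h1 : AnalyticAt ℂ (fun t => ∑ j, ((c j : ℝ) : ℂ) * L j t) t := by
      apply Finset.analyticAt_fun_sum
      intro j _
      exact analyticAt_const.mul (hLa j t ht')
    have h2 : AnalyticAt ℂ (fun t => ∑ j, L j t) t := by
      apply Finset.analyticAt_fun_sum
      intro j _
      exact hLa j t ht'
    refine (((((hpa t ht').add h1).sub (analyticAt_const.mul (h2.sub analyticAt_const))).add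
      analyticAt_const).sub (analyticAt_const.mul ?_))
    fun_prop
  have hWb := hW.2.2 (fun t => g (t0 + ρ * t)) P
    (fun t ht => hga t (mem_closedBall_zero_iff.mp ht)) hPa
    (fun t ht => ⟨hgU _ (hball t ht), hne t ht⟩) (by
      intro t ht
      rw [hWS _ (hgU _ (hball t ht.le)) (hne t ht.le), ext_add_le, hPre t ht.le]
      have h1 := ext_add_le.mp (h t ht)
      refine h1.trans (EReal.coe_le_coe_iff.mpr (le_of_eq ?_))
      ring) 0 (by simp)
  have hz : t0 + (ρ : ℂ) * 0 = t0 := by ring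
  rw [hWS _ (hgU _ (hball 0 (by simp))) (hne 0 (by simp)), ext_add_le, hPre 0 (by simp)] at hWb
  simp only [hz] at hWb
  rw [ext_add_le]
  refine hWb.trans (EReal.coe_le_coe_iff.mpr (le_of_eq ?_))
  have hc0 : ((1 / 2 : ℂ) + 3 / 2 * 0 + 3 / 2 * 0 ^ 2 + 1 / 2 * 0 ^ 3).re = 1 / 2 := by
    norm_num
  rw [hc0]
  ring

/-- Discs that are not contained in a coordinate hyperplane. -/
lemma ext_caseA (S : (Fin 3 → ℂ) → EReal) (hS : IsPsh S)
    (U : Set (Fin 3 → ℂ)) (hU : IsOpen U) (κ : (Fin 3 → ℂ) → ℝ) (hκ : ContinuousOn κ U)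
    (c : Fin 3 → ℝ) (W : (Fin 3 → ℂ) → EReal) (hW : IsPshOn (U ∩ {y | ∀ j, y j ≠ 0}) W)
    (hWS : ∀ y ∈ U, (∀ j, y j ≠ 0) →
      W y = S y + ((κ y + ∑ j, c j * Real.log ‖y j‖ : ℝ) : EReal))
    (g : ℂ → Fin 3 → ℂ) (p : ℂ → ℂ) (hg : AnalyticOnNhd ℂ g (Metric.closedBall 0 1))
    (hp : AnalyticOnNhd ℂ p (Metric.closedBall 0 1)) (hgU : ∀ t : ℂ, ‖t‖ ≤ 1 → g t ∈ U)
    (hnz : ∀ j, ∃ t ∈ Metric.closedBall (0 : ℂ) 1, g t j ≠ 0)
    (hcirc : ∀ t : ℂ, ‖t‖ = 1 → S (g t) + ((κ (g t) : ℝ) : EReal) ≤ (((p t).re : ℝ) : EReal)) :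
    ∀ t : ℂ, ‖t‖ ≤ 1 → S (g t) + ((κ (g t) : ℝ) : EReal) ≤ (((p t).re : ℝ) : EReal) := by
  have hgc : ContinuousOn g (Metric.closedBall 0 1) := fun t ht =>
    (hg t ht).continuousAt.continuousWithinAt
  have hpc : ContinuousOn p (Metric.closedBall 0 1) := fun t ht =>
    (hp t ht).continuousAt.continuousWithinAt
  have hgjc : ∀ j, ContinuousOn (fun t => g t j) (Metric.closedBall 0 1) := fun j =>
    (continuous_apply j).comp_continuousOn hgc
  have hκc : ContinuousOn (fun t => κ (g t)) (Metric.closedBall 0 1) :=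
    hκ.comp hgc (fun t ht => hgU t (mem_closedBall_zero_iff.mp ht))
  have hSc : UpperSemicontinuousOn (fun t => S (g t)) (Metric.closedBall 0 1) := by
    intro t ht y hy
    exact (hgc t ht).tendsto.eventually (hS.1 (g t) y hy)
  have hcpt := isCompact_closedBall (0 : ℂ) 1
  have hprec : ContinuousOn (fun t => (p t).re) (Metric.closedBall 0 1) :=
    Complex.continuous_re.comp_continuousOn hpc
  -- bound for the logarithms
  obtain ⟨B, hB⟩ := hcpt.bddAbove_image
    (continuousOn_finsetSum Finset.univ (fun j _ => (hgjc j).norm) :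
      ContinuousOn (fun t => ∑ j, ‖g t j‖) (Metric.closedBall 0 1))
  have hB' : ∀ t : ℂ, ‖t‖ ≤ 1 → ∑ j, Real.log ‖g t j‖ ≤ B := by
    intro t ht
    refine le_trans (Finset.sum_le_sum (fun j _ => Real.log_le_self (norm_nonneg _))) ?_
    exact hB ⟨t, mem_closedBall_zero_iff.mpr ht, rfl⟩
  -- bound for the function
  have hhusc : UpperSemicontinuousOn
      (fun t => S (g t) + ((κ (g t) - (p t).re : ℝ) : EReal)) (Metric.closedBall 0 1) :=
    ext_usc_add hSc (hκc.sub hprec)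
  obtain ⟨M, hM⟩ : ∃ M : ℝ, ∀ t : ℂ, ‖t‖ ≤ 1 →
      S (g t) + ((κ (g t) - (p t).re : ℝ) : EReal) ≤ ((M : ℝ) : EReal) := by
    obtain ⟨a, ha, hmax⟩ := hhusc.exists_isMaxOn ⟨0, by simp⟩ hcpt
    have hlt : S (g a) + ((κ (g a) - (p a).re : ℝ) : EReal) < ⊤ := by
      apply lt_top_iff_ne_top.mpr
      exact EReal.add_ne_top (hS.2.1 (g a)) (EReal.coe_ne_top _)
    obtain ⟨M, hM1, _⟩ := EReal.lt_iff_exists_real_btwn.mp hlt
    refine ⟨M, fun t ht => ?_⟩
    exact le_trans (hmax (mem_closedBall_zero_iff.mpr ht)) hM1.le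
  -- step 1
  have step1 : ∀ θ : ℝ, 0 < θ → ∀ t : ℂ, ‖t‖ ≤ 1 → (∀ j, g t j ≠ 0) →
      S (g t) + ((κ (g t) - (p t).re + θ * (∑ j, Real.log ‖g t j‖ - B) : ℝ) : EReal) ≤ 0 := by
    intro θ hθ
    set δ : ℝ := Real.exp (B - (M + 1) / θ) with hδ
    have hδ0 : 0 < δ := Real.exp_pos _
    have hQlog : ∀ t, (∀ j, g t j ≠ 0) →
        ∑ j, Real.log ‖g t j‖ = Real.log ‖∏ j, g t j‖ := by
      intro t ht
      rw [norm_prod, Real.log_prod (fun j _ => norm_ne_zero_iff.mpr (ht j))]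
    -- small product
    have hsmall : ∀ t : ℂ, ‖t‖ ≤ 1 → (∀ j, g t j ≠ 0) → ‖∏ j, g t j‖ ≤ δ →
        S (g t) + ((κ (g t) - (p t).re + θ * (∑ j, Real.log ‖g t j‖ - B) : ℝ) : EReal) ≤ 0 := by
      intro t ht hne hQ
      have h1 := ext_add_le.mp (hM t ht)
      have h2 : ((0 : ℝ) : EReal) = 0 := EReal.coe_zero
      rw [← h2, ext_add_le]
      refine h1.trans (EReal.coe_le_coe_iff.mpr ?_)
      have h3 : ∑ j, Real.log ‖g t j‖ ≤ B - (M + 1) / θ := by
        rw [hQlog t hne, ← Real.log_exp (B - (M + 1) / θ)]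
        apply Real.log_le_log _ hQ
        rw [norm_pos_iff]
        exact Finset.prod_ne_zero_iff.mpr (fun j _ => hne j)
      have h4 : θ * (∑ j, Real.log ‖g t j‖ - B) ≤ θ * (-((M + 1) / θ)) :=
        mul_le_mul_of_nonneg_left (by linarith) hθ.le
      have h5 : θ * (-((M + 1) / θ)) = -(M + 1) := by field_simp
      linarith
    have hQc : ContinuousOn (fun t => ‖∏ j, g t j‖) (Metric.closedBall 0 1) :=
      (continuousOn_finsetProd Finset.univ (fun j _ => hgjc j)).norm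
    set K : Set ℂ := Metric.closedBall 0 1 ∩ (fun t => ‖∏ j, g t j‖) ⁻¹' Set.Ici δ with hK
    have hKcl : IsClosed K := hQc.preimage_isClosed_of_isClosed Metric.isClosed_closedBall
      isClosed_Ici
    have hKcpt : IsCompact K := hcpt.of_isClosed_subset hKcl Set.inter_subset_left
    have hKne : ∀ t ∈ K, ∀ j, g t j ≠ 0 := by
      intro t ht j hj
      have h1 : δ ≤ ‖∏ j, g t j‖ := ht.2
      rw [Finset.prod_eq_zero (Finset.mem_univ j) hj, norm_zero] at h1
      linarith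
    have hlogc : ContinuousOn (fun t => ∑ j, Real.log ‖g t j‖) K := by
      apply continuousOn_finsetSum
      intro j _
      exact ContinuousOn.log ((hgjc j).norm.mono Set.inter_subset_left)
        (fun t ht => norm_ne_zero_iff.mpr (hKne t ht j))
    have hfusc : UpperSemicontinuousOn (fun t => S (g t) + ((κ (g t) - (p t).re +
        θ * (∑ j, Real.log ‖g t j‖ - B) : ℝ) : EReal)) K := by
      apply ext_usc_add (hSc.mono Set.inter_subset_left)
      exact ((hκc.sub hprec).mono Set.inter_subset_left).add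
        (continuousOn_const.mul (hlogc.sub continuousOn_const))
    have hKle := ext_maxprinciple (fun t => S (g t) + ((κ (g t) - (p t).re +
        θ * (∑ j, Real.log ‖g t j‖ - B) : ℝ) : EReal)) K hKcpt hfusc
      (fun t _ => EReal.add_ne_top (hS.2.1 (g t)) (EReal.coe_ne_top _)) (by
        intro t0 ht0 hpos
        have ht01 : ‖t0‖ ≤ 1 := mem_closedBall_zero_iff.mp ht0.1
        have hne0 := hKne t0 ht0
        have hlt1 : ‖t0‖ < 1 := by
          rcases lt_or_eq_of_le ht01 with h | h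
          · exact h
          · exfalso
            have h1 := ext_add_le.mp (hcirc t0 h)
            have h2 : S (g t0) + ((κ (g t0) - (p t0).re +
                θ * (∑ j, Real.log ‖g t0 j‖ - B) : ℝ) : EReal) ≤ ((0 : ℝ) : EReal) := by
              rw [ext_add_le]
              refine h1.trans (EReal.coe_le_coe_iff.mpr ?_)
              have h3 := mul_nonpos_of_nonneg_of_nonpos hθ.le (sub_nonpos.mpr (hB' t0 ht01))
              linarith
            rw [EReal.coe_zero] at h2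
            exact absurd h2 (not_le.mpr hpos)
        have hltQ : δ < ‖∏ j, g t0 j‖ := by
          rcases lt_or_eq_of_le (show δ ≤ ‖∏ j, g t0 j‖ from ht0.2) with h | h
          · exact h
          · exact absurd (hsmall t0 ht01 hne0 h.symm.le) (not_le.mpr hpos)
        -- a small disc
        have hga0 : ContinuousAt g t0 := (hg t0 ht0.1).continuousAt
        have hgj0 : ∀ j, ContinuousAt (fun t => g t j) t0 := fun j =>
          (continuous_apply j).continuousAt.comp hga0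
        have e1 : ∀ᶠ t in 𝓝 t0, ‖t‖ < 1 := continuousAt_id.norm.eventually_lt
          continuousAt_const hlt1
        have e2 : ∀ᶠ t in 𝓝 t0, δ < ‖∏ j, g t j‖ := by
          have hc : ContinuousAt (fun t => ‖∏ j, g t j‖) t0 := by
            apply ContinuousAt.norm
            exact tendsto_finsetProd Finset.univ (fun j _ => hgj0 j)
          exact continuousAt_const.eventually_lt hc hltQ
        have e3 : ∀ᶠ t in 𝓝 t0, ∀ j, ‖g t j / g t0 j - 1‖ < 1 := by
          rw [Filter.eventually_all]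
          intro j
          have hc : ContinuousAt (fun t => ‖g t j / g t0 j - 1‖) t0 :=
            (((hgj0 j).div_const _).sub continuousAt_const).norm
          refine hc.eventually_lt continuousAt_const ?_
          rw [div_self (hne0 j), sub_self, norm_zero]
          exact one_pos
        obtain ⟨ρ, hρ, hρball⟩ := Metric.nhds_basis_closedBall.mem_iff.mp
          ((e1.and (e2.and e3)) : _ ∈ 𝓝 t0)
        have hmem : ∀ t : ℂ, ‖t‖ ≤ 1 → t0 + ρ * t ∈ Metric.closedBall t0 ρ := by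
          intro t ht
          rw [mem_closedBall_iff_norm, add_sub_cancel_left, norm_mul, Complex.norm_real,
            Real.norm_eq_abs, abs_of_pos hρ]
          nlinarith
        have hall := fun (t : ℂ) (ht : ‖t‖ ≤ 1) => hρball (hmem t ht)
        have hinK : ∀ t : ℂ, ‖t‖ ≤ 1 → t0 + ρ * t ∈ K := fun t ht =>
          ⟨mem_closedBall_zero_iff.mpr (hall t ht).1.le, (hall t ht).2.1.le⟩
        refine ⟨ρ, hρ, hinK, fun m η hmη => ?_⟩
        exact ext_local S U κ c W hW hWS g p hg hp hgU θ B t0 ρ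
          (fun t ht => (hall t ht).1.le) (fun t ht => (hall t ht).2.2) hne0
          (fun t ht => hKne _ (hinK t ht)) m η hmη)
    intro t ht hne
    by_cases hQ : ‖∏ j, g t j‖ ≤ δ
    · exact hsmall t ht hne hQ
    · push Not at hQ
      exact hKle t ⟨mem_closedBall_zero_iff.mpr ht, hQ.le⟩
  -- step 2
  have step2 : ∀ t : ℂ, ‖t‖ ≤ 1 → (∀ j, g t j ≠ 0) →
      S (g t) + ((κ (g t) : ℝ) : EReal) ≤ (((p t).re : ℝ) : EReal) := by
    intro t ht hne
    rw [ext_add_le]
    apply EReal.le_of_forall_lt_iff_le.mp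
    intro r hr
    have hr' : (p t).re - κ (g t) < r := EReal.coe_lt_coe_iff.mp hr
    set D : ℝ := B - ∑ j, Real.log ‖g t j‖ with hD
    have hD0 : 0 ≤ D := by rw [hD]; linarith [hB' t ht]
    set θ : ℝ := (r - ((p t).re - κ (g t))) / (D + 1) with hθ
    have hθ0 : 0 < θ := by rw [hθ]; apply div_pos <;> linarith
    have h1 := step1 θ hθ0 t ht hne
    rw [← EReal.coe_zero, ext_add_le] at h1
    refine h1.trans (EReal.coe_le_coe_iff.mpr ?_)
    have h2 : θ * (D + 1) = r - ((p t).re - κ (g t)) := by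
      rw [hθ, div_mul_cancel₀ _ (by linarith : D + 1 ≠ 0)]
    have h3 : θ * (∑ j, Real.log ‖g t j‖ - B) = -(θ * D) := by rw [hD]; ring
    nlinarith
  -- zeros are isolated
  have hiso : ∀ a ∈ Metric.closedBall (0 : ℂ) 1, ∀ᶠ t in 𝓝[≠] a, ∀ j, g t j ≠ 0 := by
    intro a ha
    rw [Filter.eventually_all]
    intro j
    have hgja : AnalyticOnNhd ℂ (fun t => g t j) (Metric.closedBall 0 1) := fun t ht =>
      (analyticAt_pi_iff.mp (hg t ht)) j
    by_contra hcon
    have hfr : ∃ᶠ t in 𝓝[≠] a, g t j = 0 := by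
      intro h
      exact hcon (h.mono (fun t ht => ht))
    have hz := hgja.eqOn_zero_of_preconnected_of_frequently_eq_zero
      (convex_closedBall (0 : ℂ) 1).isPreconnected ha hfr
    obtain ⟨t, ht, htne⟩ := hnz j
    exact htne (hz ht)
  -- step 3
  intro a ha
  by_cases hne : ∀ j, g a j ≠ 0
  · exact step2 a ha hne
  rcases lt_or_eq_of_le ha with halt | haeq
  swap
  · exact hcirc a haeq
  rw [ext_add_le]
  apply EReal.le_of_forall_lt_iff_le.mp
  intro r hr
  have hr' : (p a).re - κ (g a) < r := EReal.coe_lt_coe_iff.mp hr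
  have hamem : a ∈ Metric.closedBall (0 : ℂ) 1 := mem_closedBall_zero_iff.mpr ha
  have hga : ContinuousAt g a := (hg a hamem).continuousAt
  have hκa : ContinuousAt (fun t => κ (g t)) a :=
    ContinuousAt.comp (f := g) (g := κ) ((hκ (g a) (hgU a ha)).continuousAt
      (hU.mem_nhds (hgU a ha))) hga
  have hpa : ContinuousAt (fun t => (p t).re) a :=
    Complex.continuous_re.continuousAt.comp (hp a hamem).continuousAt
  have e1 : ∀ᶠ t in 𝓝 a, ‖t‖ < 1 := continuousAt_id.norm.eventually_lt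
    continuousAt_const halt
  have e2 : ∀ᶠ t in 𝓝 a, (p t).re - κ (g t) < r :=
    (hpa.sub hκa).eventually_lt continuousAt_const hr'
  have e3 : ∀ᶠ t in 𝓝 a, t ∈ ({a}ᶜ : Set ℂ) → ∀ j, g t j ≠ 0 :=
    eventually_nhdsWithin_iff.mp (hiso a hamem)
  obtain ⟨ρ, hρ, hρball⟩ := Metric.nhds_basis_closedBall.mem_iff.mp
    ((e1.and (e2.and e3)) : _ ∈ 𝓝 a)
  have hmem : ∀ t : ℂ, ‖t‖ ≤ 1 → a + ρ * t ∈ Metric.closedBall a ρ := by
    intro t ht
    rw [mem_closedBall_iff_norm, add_sub_cancel_left, norm_mul, Complex.norm_real,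
      Real.norm_eq_abs, abs_of_pos hρ]
    nlinarith
  have hall := fun (t : ℂ) (ht : ‖t‖ ≤ 1) => hρball (hmem t ht)
  have hdisc := hS.2.2 (fun t => g (a + ρ * t)) (fun _ => ((r : ℝ) : ℂ)) (by
      intro t ht
      exact AnalyticAt.comp (g := g) (f := fun t : ℂ => a + ρ * t)
        (hg (a + ρ * t) (mem_closedBall_zero_iff.mpr
          (hall t (mem_closedBall_zero_iff.mp ht)).1.le)) (by fun_prop))
    analyticOnNhd_const (by
      intro t ht
      have h1 := hall t ht.le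
      have hne' : a + ρ * t ∈ ({a}ᶜ : Set ℂ) := by
        simp only [Set.mem_compl_iff, Set.mem_singleton_iff, add_eq_left, mul_eq_zero]
        rintro (h | h)
        · exact hρ.ne' (by exact_mod_cast h)
        · rw [h, norm_zero] at ht
          exact zero_ne_one ht
      have h2 := ext_add_le.mp (step2 (a + ρ * t) h1.1.le (h1.2.2 hne'))
      refine h2.trans ?_
      rw [Complex.ofReal_re]
      exact EReal.coe_le_coe_iff.mpr h1.2.1.le) 0 (by simp)
  simpa using hdisc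

/-- Positivity off the coordinate hyperplanes implies positivity. -/
theorem psh_extend (S : (Fin 3 → ℂ) → EReal) (hS : IsPsh S)
    (hmono : ∀ y z : Fin 3 → ℂ, (∀ j, ‖y j‖ ≤ ‖z j‖) → S y ≤ S z)
    (U : Set (Fin 3 → ℂ)) (hU : IsOpen U) (κ : (Fin 3 → ℂ) → ℝ) (hκ : ContinuousOn κ U)
    (c : Fin 3 → ℝ) (W : (Fin 3 → ℂ) → EReal) (hW : IsPshOn (U ∩ {y | ∀ j, y j ≠ 0}) W)
    (hWS : ∀ y ∈ U, (∀ j, y j ≠ 0) →
      W y = S y + ((κ y + ∑ j, c j * Real.log ‖y j‖ : ℝ) : EReal)) :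
    IsPshOn U (fun y => S y + ((κ y : ℝ) : EReal)) := by
  classical
  refine ⟨ext_usc_add (hS.1.upperSemicontinuousOn U) hκ, ?_, ?_⟩
  · intro z _
    exact EReal.add_ne_top (hS.2.1 z) (EReal.coe_ne_top _)
  intro g p hg hp hgU hcirc t ht
  -- the components that vanish identically are moved away from zero
  set gs : ℝ → ℂ → Fin 3 → ℂ := fun s t j =>
    g t j + (if ∀ t ∈ Metric.closedBall (0 : ℂ) 1, g t j = 0 then ((s : ℝ) : ℂ) else 0) with hgs
  have hgs0 : ∀ t, gs 0 t = g t := by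
    intro t
    funext j
    simp [hgs]
  have hgsc : ∀ a ∈ Metric.closedBall (0 : ℂ) 1,
      ContinuousAt (fun z : ℝ × ℂ => gs z.1 z.2) ((0 : ℝ), a) := by
    intro a ha
    apply continuousAt_pi.mpr
    intro j
    simp only [hgs]
    apply ContinuousAt.add
    · exact ContinuousAt.comp (f := Prod.snd) (g := fun t => g t j)
        ((continuous_apply j).continuousAt.comp (hg a ha).continuousAt) continuousAt_snd
    · split_ifs
      · exact (Complex.continuous_ofReal.comp continuous_fst).continuousAt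
      · exact continuousAt_const
  rw [ext_add_le]
  apply EReal.le_of_forall_lt_iff_le.mp
  intro r hr
  have hr' : (p t).re - κ (g t) < r := EReal.coe_lt_coe_iff.mp hr
  set ε : ℝ := (r - ((p t).re - κ (g t))) / 2 with hε
  have hε0 : 0 < ε := by rw [hε]; linarith
  have htm : t ∈ Metric.closedBall (0 : ℂ) 1 := mem_closedBall_zero_iff.mpr ht
  -- (1) the disc stays in U
  have e1 : ∀ᶠ s in 𝓝 (0 : ℝ), ∀ a ∈ Metric.closedBall (0 : ℂ) 1, gs s a ∈ U := by
    apply (isCompact_closedBall (0 : ℂ) 1).eventually_forall_of_forall_eventually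
    intro a ha
    apply (hgsc a ha).eventually
    apply hU.mem_nhds
    show gs 0 a ∈ U
    rw [hgs0]
    exact hgU a (mem_closedBall_zero_iff.mp ha)
  -- (2) the bound on the circle
  have e2 : ∀ᶠ s in 𝓝 (0 : ℝ), ∀ a ∈ Metric.sphere (0 : ℂ) 1,
      S (gs s a) + ((κ (gs s a) : ℝ) : EReal) ≤ (((p a).re + ε : ℝ) : EReal) := by
    apply (isCompact_sphere (0 : ℂ) 1).eventually_forall_of_forall_eventually
    intro a ha
    have ha1 : ‖a‖ = 1 := mem_sphere_zero_iff_norm.mp ha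
    have ham : a ∈ Metric.closedBall (0 : ℂ) 1 := mem_closedBall_zero_iff.mpr ha1.le
    have hSa : S (g a) < (((p a).re - κ (g a) + ε / 2 : ℝ) : EReal) :=
      lt_of_le_of_lt (ext_add_le.mp (hcirc a ha1)) (EReal.coe_lt_coe_iff.mpr (by linarith))
    have f1 : ∀ᶠ z : ℝ × ℂ in 𝓝 ((0 : ℝ), a),
        S (gs z.1 z.2) < (((p a).re - κ (g a) + ε / 2 : ℝ) : EReal) := by
      have hq : ∀ᶠ y in 𝓝 (gs 0 a), S y < (((p a).re - κ (g a) + ε / 2 : ℝ) : EReal) := by
        rw [hgs0]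
        exact hS.1 (g a) _ hSa
      exact (hgsc a ham).eventually hq
    have f2 : ∀ᶠ z : ℝ × ℂ in 𝓝 ((0 : ℝ), a), κ (gs z.1 z.2) < κ (g a) + ε / 4 := by
      have hκa : ContinuousAt κ (gs ((0 : ℝ), a).1 ((0 : ℝ), a).2) := by
        show ContinuousAt κ (gs 0 a)
        rw [hgs0]
        exact (hκ (g a) (hgU a ha1.le)).continuousAt (hU.mem_nhds (hgU a ha1.le))
      have hc : ContinuousAt (fun z : ℝ × ℂ => κ (gs z.1 z.2)) ((0 : ℝ), a) :=
        ContinuousAt.comp (f := fun z : ℝ × ℂ => gs z.1 z.2) (g := κ) hκa (hgsc a ham)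
      refine hc.eventually_lt continuousAt_const ?_
      show κ (gs 0 a) < _
      rw [hgs0]
      linarith
    have f3 : ∀ᶠ z : ℝ × ℂ in 𝓝 ((0 : ℝ), a), (p a).re - ε / 4 < (p z.2).re := by
      have hc : ContinuousAt (fun z : ℝ × ℂ => (p z.2).re) ((0 : ℝ), a) :=
        ContinuousAt.comp (f := Prod.snd) (g := fun t => (p t).re)
          (Complex.continuous_re.continuousAt.comp (hp a ham).continuousAt) continuousAt_snd
      refine continuousAt_const.eventually_lt hc ?_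
      show _ < (p a).re
      linarith
    filter_upwards [f1, f2, f3] with z h1 h2 h3
    rw [ext_add_le]
    refine h1.le.trans (EReal.coe_le_coe_iff.mpr ?_)
    linarith
  -- (3) continuity of κ at the given point
  have e3 : ∀ᶠ s in 𝓝 (0 : ℝ), κ (g t) - ε < κ (gs s t) := by
    have hκa : ContinuousAt κ (gs 0 t) := by
      rw [hgs0]
      exact (hκ (g t) (hgU t ht)).continuousAt (hU.mem_nhds (hgU t ht))
    have hgt : ContinuousAt (fun s : ℝ => gs s t) 0 :=
      ContinuousAt.comp (f := fun s : ℝ => (s, t)) (g := fun z : ℝ × ℂ => gs z.1 z.2)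
        (hgsc t htm) (by fun_prop)
    have hc : ContinuousAt (fun s : ℝ => κ (gs s t)) 0 :=
      ContinuousAt.comp (f := fun s : ℝ => gs s t) (g := κ) hκa hgt
    refine continuousAt_const.eventually_lt hc ?_
    rw [hgs0]
    linarith
  obtain ⟨s, hs, h1, h2, h3⟩ : ∃ s : ℝ, 0 < s ∧
      (∀ a ∈ Metric.closedBall (0 : ℂ) 1, gs s a ∈ U) ∧
      (∀ a ∈ Metric.sphere (0 : ℂ) 1,
        S (gs s a) + ((κ (gs s a) : ℝ) : EReal) ≤ (((p a).re + ε : ℝ) : EReal)) ∧
      κ (g t) - ε < κ (gs s t) := by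
    have hev : ∀ᶠ s in 𝓝[>] (0 : ℝ), 0 < s ∧
        (∀ a ∈ Metric.closedBall (0 : ℂ) 1, gs s a ∈ U) ∧
        (∀ a ∈ Metric.sphere (0 : ℂ) 1,
          S (gs s a) + ((κ (gs s a) : ℝ) : EReal) ≤ (((p a).re + ε : ℝ) : EReal)) ∧
        κ (g t) - ε < κ (gs s t) := by
      filter_upwards [self_mem_nhdsWithin, nhdsWithin_le_nhds e1, nhdsWithin_le_nhds e2,
        nhdsWithin_le_nhds e3] with s a1 a2 a3 a4
      exact ⟨a1, a2, a3, a4⟩
    exact hev.exists
  have hgsa : AnalyticOnNhd ℂ (gs s) (Metric.closedBall 0 1) := by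
    intro a ha
    apply analyticAt_pi_iff.mpr
    intro j
    exact ((analyticAt_pi_iff.mp (hg a ha)) j).add analyticAt_const
  have hA := ext_caseA S hS U hU κ hκ c W hW hWS (gs s) (fun t => p t + ((ε : ℝ) : ℂ)) hgsa
    (fun a ha => (hp a ha).add analyticAt_const)
    (fun a ha => h1 a (mem_closedBall_zero_iff.mpr ha)) (by
      intro j
      by_cases hj : ∀ t ∈ Metric.closedBall (0 : ℂ) 1, g t j = 0
      · refine ⟨0, by simp, ?_⟩
        have h4 : gs s 0 j = ((s : ℝ) : ℂ) := by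
          simp only [hgs]
          rw [if_pos hj, hj 0 (by simp), zero_add]
        rw [h4]
        exact_mod_cast hs.ne'
      · have hj' := hj
        push Not at hj'
        obtain ⟨a, ha, hne⟩ := hj'
        refine ⟨a, ha, ?_⟩
        have h4 : gs s a j = g a j := by
          simp only [hgs]
          rw [if_neg hj, add_zero]
        rw [h4]
        exact hne) (by
      intro a ha
      have h5 := h2 a (mem_sphere_zero_iff_norm.mpr ha)
      simpa using h5) t ht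
  have h6 : S (g t) ≤ S (gs s t) := by
    apply hmono
    intro j
    by_cases hj : ∀ t ∈ Metric.closedBall (0 : ℂ) 1, g t j = 0
    · rw [hj t htm, norm_zero]
      exact norm_nonneg _
    · have h4 : gs s t j = g t j := by
        simp only [hgs]
        rw [if_neg hj, add_zero]
      rw [h4]
  refine h6.trans ((ext_add_le.mp hA).trans (EReal.coe_le_coe_iff.mpr ?_))
  rw [Complex.add_re, Complex.ofReal_re]
  have h7 : 2 * ε = r - ((p t).re - κ (g t)) := by rw [hε]; ring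
  linarith

end Pool.Agent.TD47
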