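import Pool.Agent.TD47.Lip

/-!
# The recession function of a torus-invariant quasi-psh function
-/

open scoped Topology
open Filter

namespace Pool.Agent.TD47

/-- `h` is the recession function of `f` (generic Lelong numbers along toric divisors) -/
def IsRec (f h : (Fin 3 → ℝ) → ℝ) : Prop :=
  ∀ v, Tendsto (fun t : ℝ => -f (-(t • v)) / t) atTop (𝓝 (h v))

lemma tendsto_div_of_bdd {e : ℝ → ℝ} {M : ℝ} (he : ∀ᶠ t in atTop, |e t| ≤ M) :
    Tendsto (fun t : ℝ => e t / t) atTop (𝓝 0) := by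
  have h1 : Tendsto (fun t : ℝ => M / t) atTop (𝓝 0) := tendsto_const_nhds.div_atTop tendsto_id
  refine squeeze_zero_norm' ?_ h1
  filter_upwards [he, eventually_gt_atTop (0:ℝ)] with t ht h0
  rw [Real.norm_eq_abs, abs_div, abs_of_pos h0]
  exact div_le_div_of_nonneg_right ht h0.le

section

variable {F : Finset Cone3} (hF : IsFan F) {C : ℝ} (hC : 0 ≤ C) {f : (Fin 3 → ℝ) → ℝ}
    (hf : QF F C f)

include hF hC hf

lemma QF.exists_rec : ∃ h, IsRec f h := by
  have key : ∀ v, ∃ a : ℝ, Tendsto (fun t : ℝ => -f (-(t • v)) / t) atTop (𝓝 a) := by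
    intro v
    obtain ⟨σ, hσ, s, hs, hv⟩ := hF.complete v
    set g : ℝ → ℝ := fun t => gs C f σ (-(t • s)) with hg
    have hmem : ∀ t : ℝ, 0 ≤ t → -(t • s) ∈ {x : Fin 3 → ℝ | ∀ j, x j < Real.log 2} := by
      intro t ht j
      have := mul_nonneg ht (hs j)
      have h2 := Real.log_pos (by norm_num : (1:ℝ) < 2)
      simp only [Pi.neg_apply, Pi.smul_apply, smul_eq_mul]
      linarith
    have hanti : ∀ t : ℝ, 0 ≤ t → g t ≤ g 0 := by
      intro t ht
      refine (hf σ hσ).2 (hmem t ht) (hmem 0 le_rfl) ?_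
      intro j
      have := mul_nonneg ht (hs j)
      simp only [Pi.neg_apply, Pi.smul_apply, smul_eq_mul, zero_mul, neg_zero]
      linarith
    set k : ℝ → ℝ := fun t => (g 0 - g (max t 1)) / max t 1 with hk
    have hkanti : Antitone k := by
      intro a b hab
      simp only [hk]
      set a' := max a 1 with ha'
      set b' := max b 1 with hb'
      have h1 : 0 < a' := lt_of_lt_of_le one_pos (le_max_right _ _)
      have h2 : a' ≤ b' := max_le_max_right _ hab
      have h3 : 0 < b' := lt_of_lt_of_le h1 h2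
      have hconv := (hf σ hσ).1.2 (hmem 0 le_rfl) (hmem b' h3.le)
        (show (0:ℝ) ≤ 1 - a' / b' by rw [sub_nonneg, div_le_one h3]; exact h2)
        (show (0:ℝ) ≤ a' / b' by positivity) (by ring)
      have e : (1 - a' / b') • (-((0:ℝ) • s)) + (a' / b') • (-(b' • s)) = -(a' • s) := by
        rw [zero_smul, neg_zero, smul_zero, zero_add, smul_neg, smul_smul,
          div_mul_cancel₀ _ h3.ne']
      rw [e] at hconv
      simp only [smul_eq_mul] at hconv
      have h4 : g a' ≤ (1 - a' / b') * g 0 + a' / b' * g b' := hconv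
      rw [div_le_div_iff₀ h3 h1]
      have h5 := mul_le_mul_of_nonneg_left h4 h3.le
      have h6 : b' * ((1 - a' / b') * g 0 + a' / b' * g b') = (b' - a') * g 0 + a' * g b' := by
        field_simp
      rw [h6] at h5
      linarith
    have hkb : BddBelow (Set.range k) := by
      refine ⟨0, ?_⟩
      rintro _ ⟨t, rfl⟩
      simp only [hk]
      have h1 : (0:ℝ) < max t 1 := lt_of_lt_of_le one_pos (le_max_right _ _)
      have := hanti (max t 1) h1.le
      exact div_nonneg (by linarith) h1.le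
    have hlim := tendsto_atTop_ciInf hkanti hkb
    refine ⟨⨅ i, k i, ?_⟩
    have hrem : Tendsto (fun t : ℝ => (-g 0 + C * ∑ j, Real.exp (2 * (-(t • s)) j)) / t) atTop
        (𝓝 0) := by
      apply tendsto_div_of_bdd (M := |g 0| + 3 * C)
      filter_upwards [eventually_ge_atTop (0:ℝ)] with t ht
      have h1 : ∀ j, Real.exp (2 * (-(t • s)) j) ≤ 1 := by
        intro j
        rw [Real.exp_le_one_iff]
        have := mul_nonneg ht (hs j)
        simp only [Pi.neg_apply, Pi.smul_apply, smul_eq_mul]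
        linarith
      have h2 : ∑ j, Real.exp (2 * (-(t • s)) j) ≤ 3 := by
        calc ∑ j, Real.exp (2 * (-(t • s)) j) ≤ ∑ j : Fin 3, (1:ℝ) :=
              Finset.sum_le_sum fun j _ => h1 j
          _ = 3 := by simp
      have h3 : 0 ≤ ∑ j, Real.exp (2 * (-(t • s)) j) :=
        Finset.sum_nonneg fun j _ => (Real.exp_pos _).le
      calc |-g 0 + C * ∑ j, Real.exp (2 * (-(t • s)) j)| ≤
          |-g 0| + |C * ∑ j, Real.exp (2 * (-(t • s)) j)| := abs_add_le _ _
        _ ≤ |g 0| + 3 * C := by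
          rw [abs_neg, abs_of_nonneg (mul_nonneg hC h3)]
          nlinarith
    have hsum := hlim.add hrem
    rw [add_zero] at hsum
    refine hsum.congr' ?_
    filter_upwards [eventually_ge_atTop (1:ℝ)] with t ht
    simp only [hk]
    rw [max_eq_left ht]
    have h0 : (0:ℝ) < t := by linarith
    have e : f (-(t • v)) = g t - C * ∑ j, Real.exp (2 * (-(t • s)) j) := by
      simp only [hg, gs]
      rw [comb_neg, comb_smul, hv]
      ring
    rw [e]
    field_simp
    ring
  choose h hh using key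
  exact ⟨h, hh⟩

variable {h : (Fin 3 → ℝ) → ℝ} (hh : IsRec f h)

include hh

omit hF hC hf in
lemma IsRec.zero : h 0 = 0 := by
  have h1 := hh 0
  have h2 : Tendsto (fun t : ℝ => -f 0 / t) atTop (𝓝 0) :=
    tendsto_const_nhds.div_atTop tendsto_id
  refine tendsto_nhds_unique h1 (h2.congr fun t => ?_)
  rw [smul_zero, neg_zero]

omit hF hC hf in
lemma IsRec.smul {s : ℝ} (hs : 0 ≤ s) (v : Fin 3 → ℝ) : h (s • v) = s * h v := by
  rcases eq_or_lt_of_le hs with h0 | h0
  · rw [← h0, zero_smul, zero_mul, hh.zero]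
  · have h1 := hh (s • v)
    have h2 : Tendsto (fun t : ℝ => t * s) atTop atTop := tendsto_id.atTop_mul_const h0
    have h3 := ((hh v).comp h2).const_mul s
    refine tendsto_nhds_unique h1 (h3.congr' ?_)
    filter_upwards [eventually_gt_atTop (0:ℝ)] with t ht
    simp only [Function.comp]
    rw [mul_smul]
    field_simp

lemma IsRec.nonneg (v : Fin 3 → ℝ) : 0 ≤ h v := by
  have h1 : Tendsto (fun t : ℝ => -(f 0 + 3 * C) / t) atTop (𝓝 0) :=
    tendsto_const_nhds.div_atTop tendsto_id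
  refine le_of_tendsto_of_tendsto h1 (hh v) ?_
  filter_upwards [eventually_gt_atTop (0:ℝ)] with t ht
  have := hf.upper hF hC (-(t • v))
  exact div_le_div_of_nonneg_right (by linarith) ht.le

lemma IsRec.lip (u v : Fin 3 → ℝ) : |h u - h v| ≤ lipK F C * l1 (u - v) := by
  have h1 := ((hh u).sub (hh v)).abs
  refine le_of_tendsto h1 ?_
  filter_upwards [eventually_gt_atTop (0:ℝ)] with t ht
  have h2 := hf.lip hF hC (-(t • u)) (t • (u - v))
  have e : -(t • u) + t • (u - v) = -(t • v) := by module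
  rw [e, l1_smul, abs_of_pos ht] at h2
  rw [← sub_div, abs_div, abs_of_pos ht, div_le_iff₀ ht]
  have e2 : -f (-(t • u)) - -f (-(t • v)) = f (-(t • v)) - f (-(t • u)) := by ring
  rw [e2]
  linarith

end

section Phi

variable {F : Finset Cone3} {C : ℝ}

/-- Lipschitz constant of the extended function -/
noncomputable def bK (F : Finset Cone3) (C : ℝ) (σ : Cone3) : ℝ :=
  lipK F C * msum (MR σ) + 6 * C

/-- the extension of `φ + C |y|²` in the chart of `σ` -/
noncomputable def Phi (F : Finset Cone3) (C : ℝ) (f : (Fin 3 → ℝ) → ℝ) (σ : Cone3) :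
    (Fin 3 → ℝ) → ℝ := ext (1 / 2) (bK F C σ) (gs C f σ)

lemma Phi_eq {f : (Fin 3 → ℝ) → ℝ} {σ : Cone3} {x : Fin 3 → ℝ} (hx : ∀ j, x j ≤ 1 / 2) :
    Phi F C f σ x = f (comb σ x) + C * ∑ j, Real.exp (2 * x j) := ext_eq hx

lemma lipK_nonneg (F : Finset Cone3) {C : ℝ} (hC : 0 ≤ C) : 0 ≤ lipK F C :=
  mul_nonneg (by norm_num) (mul_nonneg hC (psiK_nonneg F))

variable (hF : IsFan F) (hC : 0 ≤ C) {f : (Fin 3 → ℝ) → ℝ} (hf : QF F C f)

lemma bK_nonneg (hC : 0 ≤ C) (σ : Cone3) : 0 ≤ bK F C σ := by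
  unfold bK
  have := mul_nonneg (lipK_nonneg F hC) (msum_nonneg (MR σ))
  linarith

include hF hC hf

lemma gs_lip (σ : Cone3) (x z : Fin 3 → ℝ) (hx : ∀ j, x j ≤ 1 / 2) :
    gs C f σ x ≤ gs C f σ z + bK F C σ * l1 (x - z) := by
  unfold gs bK
  have h1 := hf.lip hF hC (comb σ z) (comb σ (x - z))
  rw [← comb_add, add_sub_cancel] at h1
  have h2 := (le_abs_self _).trans h1
  have h3 := mul_le_mul_of_nonneg_left (l1_comb σ (x - z)) (lipK_nonneg F hC)
  have h4 := mul_le_mul_of_nonneg_left (expsum_lip (z := z) hx) hC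
  linarith

variable {σ : Cone3} (hσ : σ ∈ F)

include hσ

lemma Phi_convex : ConvexOn ℝ Set.univ (Phi F C f σ) := by
  refine ext_convex ((hf σ hσ).1.subset ?_ half_convex) ?_ ?_
  · intro x hx j
    have := hx j
    linarith [half_lt_log_two]
  · refine (hf σ hσ).2.mono ?_
    intro x hx j
    have := hx j
    linarith [half_lt_log_two]
  · intro x z hx _
    exact gs_lip hF hC hf σ x z hx

omit hF in
lemma Phi_mono : Monotone (Phi F C f σ) := by
  refine ext_mono (bK_nonneg hC σ) ?_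
  refine (hf σ hσ).2.mono ?_
  intro x hx j
  have := hx j
  linarith [half_lt_log_two]

omit hσ in
lemma Phi_lip (x y : Fin 3 → ℝ) : |Phi F C f σ x - Phi F C f σ y| ≤ 2 * bK F C σ * l1 (x - y) :=
  ext_lip (bK_nonneg hC σ) (fun x z hx _ => gs_lip hF hC hf σ x z hx) x y

variable {h : (Fin 3 → ℝ) → ℝ} (hh : IsRec f h)

include hh

omit hσ in
lemma Phi_rec {s : Fin 3 → ℝ} (hs : ∀ j, 0 ≤ s j) (x : Fin 3 → ℝ) :
    Tendsto (fun t : ℝ => Phi F C f σ (x - t • s) / t) atTop (𝓝 (-h (comb σ s))) := by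
  have h1 := (hh (comb σ s)).neg
  have h2 : Tendsto (fun t : ℝ => (Phi F C f σ (x - t • s) - f (-(t • comb σ s))) / t) atTop
      (𝓝 0) := by
    apply tendsto_div_of_bdd (M := 2 * bK F C σ * l1 x + 3 * C)
    filter_upwards [eventually_ge_atTop (0:ℝ)] with t ht
    have h3 := Phi_lip hF hC hf (σ := σ) (x - t • s) (-(t • s))
    have e1 : x - t • s - -(t • s) = x := by abel
    rw [e1] at h3
    have hneg : ∀ j, (-(t • s)) j ≤ 0 := by
      intro j
      have := mul_nonneg ht (hs j)
      simp only [Pi.neg_apply, Pi.smul_apply, smul_eq_mul]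
      linarith
    have e2 : Phi F C f σ (-(t • s)) = f (-(t • comb σ s)) +
        C * ∑ j, Real.exp (2 * (-(t • s)) j) := by
      rw [Phi_eq (fun j => (hneg j).trans (by norm_num)), comb_neg, comb_smul]
    have h4 : ∀ j, Real.exp (2 * (-(t • s)) j) ≤ 1 := by
      intro j
      rw [Real.exp_le_one_iff]
      have := hneg j
      linarith
    have h5 : ∑ j, Real.exp (2 * (-(t • s)) j) ≤ 3 := by
      calc ∑ j, Real.exp (2 * (-(t • s)) j) ≤ ∑ j : Fin 3, (1:ℝ) :=
            Finset.sum_le_sum fun j _ => h4 j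
        _ = 3 := by simp
    have h6 : 0 ≤ ∑ j, Real.exp (2 * (-(t • s)) j) :=
      Finset.sum_nonneg fun j _ => (Real.exp_pos _).le
    have e3 : Phi F C f σ (x - t • s) - f (-(t • comb σ s)) =
        (Phi F C f σ (x - t • s) - Phi F C f σ (-(t • s))) +
          C * ∑ j, Real.exp (2 * (-(t • s)) j) := by
      rw [e2]; ring
    rw [e3]
    refine (abs_add_le _ _).trans (add_le_add h3 ?_)
    rw [abs_of_nonneg (mul_nonneg hC h6)]
    nlinarith
  have h3 := h1.add h2
  rw [add_zero] at h3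
  refine h3.congr' ?_
  filter_upwards [eventually_gt_atTop (0:ℝ)] with t ht
  field_simp
  ring

lemma Phi_inc {s : Fin 3 → ℝ} (hs : ∀ j, 0 ≤ s j) (x : Fin 3 → ℝ) :
    Phi F C f σ x + h (comb σ s) ≤ Phi F C f σ (x + s) := by
  have h1 := Phi_rec hF hC hf hh (σ := σ) hs x
  have h2 : Tendsto (fun t : ℝ => Phi F C f σ x / t) atTop (𝓝 0) :=
    tendsto_const_nhds.div_atTop tendsto_id
  have h3 := h2.sub h1
  rw [zero_sub, neg_neg] at h3
  have h4 : h (comb σ s) ≤ Phi F C f σ (x + s) - Phi F C f σ x := by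
    refine le_of_tendsto h3 ?_
    filter_upwards [eventually_gt_atTop (0:ℝ)] with t ht
    have hconv := (Phi_convex hF hC hf hσ).2 (Set.mem_univ (x + s)) (Set.mem_univ (x - t • s))
      (show (0:ℝ) ≤ t / (t + 1) by positivity) (show (0:ℝ) ≤ 1 / (t + 1) by positivity)
      (by field_simp)
    have e : (t / (t + 1)) • (x + s) + (1 / (t + 1)) • (x - t • s) = x := by
      funext j
      simp only [Pi.add_apply, Pi.smul_apply, Pi.sub_apply, smul_eq_mul]
      field_simp
      ring
    rw [e] at hconv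
    simp only [smul_eq_mul] at hconv
    have h5 := mul_le_mul_of_nonneg_left hconv (show (0:ℝ) ≤ t + 1 by linarith)
    have e2 : (t + 1) * (t / (t + 1) * Phi F C f σ (x + s) +
        1 / (t + 1) * Phi F C f σ (x - t • s)) =
        t * Phi F C f σ (x + s) + Phi F C f σ (x - t • s) := by field_simp
    rw [e2] at h5
    rw [← sub_div, div_le_iff₀ ht]
    linarith
  linarith

end Phi

end Pool.Agent.TD47
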