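import Pool.Agent.TD47.LemA

/-!
# All greedy chains are finite
-/

namespace Pool.Agent.TD47

variable {l : V3} {N T δ m M : ℝ}

/-- one light ray `z`, two comparable heavy rays `y, s` whose edge is small -/
lemma ter_H (P : Par l N T δ) (hm : δ ≤ m) (hM : 49 * M ≤ 50 * m) : ∀ n : ℕ, ∀ (A : ℝ)
    (z y s : V3), St l N T M z y s → A ≤ dt l y → dt l y ≤ 6 * A → A ≤ dt l s →
    dt l s ≤ 6 * A → dt l z ≤ A → ¬ m < mu l y s → ed z y ≤ 3 * M * A → ed z s ≤ 3 * M * A →
    12 * A - dt l y - dt l s < n → Ter l m z y s := by
  have hmpos : 0 < m := P.δpos.trans_le hm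
  intro n
  induction n with
  | zero =>
    intro A z y s _ _ h2 _ h4 _ _ _ _ h9
    push_cast at h9
    linarith
  | succ n ih =>
    intro A z y s hS h1 h2 h3 h4 h5 h6 h7 h8 h9
    push_cast at h9
    have core : ∀ y s : V3, St l N T M z y s → A ≤ dt l y → dt l y ≤ 6 * A → A ≤ dt l s →
        dt l s ≤ 6 * A → ¬ m < mu l y s → ed z y ≤ 3 * M * A → ed z s ≤ 3 * M * A →
        12 * A - dt l y - dt l s < n + 1 → ch l m z y s →
        Ter l m (z + y) y s ∧ Ter l m z (z + y) s := by
      intro y s hS h1 h2 h3 h4 h6 h7 h8 h9 hc
      have hz := hS.val.hx; have hy := hS.val.hy; have hs := hS.val.hz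
      have hA : 1 ≤ A := hz.trans h5
      have hsdead : ¬ m < mu l s (z + y) := by
        intro h
        have := new_third P hm hM hS hc h
        rw [dt_add] at this
        linarith
      have hydead : ¬ m < mu l y (z + y) := by
        intro h
        have := new_end' P hm hM hS hc h
        rw [dt_add] at this
        linarith
      constructor
      · apply Ter.of_dead
        · rw [mu_comm]; exact hydead
        · rw [mu_comm]; exact hsdead
        · exact h6
      · have hal := hc.1
        rw [lt_mu_iff (by linarith) (by linarith)] at hal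
        have hlt : dt l z + dt l y < 6 * A := by
          have e1 : 49 * (m * (dt l z + dt l y)) < 49 * (3 * M * A) := by linarith
          have e2 : 49 * (3 * M * A) ≤ 3 * A * (50 * m) := by nlinarith
          have e3 : m * (49 * (dt l z + dt l y)) < m * (150 * A) := by nlinarith
          have := lt_of_mul_lt_mul_left e3 hmpos.le
          linarith
        apply ih A z (z + y) s (hS.child P hm hc)
        · rw [dt_add]; linarith
        · rw [dt_add]; linarith
        · exact h3
        · exact h4
        · exact h5
        · rw [mu_comm]; exact hsdead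
        · rw [ed_self_add]; exact h7
        · exact h8
        · rw [dt_add]; linarith
    apply Ter.mk'
    · intro hc
      exact core y s hS h1 h2 h3 h4 h6 h7 h8 h9 hc
    · intro hc
      have := core s y hS.swap23 h3 h4 h1 h2 (by rwa [mu_comm]) h8 h7 (by linarith) hc
      exact ⟨this.1.swap23, this.2.swap23⟩
    · intro hc
      exact absurd hc.1 h6

lemma ter_H' (P : Par l N T δ) (hm : δ ≤ m) (hM : 49 * M ≤ 50 * m) (A : ℝ)
    (z y s : V3) (hS : St l N T M z y s) (h1 : A ≤ dt l y) (h2 : dt l y ≤ 2 * A)
    (h3 : A ≤ dt l s) (h4 : dt l s ≤ 2 * A) (h5 : dt l z ≤ A) (h6 : ¬ m < mu l y s) :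
    Ter l m z y s := by
  have hz := hS.val.hx; have hy := hS.val.hy; have hs := hS.val.hz
  have hA : 1 ≤ A := hz.trans h5
  have hMpos : 0 < M := by
    have hmpos : 0 < m := P.δpos.trans_le hm
    by_contra h
    have h0 : 0 ≤ mu l z y := mu_nonneg (by linarith) (by linarith)
    have hM0 : M = 0 := le_antisymm (not_lt.mp h) (h0.trans hS.bxy)
    -- then all edges vanish
    have := hS.bxy
    rw [hM0, mu_le_iff (by linarith) (by linarith), zero_mul] at this
    have h2 : |de z y s| ≤ nr (cr z y) * nr s := by
      have : de z y s = dt s (cr z y) := by rw [← de_rot, ← de_rot]; rfl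
      rw [this, mul_comm]; exact abs_dt_le _ _
    rw [hS.val.det] at h2
    have h3 : nr (cr z y) = 0 := le_antisymm this (nr_nonneg _)
    rw [h3] at h2
    norm_num at h2
  obtain ⟨n, hn⟩ := exists_nat_gt (12 * A - dt l y - dt l s)
  have b1 := (mu_le_iff (M := M) (l := l) (x := z) (y := y) (by linarith) (by linarith)).mp hS.bxy
  have b2 := (mu_le_iff (M := M) (l := l) (x := z) (y := s) (by linarith) (by linarith)).mp hS.bxz
  refine ter_H P hm hM n A z y s hS h1 (by linarith) h3 (by linarith) h5 h6 ?_ ?_ hn
  · refine b1.trans ?_
    have : M * (dt l z + dt l y) ≤ M * (3 * A) := mul_le_mul_of_nonneg_left (by linarith) hMpos.le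
    linarith
  · refine b2.trans ?_
    have : M * (dt l z + dt l s) ≤ M * (3 * A) := mul_le_mul_of_nonneg_left (by linarith) hMpos.le
    linarith

/-- two light rays `p, q` whose edge is small, and one heavy ray `t` -/
lemma ter_L (P : Par l N T δ) (hm : δ ≤ m) (hM : 49 * M ≤ 50 * m) (p q t : V3)
    (hS : St l N T M p q t) (h1 : dt l p ≤ dt l t) (h2 : dt l q ≤ dt l t)
    (h3 : ¬ m < mu l p q) : Ter l m p q t := by
  have hacc := acc_sub (M := M) P hm p q t
  induction hacc with
  | intro t _ ih =>
    have core : ∀ p q : V3, St l N T M p q t → dt l p ≤ dt l t → dt l q ≤ dt l t →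
        ch l m p t q → Ter l m (p + t) q t := by
      intro p q hS h1 h2 hc
      have hp := hS.val.hx; have hq := hS.val.hy; have ht := hS.val.hz
      -- H-state with light ray `q` and heavy rays `t`, `p + t`
      have hS' : St l N T M p t q := hS.swap23
      have hS2 : St l N T M (p + t) t q := hS'.child' P hm hc
      have hdead : ¬ m < mu l t (p + t) := by
        intro h
        have := new_end' P hm hM hS' hc h
        rw [dt_add] at this
        linarith
      have := ter_H' P hm hM (dt l t) q t (p + t) (hS2.swap13) le_rfl
        (by linarith) (by rw [dt_add]; linarith) (by rw [dt_add]; linarith) h2 hdead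
      exact this.swap13.swap23
    apply Ter.mk'
    · intro hc
      exact absurd hc.1 h3
    · intro hc
      refine ⟨core p q hS h1 h2 hc, ?_⟩
      have hS2 : St l N T M p (p + t) q := hS.swap23.child P hm hc
      apply ih (p + t) ⟨hS, Or.inl ⟨hc, rfl⟩⟩ hS2.swap23
      · rw [dt_add]; linarith [hS.val.hx]
      · rw [dt_add]; linarith [hS.val.hx]
    · intro hc
      refine ⟨(core q p hS.swap12 h2 h1 hc).swap12, ?_⟩
      have hS2 : St l N T M q (q + t) p := hS.rot.child P hm hc
      apply ih (q + t) ⟨hS, Or.inr ⟨hc, rfl⟩⟩ hS2.rot.rot
      · rw [dt_add]; linarith [hS.val.hy]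
      · rw [dt_add]; linarith [hS.val.hy]

/-- an edge that is large only if it is very unbalanced -/
def Reg (l : V3) (m : ℝ) (x y : V3) : Prop :=
  m < mu l x y → 20 * dt l x < dt l y ∨ 20 * dt l y < dt l x

lemma Reg.symm {x y : V3} (h : Reg l m x y) : Reg l m y x := by
  intro h'; rw [mu_comm] at h'; exact (h h').symm

/-- the light end `x` of the largest edge `x, y` is replaced -/
lemma ter_K (P : Par l N T δ) (hm : δ ≤ m) (hM : 49 * M ≤ 50 * m) (x y z : V3)
    (hS : St l N T M x y z) (hc : ch l m x y z) (hxy : 20 * dt l x < dt l y)
    (hr : Reg l m y z) : Ter l m (x + y) y z := by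
  have hx := hS.val.hx; have hy := hS.val.hy; have hz := hS.val.hz
  have hS2 : St l N T M (x + y) y z := hS.child' P hm hc
  have hydead : ¬ m < mu l y (x + y) := by
    intro h
    have := new_end' P hm hM hS hc h
    rw [dt_add] at this
    linarith
  by_cases hzy : dt l z ≤ dt l y
  · have := ter_H' P hm hM (dt l y) z y (x + y) hS2.swap13 le_rfl
      (by linarith) (by rw [dt_add]; linarith) (by rw [dt_add]; linarith) hzy hydead
    exact this.swap13
  · push Not at hzy
    have hzdead : ¬ m < mu l z (x + y) := by
      intro h
      have := new_third P hm hM hS hc h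
      rw [dt_add] at this
      linarith
    apply Ter.mk'
    · intro h; exact absurd h.1 (by rw [mu_comm]; exact hydead)
    · intro h; exact absurd h.1 (by rw [mu_comm]; exact hzdead)
    · intro h
      have hyz : 20 * dt l y < dt l z := by
        rcases hr h.1 with h' | h'
        · exact h'
        · linarith
      have hS3 : St l N T M y z (x + y) := hS2.rot
      have hzt : ¬ m < mu l z (y + z) := by
        intro h'
        have := new_end' P hm hM hS3 h h'
        rw [dt_add] at this
        linarith
      constructor
      · -- `y` replaced by `y + z`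
        have hS4 : St l N T M (y + z) z (x + y) := hS3.child' P hm h
        have := ter_H' P hm hM (dt l z) (x + y) z (y + z) hS4.swap13 le_rfl
          (by linarith) (by rw [dt_add]; linarith) (by rw [dt_add]; linarith)
          (by rw [dt_add]; linarith) hzt
        exact this.swap23
      · -- `z` replaced by `y + z`
        have hS4 : St l N T M y (y + z) (x + y) := hS3.child P hm h
        have := ter_L P hm hM (x + y) y (y + z) (hS4.swap23.swap12)
          (by rw [dt_add, dt_add]; linarith) (by rw [dt_add]; linarith)
          (by rw [mu_comm]; exact hydead)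
        exact this

/-- all edges regular, `p` lightest, `q` not much heavier than `r` -/
lemma ter_G (P : Par l N T δ) (hm : δ ≤ m) (hM : 49 * M ≤ 50 * m) : ∀ n : ℕ,
    ∀ (p q r : V3), St l N T M p q r → Reg l m p q → Reg l m p r → Reg l m q r →
    dt l p ≤ dt l q → dt l p ≤ dt l r → ed p q ≤ M * (dt l p + dt l r) →
    dt l q ≤ 3 * dt l r → ed p q / m - dt l q < n → Ter l m p q r := by
  have hmpos : 0 < m := P.δpos.trans_le hm
  intro n
  induction n with
  | zero =>
    intro p q r hS h1 h2 h3 h4 h5 h6 h7 h8
    push_cast at h8
    -- the edge `p, q` is not large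
    have hdead : ¬ m < mu l p q := by
      intro h
      have hp := hS.val.hx; have hq := hS.val.hy
      rw [lt_mu_iff (by linarith) (by linarith)] at h
      rw [sub_neg, div_lt_iff₀ hmpos] at h8
      nlinarith
    have hacc := acc_sub (M := M) P hm p q r
    induction hacc with
    | intro r _ ih =>
      have hp := hS.val.hx; have hq := hS.val.hy; have hr := hS.val.hz
      apply Ter.mk'
      · intro hc; exact absurd hc.1 hdead
      · intro hc
        have hpr : 20 * dt l p < dt l r := by
          rcases h2 hc.1 with h | h
          · exact h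
          · linarith
        refine ⟨(ter_K P hm hM p r q hS.swap23 hc hpr h3.symm).swap23, ?_⟩
        have hS2 : St l N T M p (p + r) q := hS.swap23.child P hm hc
        apply ih (p + r) ⟨hS, Or.inl ⟨hc, rfl⟩⟩ hS2.swap23
        · intro h; left; exact new_end P hm hM hS.swap23 hc h
        · intro h; left; exact new_third P hm hM hS.swap23 hc h
        · rw [dt_add]; linarith
        · have hM0 : 0 ≤ M := by
            have := mu_nonneg (l := l) (x := p) (y := q) (by linarith) (by linarith)
            exact this.trans hS.bxy
          rw [dt_add]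
          exact h6.trans (mul_le_mul_of_nonneg_left (by linarith) hM0)
        · rw [dt_add]; linarith
      · intro hc
        have hqr : 20 * dt l q < dt l r := by
          rcases h3 hc.1 with h | h
          · exact h
          · linarith
        refine ⟨(ter_K P hm hM q r p hS.rot hc hqr h2.symm).rot.rot, ?_⟩
        have hS2 : St l N T M q (q + r) p := hS.rot.child P hm hc
        apply ih (q + r) ⟨hS, Or.inr ⟨hc, rfl⟩⟩ hS2.rot.rot
        · intro h; left; exact new_third P hm hM hS.rot hc h
        · intro h; left; exact new_end P hm hM hS.rot hc h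
        · rw [dt_add]; linarith
        · have hM0 : 0 ≤ M := by
            have := mu_nonneg (l := l) (x := p) (y := q) (by linarith) (by linarith)
            exact this.trans hS.bxy
          rw [dt_add]
          exact h6.trans (mul_le_mul_of_nonneg_left (by linarith) hM0)
        · rw [dt_add]; linarith
  | succ n ihn =>
    intro p q r hS h1 h2 h3 h4 h5 h6 h7 h8
    push_cast at h8
    have hacc := acc_sub (M := M) P hm p q r
    induction hacc with
    | intro r _ ih =>
      have hp := hS.val.hx; have hq := hS.val.hy; have hr := hS.val.hz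
      have hM0 : 0 ≤ M := by
        have := mu_nonneg (l := l) (x := p) (y := q) (by linarith) (by linarith)
        exact this.trans hS.bxy
      apply Ter.mk'
      · intro hc
        have hpq : 20 * dt l p < dt l q := by
          rcases h1 hc.1 with h | h
          · exact h
          · linarith
        refine ⟨ter_K P hm hM p q r hS hc hpq h3, ?_⟩
        have hS2 : St l N T M p (p + q) r := hS.child P hm hc
        have hal := hc.1
        rw [lt_mu_iff (by linarith) (by linarith)] at hal
        apply ihn p (p + q) r hS2
        · intro h; left; exact new_end P hm hM hS hc h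
        · exact h2
        · intro h; right
          exact new_third P hm hM hS hc (by rw [mu_comm]; exact h)
        · rw [dt_add]; linarith
        · exact h5
        · rw [ed_self_add]; exact h6
        · rw [dt_add]
          have e1 : 49 * (m * (dt l p + dt l q)) < 49 * (M * (dt l p + dt l r)) := by linarith
          have e2 : 49 * (M * (dt l p + dt l r)) ≤ 50 * m * (dt l p + dt l r) := by nlinarith
          have e3 : m * (49 * (dt l p + dt l q)) < m * (50 * (dt l p + dt l r)) := by nlinarith
          have := lt_of_mul_lt_mul_left e3 hmpos.le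
          linarith
        · rw [ed_self_add, dt_add]; linarith
      · intro hc
        have hpr : 20 * dt l p < dt l r := by
          rcases h2 hc.1 with h | h
          · exact h
          · linarith
        refine ⟨(ter_K P hm hM p r q hS.swap23 hc hpr h3.symm).swap23, ?_⟩
        have hS2 : St l N T M p (p + r) q := hS.swap23.child P hm hc
        apply ih (p + r) ⟨hS, Or.inl ⟨hc, rfl⟩⟩ hS2.swap23
        · intro h; left; exact new_end P hm hM hS.swap23 hc h
        · intro h; left; exact new_third P hm hM hS.swap23 hc h
        · rw [dt_add]; linarith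
        · rw [dt_add]
          exact h6.trans (mul_le_mul_of_nonneg_left (by linarith) hM0)
        · rw [dt_add]; linarith
      · intro hc
        have hqr : 20 * dt l q < dt l r := by
          rcases h3 hc.1 with h | h
          · exact h
          · linarith
        refine ⟨(ter_K P hm hM q r p hS.rot hc hqr h2.symm).rot.rot, ?_⟩
        have hS2 : St l N T M q (q + r) p := hS.rot.child P hm hc
        apply ih (q + r) ⟨hS, Or.inr ⟨hc, rfl⟩⟩ hS2.rot.rot
        · intro h; left; exact new_third P hm hM hS.rot hc h
        · intro h; left; exact new_end P hm hM hS.rot hc h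
        · rw [dt_add]; linarith
        · rw [dt_add]
          exact h6.trans (mul_le_mul_of_nonneg_left (by linarith) hM0)
        · rw [dt_add]; linarith

/-- all edges regular, `p` lightest and `q` not heavier than `r` -/
lemma ter_G' (P : Par l N T δ) (hm : δ ≤ m) (hM : 49 * M ≤ 50 * m) (p q r : V3)
    (hS : St l N T M p q r) (h1 : Reg l m p q) (h2 : Reg l m p r) (h3 : Reg l m q r)
    (h4 : dt l p ≤ dt l q) (h5 : dt l q ≤ dt l r) : Ter l m p q r := by
  have hp := hS.val.hx; have hq := hS.val.hy; have hr := hS.val.hz
  have hM0 : 0 ≤ M := by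
    have := mu_nonneg (l := l) (x := p) (y := q) (by linarith) (by linarith)
    exact this.trans hS.bxy
  obtain ⟨n, hn⟩ := exists_nat_gt (ed p q / m - dt l q)
  refine ter_G P hm hM n p q r hS h1 h2 h3 h4 (h4.trans h5) ?_ (by linarith) hn
  refine ((mu_le_iff (by linarith) (by linarith)).mp hS.bxy).trans ?_
  exact mul_le_mul_of_nonneg_left (by linarith) hM0

lemma ter_G3 (P : Par l N T δ) (hm : δ ≤ m) (hM : 49 * M ≤ 50 * m) (p q r : V3)
    (hS : St l N T M p q r) (h1 : Reg l m p q) (h2 : Reg l m p r) (h3 : Reg l m q r) :
    Ter l m p q r := by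
  rcases le_total (dt l p) (dt l q) with a | a <;> rcases le_total (dt l q) (dt l r) with b | b <;>
    rcases le_total (dt l p) (dt l r) with c | c
  · exact ter_G' P hm hM p q r hS h1 h2 h3 a b
  · exact ter_G' P hm hM p q r hS h1 h2 h3 a b
  · exact (ter_G' P hm hM p r q hS.swap23 h2 h1 h3.symm c b).swap23
  · exact (ter_G' P hm hM r p q hS.rot.rot h2.symm h3.symm h1 c a).rot
  · exact (ter_G' P hm hM q p r hS.swap12 h1.symm h3 h2 a c).swap12
  · exact (ter_G' P hm hM q r p hS.rot h3 h1.symm h2.symm b c).rot.rot
  · exact (ter_G' P hm hM r q p hS.swap13 h3.symm h2.symm h1.symm b a).swap13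
  · exact (ter_G' P hm hM r q p hS.swap13 h3.symm h2.symm h1.symm b a).swap13

lemma ter_O (P : Par l N T δ) (hm : δ ≤ m) (hM : 49 * M ≤ 50 * m) (p q r : V3)
    (hS : St l N T M p q r) (h2 : Reg l m p r) (h3 : Reg l m q r) : Ter l m p q r := by
  have hacc := acc_sub (M := M) P hm p q r
  induction hacc with
  | intro r _ ih =>
    have core : ∀ p q : V3, St l N T M p q r → Reg l m q r →
        ch l m p r q → Ter l m (p + r) q r := by
      intro p q hS h3 hc
      have hS2 : St l N T M (p + r) r q := hS.swap23.child' P hm hc
      have := ter_G3 P hm hM (p + r) r q hS2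
        (by intro h; right; exact new_end' P hm hM hS.swap23 hc (by rw [mu_comm]; exact h))
        (by intro h; right; exact new_third P hm hM hS.swap23 hc (by rw [mu_comm]; exact h))
        h3.symm
      exact this.swap23
    apply Ter.mk'
    · intro hc
      constructor
      · exact ter_G3 P hm hM _ _ _ (hS.child' P hm hc)
          (by intro h; right; exact new_end' P hm hM hS hc (by rw [mu_comm]; exact h))
          (by intro h; right; exact new_third P hm hM hS hc (by rw [mu_comm]; exact h))
          h3
      · exact ter_G3 P hm hM _ _ _ (hS.child P hm hc)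
          (by intro h; left; exact new_end P hm hM hS hc h)
          h2
          (by intro h; right; exact new_third P hm hM hS hc (by rw [mu_comm]; exact h))
    · intro hc
      refine ⟨core p q hS h3 hc, ?_⟩
      have hS2 : St l N T M p (p + r) q := hS.swap23.child P hm hc
      apply ih (p + r) ⟨hS, Or.inl ⟨hc, rfl⟩⟩ hS2.swap23
      · intro h; left; exact new_end P hm hM hS.swap23 hc h
      · intro h; left; exact new_third P hm hM hS.swap23 hc h
    · intro hc
      refine ⟨(core q p hS.swap12 h2 hc).swap12, ?_⟩
      have hS2 : St l N T M q (q + r) p := hS.rot.child P hm hc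
      apply ih (q + r) ⟨hS, Or.inr ⟨hc, rfl⟩⟩ hS2.rot.rot
      · intro h; left; exact new_third P hm hM hS.rot hc h
      · intro h; left; exact new_end P hm hM hS.rot hc h

lemma ter_start (P : Par l N T δ) (hm : δ ≤ m) (hM : 49 * M ≤ 50 * m) (x y z : V3)
    (hS : St l N T M x y z) : Ter l m x y z := by
  have core : ∀ x y z : V3, St l N T M x y z → ch l m x y z →
      Ter l m (x + y) y z ∧ Ter l m x (x + y) z := by
    intro x y z hS hc
    have k1 : Reg l m x (x + y) := by intro h; left; exact new_end P hm hM hS hc h
    have k2 : Reg l m y (x + y) := by intro h; left; exact new_end' P hm hM hS hc h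
    have k3 : Reg l m z (x + y) := by intro h; left; exact new_third P hm hM hS hc h
    constructor
    · have := ter_O P hm hM y z (x + y) (hS.child' P hm hc).rot k2 k3
      exact this.rot.rot
    · have := ter_O P hm hM x z (x + y) (hS.child P hm hc).swap23 k1 k3
      exact this.swap23
  apply Ter.mk'
  · exact core x y z hS
  · intro hc
    have := core x z y hS.swap23 hc
    exact ⟨this.1.swap23, this.2.swap23⟩
  · intro hc
    have := core y z x hS.rot hc
    exact ⟨this.1.rot.rot, this.2.rot.rot⟩

/-- passing from the threshold `m` to the smaller threshold `δ` -/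
lemma ter_down (P : Par l N T δ) (hm : δ ≤ m) (hlow : ∀ x y z : V3, St l N T m x y z →
    Ter l δ x y z) {x y z : V3} (hT : Ter l m x y z) (hS : St l N T M x y z) :
    Ter l δ x y z := by
  induction hT with
  | mk x y z h1 h2 h3 h4 h5 h6 i1 i2 i3 i4 i5 i6 =>
    by_cases hb : St l N T m x y z
    · exact hlow x y z hb
    · have up : ∀ a b c : V3, St l N T M a b c → ¬ St l N T m a b c → ch l δ a b c →
          ch l m a b c := by
        intro a b c hS' hb' hc
        refine ⟨?_, hc.2.1, hc.2.2⟩
        by_contra hcon
        push Not at hcon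
        exact hb' ⟨hS'.val, hcon, hc.2.2.trans hcon, hc.2.1.trans hcon⟩
      apply Ter.mk'
      · intro hc
        have hc' := up x y z hS hb hc
        exact ⟨i1 hc' (hS.child' P hm hc'), i2 hc' (hS.child P hm hc')⟩
      · intro hc
        have hc' := up x z y hS.swap23 (fun h => hb h.swap23) hc
        exact ⟨i3 hc' (hS.swap23.child' P hm hc').swap23,
          i4 hc' (hS.swap23.child P hm hc').swap23⟩
      · intro hc
        have hc' := up y z x hS.rot (fun h => hb h.rot.rot) hc
        exact ⟨i5 hc' (hS.rot.child' P hm hc').rot.rot,
          i6 hc' (hS.rot.child P hm hc').rot.rot⟩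

theorem ter_all (P : Par l N T δ) (x y z : V3) (hV : Val l N T x y z) : Ter l δ x y z := by
  have key : ∀ j : ℕ, ∀ x y z : V3, St l N T (δ * (50 / 49) ^ j) x y z → Ter l δ x y z := by
    intro j
    induction j with
    | zero =>
      intro x y z hS
      apply Ter.of_dead
      · have := hS.bxy; simp only [pow_zero, mul_one] at this; exact not_lt.mpr this
      · have := hS.bxz; simp only [pow_zero, mul_one] at this; exact not_lt.mpr this
      · have := hS.byz; simp only [pow_zero, mul_one] at this; exact not_lt.mpr this
    | succ j ih =>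
      intro x y z hS
      have hm : δ ≤ δ * (50 / 49) ^ j := by
        have : (1:ℝ) ≤ (50 / 49) ^ j := one_le_pow₀ (by norm_num)
        nlinarith [P.δpos]
      have hM : 49 * (δ * (50 / 49) ^ (j + 1)) ≤ 50 * (δ * (50 / 49) ^ j) := by
        rw [pow_succ]
        have : 49 * (δ * ((50 / 49) ^ j * (50 / 49))) = 50 * (δ * (50 / 49) ^ j) := by ring
        rw [this]
      exact ter_down P hm ih (ter_start P hm hM x y z hS) hS
  -- choose `j`
  set B := max (mu l x y) (max (mu l y z) (mu l x z)) with hB
  obtain ⟨j, hj⟩ := pow_unbounded_of_one_lt (B / δ) (show (1:ℝ) < 50 / 49 by norm_num)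
  rw [div_lt_iff₀ P.δpos] at hj
  apply key j x y z
  have hB1 : B ≤ δ * (50 / 49) ^ j := by linarith
  exact ⟨hV, (le_max_left _ _).trans hB1, ((le_max_left _ _).trans (le_max_right _ _)).trans hB1,
    ((le_max_right _ _).trans (le_max_right _ _)).trans hB1⟩

end Pool.Agent.TD47
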