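import Mathlib

/-!
# Elementary vector algebra in `ℝ³`
-/

namespace Pool.Agent.TD47

abbrev V3 := Fin 3 → ℝ

/-- dot product -/
def dt (x y : V3) : ℝ := x 0 * y 0 + x 1 * y 1 + x 2 * y 2

/-- cross product -/
def cr (x y : V3) : V3 :=
  ![x 1 * y 2 - x 2 * y 1, x 2 * y 0 - x 0 * y 2, x 0 * y 1 - x 1 * y 0]

/-- Euclidean norm -/
noncomputable def nr (x : V3) : ℝ := Real.sqrt (dt x x)

@[simp] lemma cr_0 (x y : V3) : cr x y 0 = x 1 * y 2 - x 2 * y 1 := rfl
@[simp] lemma cr_1 (x y : V3) : cr x y 1 = x 2 * y 0 - x 0 * y 2 := rfl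
@[simp] lemma cr_2 (x y : V3) : cr x y 2 = x 0 * y 1 - x 1 * y 0 := rfl

lemma dt_self_nonneg (x : V3) : 0 ≤ dt x x := by
  unfold dt; nlinarith [mul_self_nonneg (x 0), mul_self_nonneg (x 1), mul_self_nonneg (x 2)]

lemma nr_nonneg (x : V3) : 0 ≤ nr x := Real.sqrt_nonneg _

lemma nr_sq (x : V3) : nr x ^ 2 = dt x x := Real.sq_sqrt (dt_self_nonneg x)

lemma nr_mul_self (x : V3) : nr x * nr x = dt x x := by rw [← nr_sq]; ring

lemma dt_comm (x y : V3) : dt x y = dt y x := by unfold dt; ring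

lemma dt_add (x y z : V3) : dt x (y + z) = dt x y + dt x z := by
  simp only [dt, Pi.add_apply]; ring

lemma add_dt (x y z : V3) : dt (x + y) z = dt x z + dt y z := by
  simp only [dt, Pi.add_apply]; ring

lemma dt_sub (x y z : V3) : dt x (y - z) = dt x y - dt x z := by
  simp only [dt, Pi.sub_apply]; ring

lemma dt_smul (c : ℝ) (x y : V3) : dt x (c • y) = c * dt x y := by
  simp only [dt, Pi.smul_apply, smul_eq_mul]; ring

/-- Lagrange identity -/
lemma lagrange (x y : V3) : dt x x * dt y y = dt x y ^ 2 + dt (cr x y) (cr x y) := by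
  simp only [dt, cr_0, cr_1, cr_2]; ring

lemma nr_mul_nr_sq (x y : V3) : (nr x * nr y) ^ 2 = dt x y ^ 2 + nr (cr x y) ^ 2 := by
  rw [mul_pow, nr_sq, nr_sq, nr_sq, lagrange]

lemma abs_dt_le (x y : V3) : |dt x y| ≤ nr x * nr y := by
  apply abs_le_of_sq_le_sq _ (mul_nonneg (nr_nonneg x) (nr_nonneg y))
  rw [nr_mul_nr_sq]; nlinarith [sq_nonneg (nr (cr x y))]

lemma dt_le (x y : V3) : dt x y ≤ nr x * nr y := (le_abs_self _).trans (abs_dt_le x y)

lemma neg_dt_le (x y : V3) : -dt x y ≤ nr x * nr y := (neg_le_abs _).trans (abs_dt_le x y)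

lemma nr_add_le (x y : V3) : nr (x + y) ≤ nr x + nr y := by
  apply Real.sqrt_le_iff.mpr
  refine ⟨add_nonneg (nr_nonneg x) (nr_nonneg y), ?_⟩
  have h : dt (x + y) (x + y) = dt x x + 2 * dt x y + dt y y := by
    simp only [dt, Pi.add_apply]; ring
  rw [h, add_sq, nr_sq, nr_sq]
  nlinarith [dt_le x y]

lemma nr_neg (x : V3) : nr (-x) = nr x := by
  unfold nr; congr 1; simp only [dt, Pi.neg_apply]; ring

lemma nr_smul (c : ℝ) (x : V3) : nr (c • x) = |c| * nr x := by
  unfold nr
  have : dt (c • x) (c • x) = c ^ 2 * dt x x := by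
    simp only [dt, Pi.smul_apply, smul_eq_mul]; ring
  rw [this, Real.sqrt_mul (sq_nonneg c), Real.sqrt_sq_eq_abs]

lemma cr_comm (x y : V3) : cr x y = -cr y x := by
  funext i; fin_cases i <;> simp [cr] <;> ring

lemma cr_self (x : V3) : cr x x = 0 := by
  funext i; fin_cases i <;> simp [cr] <;> ring

lemma cr_add (x y z : V3) : cr x (y + z) = cr x y + cr x z := by
  funext i; fin_cases i <;> simp [cr] <;> ring

lemma add_cr (x y z : V3) : cr (x + y) z = cr x z + cr y z := by
  funext i; fin_cases i <;> simp [cr] <;> ring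

/-- symmetric edge size -/
noncomputable def ed (x y : V3) : ℝ := nr (cr x y)

lemma ed_comm (x y : V3) : ed x y = ed y x := by
  unfold ed; rw [cr_comm, nr_neg]

lemma ed_nonneg (x y : V3) : 0 ≤ ed x y := nr_nonneg _

lemma ed_self_add (x y : V3) : ed x (x + y) = ed x y := by
  unfold ed; rw [cr_add, cr_self, zero_add]

lemma ed_self_add' (x y : V3) : ed y (x + y) = ed x y := by
  unfold ed; rw [cr_add, cr_self, add_zero, cr_comm, nr_neg]

lemma ed_add_le (x y z : V3) : ed z (x + y) ≤ ed z x + ed z y := by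
  unfold ed; rw [cr_add]; exact nr_add_le _ _

/-- determinant -/
def de (x y z : V3) : ℝ := dt x (cr y z)

lemma de_expand (x y z : V3) : de x y z =
    x 0 * (y 1 * z 2 - y 2 * z 1) + x 1 * (y 2 * z 0 - y 0 * z 2) +
      x 2 * (y 0 * z 1 - y 1 * z 0) := by
  simp only [de, dt, cr_0, cr_1, cr_2]

lemma de_rot (x y z : V3) : de y z x = de x y z := by
  simp only [de_expand]; ring

lemma de_swap (x y z : V3) : de y x z = -de x y z := by
  simp only [de_expand]; ring

lemma de_add (x y z : V3) : de x (x + y) z = de x y z := by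
  simp only [de_expand, Pi.add_apply]; ring

lemma de_add' (x y z : V3) : de (x + y) y z = de x y z := by
  simp only [de_expand, Pi.add_apply]; ring

/-- The basic identity (λ·x) y×z + (λ·y) z×x + (λ·z) x×y = det(x,y,z) λ, paired with a vector. -/
lemma basic_id (l x y z t : V3) :
    dt l x * dt (cr y z) t + dt l y * dt (cr z x) t + dt l z * dt (cr x y) t
      = de x y z * dt l t := by
  simp only [de_expand, dt, cr_0, cr_1, cr_2]; ring

/-- (y × z) × (x × y) = - det(x,y,z) y -/
lemma cr_cr_1 (x y z : V3) : cr (cr y z) (cr x y) = (-(de x y z)) • y := by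
  funext i
  fin_cases i <;>
    simp only [de_expand, cr, Pi.smul_apply, smul_eq_mul, Matrix.cons_val_zero,
      Matrix.cons_val_one, Matrix.cons_val_two, Matrix.head_cons, Matrix.tail_cons,
      Fin.zero_eta, Fin.mk_one, Fin.reduceFinMk] <;> ring

/-- (z × x) × (x × y) = det(x,y,z) x -/
lemma cr_cr_2 (x y z : V3) : cr (cr z x) (cr x y) = (de x y z) • x := by
  funext i
  fin_cases i <;>
    simp only [de_expand, cr, Pi.smul_apply, smul_eq_mul, Matrix.cons_val_zero,
      Matrix.cons_val_one, Matrix.cons_val_two, Matrix.head_cons, Matrix.tail_cons,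
      Fin.zero_eta, Fin.mk_one, Fin.reduceFinMk] <;> ring

/-- ((z × x) - (y × z)) × (x × y) = det(x,y,z) (x + y) -/
lemma cr_cr_3 (x y z : V3) :
    cr (cr z (x + y)) (cr x y) = (de x y z) • (x + y) := by
  funext i
  fin_cases i <;>
    simp only [de_expand, cr, Pi.smul_apply, smul_eq_mul, Matrix.cons_val_zero,
      Matrix.cons_val_one, Matrix.cons_val_two, Matrix.head_cons, Matrix.tail_cons,
      Fin.zero_eta, Fin.mk_one, Fin.reduceFinMk, Pi.add_apply] <;> ring

/-- `l × (x × y) = (l·y) x - (l·x) y` -/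
lemma bac_cab (l x y : V3) : cr l (cr x y) = dt l y • x - dt l x • y := by
  funext i
  fin_cases i <;>
    simp only [dt, cr, Pi.smul_apply, smul_eq_mul, Matrix.cons_val_zero,
      Matrix.cons_val_one, Matrix.cons_val_two, Matrix.head_cons, Matrix.tail_cons,
      Fin.zero_eta, Fin.mk_one, Fin.reduceFinMk, Pi.sub_apply] <;> ring

lemma nr_cr_le (x y : V3) : nr (cr x y) ≤ nr x * nr y := by
  have h := nr_mul_nr_sq x y
  have h1 : nr (cr x y) ^ 2 ≤ (nr x * nr y) ^ 2 := by rw [h]; nlinarith [sq_nonneg (dt x y)]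
  exact (abs_le_of_sq_le_sq h1 (mul_nonneg (nr_nonneg x) (nr_nonneg y))) |> fun h => (le_abs_self _).trans h

end Pool.Agent.TD47
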